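import Pool.Agent.H64NC.Asm

/-!
# Project NCA (helper64): the asymptotic sign conjecture
-/

set_option autoImplicit false
set_option linter.unusedSectionVars false

open CategoryTheory Limits MonoidalCategory Filter Topology
open Pool.Agent.Y112.SR Pool.Agent.Y112.KD Pool.Agent.Y112.SC Pool.Agent.R484.NC

namespace Pool.Agent.H64NC

universe u v w

section

variable {C : Type u} [Category.{v} C] [Preadditive C] [Linear ℚ C] [MonoidalCategory C]
  [MonoidalPreadditive C] [MonoidalLinear ℚ C] [SymmetricCategory C] [RightRigidCategory C]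
  {K : Type w} [Field K] (R : SuperRealisation C K)

include R in
lemma transport {hU : UnitQ C} {X Y : C} (e : X ≅ Y) {x : X ⟶ X} (hx : NumInvolution hU x) :
    ∃ y : Y ⟶ Y, NumInvolution hU y ∧ ctr hU y = ctr hU x := by
  refine ⟨e.inv ≫ x ≫ e.hom, ?_, ?_⟩
  · intro g
    have e1 : (e.inv ≫ x ≫ e.hom) ≫ (e.inv ≫ x ≫ e.hom) - 𝟙 Y =
        e.inv ≫ (x ≫ x - 𝟙 X) ≫ e.hom := by
      simp
    rw [e1, Category.assoc, ctr_comm R]
    simp only [Category.assoc]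
    exact hx _
  · rw [ctr_comm R]
    simp

include R in
lemma ctr_unit (hU : UnitQ C) : ctr hU (𝟙 (𝟙_ C)) = 1 := by
  have hK := R_charZero R
  have h0 := R.finite (𝟙_ C)
  have h1 : ((ctr hU (𝟙 (𝟙_ C)) : ℚ) : K) = ((1 : ℚ) : K) := by
    rw [ctr_eq R, str, CategoryTheory.Functor.map_id, Category.id_comp, R.par_unit,
      ModuleCat.hom_id, LinearMap.trace_id, finrank_unit R]
    push_cast
    rfl
  exact_mod_cast h1

include R in
lemma tensor_pow {hU : UnitQ C} {X : C} {x : X ⟶ X} (hx : NumInvolution hU x) (k : ℕ) :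
    ∃ y : tp X k ⟶ tp X k, NumInvolution hU y ∧ ctr hU y = (ctr hU x) ^ k := by
  induction k with
  | zero => exact ⟨𝟙 _, one_involution hU _, by rw [pow_zero]; exact ctr_unit R hU⟩
  | succ k ih =>
    obtain ⟨y, hy, hyk⟩ := ih
    refine ⟨y ⊗ₘ x, involution_tensor R hU hy hx, ?_⟩
    rw [pow_succ, ← hyk]
    exact ctr_tensor R hU y x

variable {hU : UnitQ C} {M : C} {ρ : ℕ → ℕ} (hρ : ∀ n, IsIdx hU (tp M n) (ρ n))

include hρ

include R in
lemma rho_le (n : ℕ) : ρ n ≤ totalDim R M ^ n := by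
  obtain ⟨x, hx, hxr⟩ := (hρ n).1
  obtain ⟨m, hm, hm', -⟩ := involution_bound R hU hx
  rw [totalDim_tp] at hm'
  rw [hxr] at hm
  have h1 : (ρ n : ℤ) = m := by exact_mod_cast hm
  have h2 : (ρ n : ℤ) ≤ ((totalDim R M ^ n : ℕ) : ℤ) := by
    rw [h1]
    exact (le_abs_self m).trans hm'
  exact_mod_cast h2

include R in
lemma rho_pow (n k : ℕ) : ρ n ^ k ≤ ρ (n * k) := by
  obtain ⟨x, hx, hxr⟩ := (hρ n).1
  obtain ⟨y, hy, hyk⟩ := tensor_pow R hx k
  obtain ⟨e⟩ := tp_mul M n k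
  obtain ⟨z, hz, hzk⟩ := transport R e hy
  have h1 := (hρ (n * k)).2 ⟨z, hz, rfl⟩
  rw [hzk, hyk, hxr] at h1
  exact_mod_cast h1

lemma rho_gap (m : ℕ) (f : tp M m ⟶ tp M m) (hf : NumZero hU f) (hn : ¬ IsNilpotent (op R f)) :
    2 ≤ totalDim R M ^ m ∧ ∀ k, ρ (m * k) ≤ (totalDim R M ^ m - 2) ^ k := by
  obtain ⟨h1, h2⟩ := upper.{u, v, w} t_CUT hU R (tp M m) f hf hn
  rw [totalDim_tp] at h1 h2
  refine ⟨h1, fun k => ?_⟩
  obtain ⟨x, hx, hxr⟩ := (hρ (m * k)).1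
  obtain ⟨e⟩ := tp_mul M m k
  obtain ⟨z, hz, hzk⟩ := transport R e.symm hx
  have h3 := h2 k z hz
  rw [hzk, hxr] at h3
  exact_mod_cast h3

lemma nil_of_low (h : ∀ x : ℝ, 0 ≤ x → x < totalDim R M → ∃ n : ℕ, 1 ≤ n ∧ x ^ n ≤ ρ n) :
    Nil R hU M := by
  intro m f hf
  by_contra hn
  obtain ⟨h1, h2⟩ := rho_gap R hρ m f hf hn
  obtain ⟨x, hx0, hxD, hx⟩ := exists_between h1
  obtain ⟨j, hj, hxj⟩ := h x hx0 hxD
  have h3 : (x ^ j) ^ m ≤ ((ρ j : ℝ)) ^ m := pow_le_pow_left₀ (by positivity) hxj m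
  have h4 : ((ρ j : ℝ)) ^ m ≤ ρ (j * m) := by exact_mod_cast rho_pow R hρ j m
  have h5 : ((ρ (j * m) : ℕ) : ℝ) ≤ ((totalDim R M ^ m - 2 : ℕ) : ℝ) ^ j := by
    rw [mul_comm j m]
    exact_mod_cast h2 j
  have h6 : ((totalDim R M ^ m - 2 : ℕ) : ℝ) ^ j < (x ^ m) ^ j :=
    pow_lt_pow_left₀ hx (by positivity) (by omega)
  have h7 : (x ^ j) ^ m = (x ^ m) ^ j := by rw [← pow_mul, ← pow_mul, mul_comm]
  rw [h7] at h3
  linarith

/-- **The asymptotic sign conjecture.** -/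
theorem tfae (hperm : S_PERM.{u, v, w}) :
    [Tendsto (fun n : ℕ => (ρ n : ℝ) ^ ((1 : ℝ) / n)) atTop (𝓝 (totalDim R M : ℝ)),
      ∀ x : ℝ, 0 ≤ x → x < totalDim R M → ∃ n : ℕ, 1 ≤ n ∧ x ^ n ≤ ρ n,
      Nil R hU M,
      ∀ n, totalDim R M ^ (2 * n) ≤ ρ n ^ 2 * (n + 1) ^ (totalDim R M ^ 2)].TFAE := by
  tfae_have 1 → 2 := fun h x hx0 hx => low_of_lim h x hx0 hx
  tfae_have 2 → 3 := nil_of_low R hρ
  tfae_have 3 → 4 := fun h n => lower R hperm n (hρ n) (h n)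
  tfae_have 4 → 1 := fun h => lim_root (rho_le R hρ) h
  tfae_finish

lemma dim_le_of_nil (hperm : S_PERM.{u, v, w}) {K' : Type w} [Field K']
    (R' : SuperRealisation C K') (h' : Nil R' hU M) : totalDim R' M ≤ totalDim R M ∧
      (Nil R hU M ↔ totalDim R M = totalDim R' M) := by
  have hlim' := ((tfae R' hρ hperm).out 2 0).1 h'
  have h1 : (totalDim R' M : ℝ) ≤ totalDim R M := by
    apply le_of_tendsto hlim'
    filter_upwards [eventually_ge_atTop 1] with n hn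
    have hn0 : (n : ℝ) ≠ 0 := by positivity
    calc (ρ n : ℝ) ^ ((1 : ℝ) / n) ≤ ((totalDim R M : ℝ) ^ n) ^ ((1 : ℝ) / n) := by
          apply Real.rpow_le_rpow (by positivity) _ (by positivity)
          exact_mod_cast rho_le R hρ n
      _ = totalDim R M := by
          rw [← Real.rpow_natCast, ← Real.rpow_mul (by positivity), mul_one_div_cancel hn0,
            Real.rpow_one]
  refine ⟨by exact_mod_cast h1, fun h => ?_, fun h => ?_⟩
  · have hlim := ((tfae R hρ hperm).out 2 0).1 h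
    exact_mod_cast tendsto_nhds_unique hlim hlim'
  · apply ((tfae R hρ hperm).out 2 0).2
    rw [h]
    exact hlim'

end

end Pool.Agent.H64NC
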