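import Pool.Agent.H64NC.Perm2
import Pool.Agent.H64NC.Fin

/-!
# Project NCA (helper64), phase 2: transposed elements of the group algebra
-/

set_option autoImplicit false
set_option linter.unusedSectionVars false

open CategoryTheory Limits MonoidalCategory
open Pool.Agent.Y112.SR Pool.Agent.Y112.KD Pool.Agent.Y112.SC Pool.Agent.R484.NC

namespace Pool.Agent.H64NC

universe u v w

open Pool.Agent.H64NC.Perm (bs bs_succ mu mu_right mu_smul_left mu_add_left exists_basis last_sw)

section

variable {C : Type u} [Category.{v} C] [Preadditive C] [Linear ℚ C] [MonoidalCategory C]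
  [MonoidalPreadditive C] [MonoidalLinear ℚ C] [SymmetricCategory C] [RightRigidCategory C]

/-- The algebra of the permutations of the factors. -/
def GA (M : C) (n : ℕ) : Subalgebra ℚ (End (tp M n)) :=
  Algebra.adjoin ℚ {t : End (tp M n) | IsSwap M n t}

lemma GA_lift {M : C} {n : ℕ} {s : tp M n ⟶ tp M n} (hs : (s : End (tp M n)) ∈ GA M n) :
    (s ▷ M : End (tp M (n + 1))) ∈ GA M (n + 1) := by
  refine Algebra.adjoin_induction (p := fun (x : End (tp M n)) _ =>
    ((x : tp M n ⟶ tp M n) ▷ M : End (tp M (n + 1))) ∈ GA M (n + 1)) ?_ ?_ ?_ ?_ hs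
  · intro x hx
    exact Algebra.subset_adjoin (IsSwap.lift n x hx)
  · intro q
    have h1 : (algebraMap ℚ (End (tp M n)) q : tp M n ⟶ tp M n) = q • 𝟙 _ := by
      rw [Algebra.algebraMap_eq_smul_one]
      rfl
    rw [h1]
    have h2 : ((q • 𝟙 (tp M n)) ▷ M : tp M (n + 1) ⟶ tp M (n + 1)) =
        (algebraMap ℚ (End (tp M (n + 1))) q : tp M (n + 1) ⟶ tp M (n + 1)) := by
      rw [Algebra.algebraMap_eq_smul_one, MonoidalLinear.smul_whiskerRight, id_whiskerRight]
      rfl
    rw [h2]
    exact (GA M (n + 1)).algebraMap_mem q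
  · intro x y _ _ hx hy
    have e : (((x : tp M n ⟶ tp M n) + y) ▷ M : tp M (n + 1) ⟶ tp M (n + 1)) =
        (x ▷ M) + (y ▷ M) := MonoidalPreadditive.add_whiskerRight _ _
    have h := (GA M (n + 1)).add_mem hx hy
    change (((x : tp M n ⟶ tp M n) + y) ▷ M : End (tp M (n + 1))) ∈ GA M (n + 1)
    rw [e]
    exact h
  · intro x y _ _ hx hy
    have h := (GA M (n + 1)).mul_mem hx hy
    rw [End.mul_def] at h
    have e : ((y : tp M n ⟶ tp M n) ≫ x) ▷ M = (y ▷ M) ≫ (x ▷ M) := comp_whiskerRight _ _ _
    rw [← e] at h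
    exact h

lemma GA_comp {M : C} {n : ℕ} {s t : tp M n ⟶ tp M n} (hs : (s : End (tp M n)) ∈ GA M n)
    (ht : (t : End (tp M n)) ∈ GA M n) : (s ≫ t : End (tp M n)) ∈ GA M n := by
  have h := (GA M n).mul_mem ht hs
  rwa [End.mul_def] at h

variable {K : Type w} [Field K] (R : SuperRealisation C K) {M : C} {D : ℕ}

/-- `z` acts by a rational matrix, and the transposed matrix is realised by an element of the group algebra. -/
def TR {n : ℕ} (b : Module.Basis (Fin n → Fin D) K (R.H.obj (tp M n)))
    (z : tp M n ⟶ tp M n) : Prop :=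
  ∃ (z' : tp M n ⟶ tp M n) (A : Matrix (Fin n → Fin D) (Fin n → Fin D) ℚ),
    (z' : End (tp M n)) ∈ GA M n ∧
    (∀ I, op R z (b I) = ∑ J, ((A J I : ℚ) : K) • b J) ∧
    (∀ I, op R z' (b I) = ∑ J, ((A I J : ℚ) : K) • b J)

lemma TR_swap [CharZero K] (v : Module.Basis (Fin D) K (R.H.obj M)) (η : Fin D → Bool)
    (hv : ∀ i, (R.par M).hom (v i) = (if η i then (-1 : K) else 1) • v i) {n : ℕ}
    {s : tp M n ⟶ tp M n} (hs : IsSwap M n s) : TR R (bs R v n) s := by
  classical
  induction hs with
  | last n =>
    obtain ⟨ε, hε, h1, h2⟩ := last_sw R v η hv n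
      (Equiv.swap (Fin.castSucc (Fin.last n)) (Fin.last (n + 1))) rfl
    set σ := Equiv.swap (Fin.castSucc (Fin.last n)) (Fin.last (n + 1)) with hσ
    have hσ2 : ∀ I : Fin (n + 2) → Fin D, (I ∘ σ) ∘ σ = I := by
      intro I
      funext k
      simp [hσ]
    refine ⟨sw (tp M n) M, sgm σ ε, Algebra.subset_adjoin (IsSwap.last n), fun I => ?_,
      fun I => ?_⟩
    · rw [h1, Finset.sum_eq_single (I ∘ σ)]
      · rw [sgm, Matrix.of_apply, if_pos rfl]
      · intro J _ hJ
        rw [sgm, Matrix.of_apply, if_neg hJ, Rat.cast_zero, zero_smul]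
      · intro h
        exact absurd (Finset.mem_univ _) h
    · have h3 := h2 (I ∘ σ)
      rw [hσ2] at h3
      rw [h3, Finset.sum_eq_single (I ∘ σ)]
      · rw [sgm, Matrix.of_apply, if_pos (hσ2 I).symm]
      · intro J _ hJ
        rw [sgm, Matrix.of_apply, if_neg, Rat.cast_zero, zero_smul]
        intro h4
        apply hJ
        rw [h4, hσ2]
      · intro h
        exact absurd (Finset.mem_univ _) h
  | lift n s hs ih =>
    obtain ⟨s', A, hs', h1, h2⟩ := ih
    have hsum : ∀ (f : (Fin n → Fin D) → K) (x : Fin D),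
        mu R (∑ J, f J • bs R v n J) (v x) = ∑ J, f J • mu R (bs R v n J) (v x) := by
      intro f x
      have h3 : ∀ S : Finset (Fin n → Fin D), mu R (∑ J ∈ S, f J • bs R v n J) (v x) =
          ∑ J ∈ S, f J • mu R (bs R v n J) (v x) := by
        intro S
        induction S using Finset.induction_on with
        | empty =>
          rw [Finset.sum_empty, Finset.sum_empty]
          have := mu_smul_left R (0 : K) (0 : R.H.obj (tp M n)) (v x)
          simpa using this
        | insert i S hi ih' =>
          rw [Finset.sum_insert hi, Finset.sum_insert hi, mu_add_left, ih', mu_smul_left]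
      exact h3 Finset.univ
    have hre : ∀ (F : (Fin n → Fin D) → ℚ) (I : Fin (n + 1) → Fin D),
        ∑ J, ((F J : ℚ) : K) • mu R (bs R v n J) (v (I (Fin.last n))) =
        ∑ J : Fin (n + 1) → Fin D, (((if J (Fin.last n) = I (Fin.last n) then
          F (Fin.init J) else 0 : ℚ)) : K) • bs R v (n + 1) J := by
      intro F I
      have h3 : ∀ J : Fin (n + 1) → Fin D, (((if J (Fin.last n) = I (Fin.last n) then
          F (Fin.init J) else 0 : ℚ)) : K) • bs R v (n + 1) J =
          if J (Fin.last n) = I (Fin.last n) then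
            ((F (Fin.init J) : ℚ) : K) • mu R (bs R v n (Fin.init J)) (v (I (Fin.last n)))
          else 0 := by
        intro J
        by_cases h : J (Fin.last n) = I (Fin.last n)
        · rw [if_pos h, if_pos h, bs_succ, h]
        · rw [if_neg h, if_neg h, Rat.cast_zero, zero_smul]
      rw [Finset.sum_congr rfl fun J _ => h3 J, ← Finset.sum_filter]
      symm
      refine Finset.sum_bij' (fun J _ => Fin.init J)
        (fun J _ => Fin.snoc (α := fun _ => Fin D) J (I (Fin.last n))) ?_ ?_ ?_ ?_ ?_
      · intro J _; exact Finset.mem_univ _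
      · intro J _; simp
      · intro J hJ
        rw [Finset.mem_filter] at hJ
        rw [← hJ.2]
        exact Fin.snoc_init_self J
      · intro J _
        exact Fin.init_snoc (α := fun _ => Fin D) _ _
      · intro J _
        rfl
    refine ⟨s' ▷ M, Matrix.of fun J I => if J (Fin.last n) = I (Fin.last n) then
      A (Fin.init J) (Fin.init I) else 0, GA_lift hs', fun I => ?_, fun I => ?_⟩
    · rw [bs_succ]
      refine (mu_right R s _ _).trans ?_
      rw [h1, hsum]
      exact hre (fun J => A J (Fin.init I)) I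
    · rw [bs_succ]
      refine (mu_right R s' _ _).trans ?_
      rw [h2, hsum]
      have h4 := hre (fun J => A (Fin.init I) J) I
      rw [h4]
      refine Finset.sum_congr rfl fun J _ => ?_
      rw [Matrix.of_apply]
      congr 3
      exact propext ⟨fun h => h.symm, fun h => h.symm⟩

lemma TR_adjoin [CharZero K] (v : Module.Basis (Fin D) K (R.H.obj M)) (η : Fin D → Bool)
    (hv : ∀ i, (R.par M).hom (v i) = (if η i then (-1 : K) else 1) • v i) {n : ℕ}
    {z : tp M n ⟶ tp M n} (hz : (z : End (tp M n)) ∈ GA M n) : TR R (bs R v n) z := by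
  classical
  refine Algebra.adjoin_induction (p := fun (x : End (tp M n)) _ =>
    TR R (bs R v n) (x : tp M n ⟶ tp M n)) ?_ ?_ ?_ ?_ hz
  · intro x hx
    exact TR_swap R v η hv hx
  · intro q
    have h1 : (algebraMap ℚ (End (tp M n)) q : tp M n ⟶ tp M n) = q • 𝟙 _ := by
      rw [Algebra.algebraMap_eq_smul_one]
      rfl
    rw [h1]
    refine ⟨q • 𝟙 _, Matrix.of fun J I => if J = I then q else 0, ?_, fun I => ?_, fun I => ?_⟩
    · rw [← h1]
      exact (GA M n).algebraMap_mem q
    · rw [op_smul, Pool.Agent.R484.NC.op_id, Finset.sum_eq_single I]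
      · rw [Matrix.of_apply, if_pos rfl]; rfl
      · intro J _ hJ
        rw [Matrix.of_apply, if_neg hJ, Rat.cast_zero, zero_smul]
      · intro h
        exact absurd (Finset.mem_univ _) h
    · rw [op_smul, Pool.Agent.R484.NC.op_id, Finset.sum_eq_single I]
      · rw [Matrix.of_apply, if_pos rfl]; rfl
      · intro J _ hJ
        rw [Matrix.of_apply, if_neg (fun h => hJ h.symm), Rat.cast_zero, zero_smul]
      · intro h
        exact absurd (Finset.mem_univ _) h
  · rintro x y _ _ ⟨x', A, hx', a1, a2⟩ ⟨y', B, hy', b1, b2⟩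
    refine ⟨x' + y', A + B, (GA M n).add_mem hx' hy', fun I => ?_, fun I => ?_⟩
    · change op R ((x : tp M n ⟶ tp M n) + y) _ = _
      rw [Pool.Agent.R484.NC.op_add, LinearMap.add_apply, a1, b1, ← Finset.sum_add_distrib]
      refine Finset.sum_congr rfl fun J _ => ?_
      rw [Matrix.add_apply, Rat.cast_add, add_smul]
    · rw [Pool.Agent.R484.NC.op_add, LinearMap.add_apply, a2, b2, ← Finset.sum_add_distrib]
      refine Finset.sum_congr rfl fun J _ => ?_
      rw [Matrix.add_apply, Rat.cast_add, add_smul]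
  · rintro x y _ _ ⟨x', A, hx', a1, a2⟩ ⟨y', B, hy', b1, b2⟩
    refine ⟨x' ≫ y', A * B, GA_comp hx' hy', fun I => ?_, fun I => ?_⟩
    · change op R ((y : tp M n ⟶ tp M n) ≫ x) _ = _
      rw [Pool.Agent.R484.NC.op_comp, Module.End.mul_apply, b1, map_sum]
      simp only [map_smul, a1, Finset.smul_sum, smul_smul, Matrix.mul_apply, Rat.cast_sum,
        Rat.cast_mul, Finset.sum_smul]
      rw [Finset.sum_comm]
      refine Finset.sum_congr rfl fun J _ => Finset.sum_congr rfl fun L _ => ?_
      rw [mul_comm]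
    · rw [Pool.Agent.R484.NC.op_comp, Module.End.mul_apply, a2, map_sum]
      simp only [map_smul, b2, Finset.smul_sum, smul_smul, Matrix.mul_apply, Rat.cast_sum,
        Rat.cast_mul, Finset.sum_smul]
      rw [Finset.sum_comm]

/-- For an element `z` of the group algebra there is a transposed element `z'` such that `z` vanishes if `z ≫ z'` is
nilpotent. -/
theorem ga_transp {n : ℕ} (z : tp M n ⟶ tp M n) (hz : (z : End (tp M n)) ∈ GA M n) :
    ∃ z' : tp M n ⟶ tp M n, (z' : End (tp M n)) ∈ GA M n ∧
      (IsNilpotent (op R (z ≫ z')) → op R z = 0) := by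
  classical
  have hK := R_charZero R
  have hf := R.finite M
  have h0 := R.finite (tp M n)
  obtain ⟨v, η, hv⟩ := exists_basis (K := K) (V := R.H.obj M) two_ne_zero (R.par M).hom
    (fun x => by
      have h := congrArg (fun f => f.hom x) (R.par_sq M)
      exact h)
  obtain ⟨z', A, hz', h1, h2⟩ := TR_adjoin R v η hv hz
  refine ⟨z', hz', fun h3 => ?_⟩
  set b := bs R v n with hb
  have hm : LinearMap.toMatrix b b (op R z) = A.map (fun q : ℚ => (q : K)) := by
    ext J I
    rw [LinearMap.toMatrix_apply, h1, map_sum, Finsupp.finset_sum_apply, Finset.sum_eq_single J]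
    · rw [map_smul, Module.Basis.repr_self, Finsupp.smul_apply, Finsupp.single_eq_same,
        Matrix.map_apply, smul_eq_mul, mul_one]
    · intro L _ hL
      rw [map_smul, Module.Basis.repr_self, Finsupp.smul_apply, Finsupp.single_apply, if_neg hL,
        smul_zero]
    · intro h
      exact absurd (Finset.mem_univ _) h
  have hm' : LinearMap.toMatrix b b (op R z') = A.transpose.map (fun q : ℚ => (q : K)) := by
    ext J I
    rw [LinearMap.toMatrix_apply, h2, map_sum, Finsupp.finset_sum_apply, Finset.sum_eq_single J]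
    · rw [map_smul, Module.Basis.repr_self, Finsupp.smul_apply, Finsupp.single_eq_same,
        Matrix.map_apply, Matrix.transpose_apply, smul_eq_mul, mul_one]
    · intro L _ hL
      rw [map_smul, Module.Basis.repr_self, Finsupp.smul_apply, Finsupp.single_apply, if_neg hL,
        smul_zero]
    · intro h
      exact absurd (Finset.mem_univ _) h
  rw [Pool.Agent.R484.NC.op_comp] at h3
  have h4 : IsNilpotent (LinearMap.toMatrix b b (op R z' * op R z)) := by
    obtain ⟨k, hk⟩ := h3
    exact ⟨k, by rw [LinearMap.toMatrix_pow, hk, map_zero]⟩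
  have h5 := (Matrix.isNilpotent_trace_of_isNilpotent h4).eq_zero
  rw [LinearMap.toMatrix_mul, hm, hm'] at h5
  have h6 : ((∑ i, ∑ j, A j i * A j i : ℚ) : K) = 0 := by
    rw [← h5, Matrix.trace]
    push_cast
    refine Finset.sum_congr rfl fun i _ => ?_
    rw [Matrix.diag_apply, Matrix.mul_apply]
    rfl
  have h7 : (∑ i, ∑ j, A j i * A j i : ℚ) = 0 := by exact_mod_cast h6
  have h8 : A = 0 := by
    ext j i
    have h9 := (Finset.sum_eq_zero_iff_of_nonneg (fun i _ =>
      Finset.sum_nonneg fun j _ => mul_self_nonneg (A j i))).1 h7 i (Finset.mem_univ i)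
    have h10 := (Finset.sum_eq_zero_iff_of_nonneg (fun j _ => mul_self_nonneg (A j i))).1 h9 j
      (Finset.mem_univ j)
    exact mul_self_eq_zero.1 h10
  apply b.ext
  intro I
  rw [h1, LinearMap.zero_apply]
  apply Finset.sum_eq_zero
  intro J _
  rw [h8, Matrix.zero_apply, Rat.cast_zero, zero_smul]

/-- A numerically trivial element of the group algebra vanishes if the numerically trivial endomorphisms are nilpotent. -/
theorem ga_zero {hU : UnitQ C} {n : ℕ}
    (hnil : ∀ f : tp M n ⟶ tp M n, NumZero hU f → IsNilpotent (op R f)) (z : tp M n ⟶ tp M n)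
    (hz : (z : End (tp M n)) ∈ GA M n) (hz0 : NumZero hU z) : op R z = 0 := by
  obtain ⟨z', -, h⟩ := ga_transp R z hz
  exact h (hnil _ (NumZero.comp_right R hU hz0 z'))

end

end Pool.Agent.H64NC
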