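import Pool.Agent.H64NC.Stm

/-! Piece COUNT: signed permutation matrices of the places of tensors span a big space. -/

set_option autoImplicit false

open Finset Module

namespace Pool.Agent.H64NC

namespace Count

theorem real_ineq {G : Type} [Fintype G] {r : ℕ} (x : G → Fin r → ℝ) :
    (∑ σ, ∑ i, x σ i ^ 2) ^ 2 ≤ r * ∑ σ, ∑ τ, (∑ i, x σ i * x τ i) ^ 2 := by
  let S : Fin r → Fin r → ℝ := fun i j => ∑ σ, x σ i * x σ j
  have h1 : ∑ σ, ∑ i, x σ i ^ 2 = ∑ i, S i i := by
    rw [sum_comm]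
    refine sum_congr rfl fun i _ => sum_congr rfl fun σ _ => ?_
    ring
  have h2 : ∑ σ, ∑ τ, (∑ i, x σ i * x τ i) ^ 2 = ∑ i, ∑ j, S i j ^ 2 := by
    have e1 : ∀ σ τ, (∑ i, x σ i * x τ i) ^ 2 =
        ∑ i, ∑ j, (x σ i * x σ j) * (x τ i * x τ j) := by
      intro σ τ
      rw [sq, sum_mul_sum]
      refine sum_congr rfl fun i _ => sum_congr rfl fun j _ => ?_
      ring
    have e2 : ∀ i j, S i j ^ 2 = ∑ σ, ∑ τ, (x σ i * x σ j) * (x τ i * x τ j) := by
      intro i j
      rw [sq, sum_mul_sum]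
    simp only [e1, e2]
    calc ∑ σ, ∑ τ, ∑ i, ∑ j, (x σ i * x σ j) * (x τ i * x τ j)
        = ∑ σ, ∑ i, ∑ τ, ∑ j, (x σ i * x σ j) * (x τ i * x τ j) :=
          sum_congr rfl fun σ _ => sum_comm
      _ = ∑ i, ∑ σ, ∑ τ, ∑ j, (x σ i * x σ j) * (x τ i * x τ j) := sum_comm
      _ = ∑ i, ∑ σ, ∑ j, ∑ τ, (x σ i * x σ j) * (x τ i * x τ j) :=
          sum_congr rfl fun i _ => sum_congr rfl fun σ _ => sum_comm
      _ = ∑ i, ∑ j, ∑ σ, ∑ τ, (x σ i * x σ j) * (x τ i * x τ j) :=
          sum_congr rfl fun i _ => sum_comm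
  rw [h1, h2]
  calc (∑ i, S i i) ^ 2 ≤ (#(univ : Finset (Fin r)) : ℝ) * ∑ i, S i i ^ 2 :=
        sq_sum_le_card_mul_sum_sq
    _ = r * ∑ i, S i i ^ 2 := by rw [card_univ, Fintype.card_fin]
    _ ≤ r * ∑ i, ∑ j, S i j ^ 2 := by
        refine mul_le_mul_of_nonneg_left (sum_le_sum fun i _ => ?_) (by positivity)
        exact single_le_sum (f := fun j => S i j ^ 2) (fun j _ => sq_nonneg _) (mem_univ i)

/-- the number of arguments with a given value -/
def ct {n : ℕ} {α : Type} [DecidableEq α] (L : Fin n → α) (a : α) : Fin (n + 1) :=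
  ⟨#{x | L x = a}, by
    have := card_filter_le (univ : Finset (Fin n)) fun x => L x = a
    rw [card_univ, Fintype.card_fin] at this
    omega⟩

theorem exists_perm {n : ℕ} {α : Type} [DecidableEq α] (L L' : Fin n → α) (h : ct L = ct L') :
    ∃ π : Equiv.Perm (Fin n), L' ∘ π = L := by
  have e : ∀ c, Nonempty ({a // L a = c} ≃ {b // L' b = c}) := by
    intro c
    refine ⟨Fintype.equivOfCardEq ?_⟩
    rw [Fintype.card_subtype, Fintype.card_subtype]
    have := congrArg Fin.val (congrFun h c)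
    exact this
  refine ⟨Equiv.ofFiberEquiv fun c => (e c).some, ?_⟩
  funext a
  exact Equiv.ofFiberEquiv_map (fun c => (e c).some) a

theorem count {n : ℕ} {α : Type} [Fintype α] [DecidableEq α] (τ : Equiv.Perm (Fin n)) :
    ∑ σ : Equiv.Perm (Fin n), #{L : Fin n → α | L ∘ σ = L ∘ τ} ≤
      n.factorial * (n + 1) ^ Fintype.card α := by
  classical
  rcases isEmpty_or_nonempty (Fin n → α) with hE | hE
  · have : ∑ σ : Equiv.Perm (Fin n), #{L : Fin n → α | L ∘ σ = L ∘ τ} = 0 :=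
      sum_eq_zero fun σ _ => by
        rw [card_eq_zero]
        exact Finset.eq_empty_of_isEmpty _
    rw [this]
    exact Nat.zero_le _
  · let f : (α → Fin (n + 1)) → (Fin n → α) := Function.invFun ct
    have hf : ∀ L : Fin n → α, ct (f (ct L)) = ct L := fun L => Function.invFun_eq ⟨L, rfl⟩
    have hπ : ∀ L : Fin n → α, ∃ π : Equiv.Perm (Fin n), f (ct L) ∘ π = L := fun L =>
      exists_perm L (f (ct L)) (hf L).symm
    choose π hπ using hπ
    have h1 : ∑ σ : Equiv.Perm (Fin n), #{L : Fin n → α | L ∘ σ = L ∘ τ} =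
        #{p : Equiv.Perm (Fin n) × (Fin n → α) | p.2 ∘ p.1 = p.2 ∘ τ} := by
      rw [card_filter, Fintype.sum_prod_type]
      exact sum_congr rfl fun σ _ => card_filter _ _
    have h2 : Fintype.card (Equiv.Perm (Fin n) × (α → Fin (n + 1))) =
        n.factorial * (n + 1) ^ Fintype.card α := by
      rw [Fintype.card_prod, Fintype.card_perm, Fintype.card_fun, Fintype.card_fin,
        Fintype.card_fin]
    rw [h1, ← h2, ← card_univ]
    refine card_le_card_of_injOn (fun p => (π p.2 * p.1 * τ⁻¹, ct p.2)) (fun _ _ => mem_univ _) ?_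
    have key : ∀ p : Equiv.Perm (Fin n) × (Fin n → α), p.2 ∘ p.1 = p.2 ∘ τ →
        p.2 = f (ct p.2) ∘ ⇑(π p.2 * p.1 * τ⁻¹) := by
      intro p hp
      funext x
      have e1 := congrFun (hπ p.2) (p.1 (τ⁻¹ x))
      have e2 := congrFun hp (τ⁻¹ x)
      simp only [Function.comp_apply, Equiv.Perm.mul_apply] at e1 e2 ⊢
      rw [e1, e2]
      exact congrArg p.2 (τ.apply_symm_apply x).symm
    rintro ⟨σ, L⟩ hp ⟨σ', L'⟩ hp' h
    simp only [coe_filter, mem_univ, true_and, Set.mem_ofPred_eq] at hp hp'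
    simp only [Prod.mk.injEq] at h
    have k1 := key (σ, L) hp
    have k2 := key (σ', L') hp'
    simp only at k1 k2
    rw [h.1, h.2, ← k2] at k1
    subst k1
    have h3 := h.1
    rw [mul_left_inj, mul_right_inj] at h3
    rw [h3]

theorem count_sq {n D : ℕ} (σ τ : Equiv.Perm (Fin n)) :
    #{I : Fin n → Fin D | I ∘ σ = I ∘ τ} ^ 2 ≤
      #{L : Fin n → Fin D × Fin D | L ∘ σ = L ∘ τ} := by
  rw [sq, ← card_product]
  refine card_le_card_of_injOn (fun p => fun x => (p.1 x, p.2 x)) ?_ ?_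
  · rintro ⟨I, I'⟩ h
    simp only [coe_product, coe_filter, mem_univ, true_and, Set.mem_prod, Set.mem_ofPred_eq] at h ⊢
    funext x
    exact Prod.ext (congrFun h.1 x) (congrFun h.2 x)
  · rintro ⟨I, I'⟩ _ ⟨J, J'⟩ _ h
    refine Prod.ext (funext fun x => ?_) (funext fun x => ?_)
    · exact congrArg Prod.fst (congrFun h x)
    · exact congrArg Prod.snd (congrFun h x)

section

variable {n D : ℕ} (ε : Equiv.Perm (Fin n) → (Fin n → Fin D) → ℚ)

/-- the real vector of a signed permutation matrix -/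
noncomputable def vec (σ : Equiv.Perm (Fin n)) :
    EuclideanSpace ℝ ((Fin n → Fin D) × (Fin n → Fin D)) :=
  WithLp.toLp 2 fun p => ((sgm σ (ε σ) p.1 p.2 : ℚ) : ℝ)

theorem inner_vec (σ τ : Equiv.Perm (Fin n)) :
    inner ℝ (vec ε σ) (vec ε τ) =
      ∑ I : Fin n → Fin D, (if I ∘ σ = I ∘ τ then ((ε σ I * ε τ I : ℚ) : ℝ) else 0) := by
  rw [PiLp.inner_apply, Fintype.sum_prod_type_right]
  refine sum_congr rfl fun I _ => ?_
  simp only [vec, sgm, Matrix.of_apply, RCLike.inner_apply, conj_trivial]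
  rw [sum_eq_single (I ∘ σ)]
  · rw [if_pos rfl]
    by_cases h : I ∘ σ = I ∘ τ
    · rw [if_pos h, if_pos h]
      push_cast
      ring
    · rw [if_neg h, if_neg h]
      simp
  · intro J _ hJ
    rw [if_neg hJ]
    simp
  · intro h
    exact absurd (mem_univ _) h

end

end Count

open Pool.Agent.H64NC.Count in
theorem t_COUNT : S_COUNT := by
  classical
  intro n D ε hε
  obtain ⟨κ, a, ha, hspan, hli⟩ := exists_linearIndependent' ℚ (fun σ => sgm σ (ε σ))
  have : Finite κ := Finite.of_injective a ha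
  have : Fintype κ := Fintype.ofFinite κ
  let e := Fintype.equivFin κ
  let r := Fintype.card κ
  let g : Fin r → Equiv.Perm (Fin n) := fun i => a (e.symm i)
  refine ⟨r, g, hli.comp e.symm e.symm.injective, ?_⟩
  -- the real span
  let W : Submodule ℝ (EuclideanSpace ℝ ((Fin n → Fin D) × (Fin n → Fin D))) :=
    Submodule.span ℝ (Set.range (vec ε))
  have hW : finrank ℝ W ≤ r := by
    have h1 : W ≤ Submodule.span ℝ (Set.range fun k => vec ε (a k)) := by
      refine Submodule.span_le.2 ?_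
      rintro _ ⟨σ, rfl⟩
      have h2 : sgm σ (ε σ) ∈ Submodule.span ℚ (Set.range ((fun σ => sgm σ (ε σ)) ∘ a)) := by
        rw [hspan]
        exact Submodule.subset_span ⟨σ, rfl⟩
      obtain ⟨c, hc⟩ := (Submodule.mem_span_range_iff_exists_fun ℚ).1 h2
      refine (Submodule.mem_span_range_iff_exists_fun ℝ).2 ⟨fun k => (c k : ℝ), ?_⟩
      ext p
      rw [WithLp.ofLp_sum, Finset.sum_apply]
      simp only [vec, PiLp.smul_apply, smul_eq_mul]
      rw [← hc, Matrix.sum_apply]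
      push_cast
      refine sum_congr rfl fun k _ => ?_
      simp [Matrix.smul_apply]
    exact (Submodule.finrank_mono h1).trans (finrank_range_le_card fun k => vec ε (a k))
  let b := stdOrthonormalBasis ℝ W
  let u : Equiv.Perm (Fin n) → W := fun σ => ⟨vec ε σ, Submodule.subset_span ⟨σ, rfl⟩⟩
  let x : Equiv.Perm (Fin n) → Fin (finrank ℝ W) → ℝ := fun σ i => inner ℝ (b i) (u σ)
  have hx : ∀ σ τ, ∑ i, x σ i * x τ i = inner ℝ (vec ε σ) (vec ε τ) := by
    intro σ τ
    have h1 := b.sum_inner_mul_inner (u σ) (u τ)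
    rw [Submodule.coe_inner] at h1
    rw [← h1]
    refine sum_congr rfl fun i _ => ?_
    simp only [x]
    rw [real_inner_comm (b i) (u σ)]
  have h1 := real_ineq x
  have h2 : ∑ σ, ∑ i, x σ i ^ 2 = (n.factorial * D ^ n : ℕ) := by
    have h3 : ∀ σ, ∑ i, x σ i ^ 2 = (D ^ n : ℕ) := by
      intro σ
      have h4 := hx σ σ
      rw [inner_vec] at h4
      simp only [if_true] at h4
      have h5 : ∀ I, ((ε σ I * ε σ I : ℚ) : ℝ) = 1 := by
        intro I
        rcases hε σ I with h | h <;> rw [h] <;> norm_num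
      simp only [h5] at h4
      rw [sum_const, card_univ, Fintype.card_fun, Fintype.card_fin, Fintype.card_fin] at h4
      simp only [sq]
      rw [h4]
      simp
    simp only [h3]
    rw [sum_const, card_univ, Fintype.card_perm, Fintype.card_fin]
    simp
  have h3 : ∑ σ, ∑ τ, (∑ i, x σ i * x τ i) ^ 2 ≤
      ((n.factorial * (n.factorial * (n + 1) ^ (D ^ 2)) : ℕ) : ℝ) := by
    have h4 : ∀ σ τ, (∑ i, x σ i * x τ i) ^ 2 ≤
        ((#{L : Fin n → Fin D × Fin D | L ∘ σ = L ∘ τ} : ℕ) : ℝ) := by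
      intro σ τ
      have h5 : |∑ i, x σ i * x τ i| ≤ ((#{I : Fin n → Fin D | I ∘ σ = I ∘ τ} : ℕ) : ℝ) := by
        rw [hx, inner_vec]
        refine (abs_sum_le_sum_abs _ _).trans ?_
        rw [card_filter]
        push_cast
        refine sum_le_sum fun I _ => ?_
        by_cases h : I ∘ σ = I ∘ τ
        · rw [if_pos h, if_pos h]
          rcases hε σ I with h6 | h6 <;> rcases hε τ I with h7 | h7 <;> rw [h6, h7] <;> norm_num
        · rw [if_neg h, if_neg h, abs_zero]
      have h6 := count_sq (n := n) (D := D) σ τ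
      calc (∑ i, x σ i * x τ i) ^ 2 = |∑ i, x σ i * x τ i| ^ 2 := (sq_abs _).symm
        _ ≤ ((#{I : Fin n → Fin D | I ∘ σ = I ∘ τ} : ℕ) : ℝ) ^ 2 := by gcongr
        _ ≤ _ := by exact_mod_cast h6
    have h5 : ∀ τ, ∑ σ, (∑ i, x σ i * x τ i) ^ 2 ≤
        ((n.factorial * (n + 1) ^ (D ^ 2) : ℕ) : ℝ) := by
      intro τ
      refine (sum_le_sum fun σ _ => h4 σ τ).trans ?_
      have h6 := count (α := Fin D × Fin D) τ
      rw [Fintype.card_prod, Fintype.card_fin, ← sq] at h6
      exact_mod_cast h6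
    rw [sum_comm]
    refine (sum_le_sum fun τ _ => h5 τ).trans ?_
    rw [sum_const, card_univ, Fintype.card_perm, Fintype.card_fin, nsmul_eq_mul]
    push_cast
    exact le_rfl
  rw [h2] at h1
  have h4 : (((n.factorial * D ^ n) ^ 2 : ℕ) : ℝ) ≤
      ((r * (n.factorial * (n.factorial * (n + 1) ^ (D ^ 2))) : ℕ) : ℝ) := by
    calc (((n.factorial * D ^ n) ^ 2 : ℕ) : ℝ) = ((n.factorial * D ^ n : ℕ) : ℝ) ^ 2 := by
          push_cast
          ring
      _ ≤ (finrank ℝ W : ℝ) * ∑ σ, ∑ τ, (∑ i, x σ i * x τ i) ^ 2 := h1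
      _ ≤ (r : ℝ) * ((n.factorial * (n.factorial * (n + 1) ^ (D ^ 2)) : ℕ) : ℝ) := by
          refine mul_le_mul (by exact_mod_cast hW) h3 ?_ (by positivity)
          exact sum_nonneg fun _ _ => sum_nonneg fun _ _ => sq_nonneg _
      _ = _ := by
          push_cast
          ring
  have h5 : (n.factorial * D ^ n) ^ 2 ≤
      r * (n.factorial * (n.factorial * (n + 1) ^ (D ^ 2))) := by exact_mod_cast h4
  have h6 : 0 < n.factorial * n.factorial := Nat.mul_pos n.factorial_pos n.factorial_pos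
  refine Nat.le_of_mul_le_mul_left ?_ h6
  calc n.factorial * n.factorial * D ^ (2 * n) = (n.factorial * D ^ n) ^ 2 := by ring
    _ ≤ _ := h5
    _ = n.factorial * n.factorial * (r * (n + 1) ^ (D ^ 2)) := by ring

end Pool.Agent.H64NC
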