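import Pool.Agent.H64NC.Stm
import Pool.Agent.H578R3.SgnLin

/-!
# Project NCA (helper64): piece CUT
-/

set_option autoImplicit false

namespace Pool.Agent.H64NC

universe w

section

variable {K : Type w} [Field K] {V : Type w} [AddCommGroup V] [Module K V]

/-- The supertrace of a product. -/
lemma str_mul_comm {p a b : Module.End K V} (ha : Commute a p) :
    LinearMap.trace K V ((p - (1 - p)) * (a * b)) = LinearMap.trace K V ((p - (1 - p)) * (b * a)) := by
  have h' : Commute a (p - (1 - p)) := ha.sub_right ((Commute.one_right _).sub_right ha)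
  rw [← mul_assoc, ← h'.eq, mul_assoc, LinearMap.trace_mul_comm, mul_assoc]

variable [CharZero K] [Module.Finite K V]

/-- The upper bound. -/
lemma cut_aux (p c z : Module.End K V) (A : Set (Module.End K V)) (hp : p * p = p)
    (hc : c * c = c) (hA : ∀ x ∈ A, Commute x p) (h1 : (1 : Module.End K V) ∈ A) (hcA : c ∈ A)
    (hzA : z ∈ A) (hmul : ∀ x ∈ A, ∀ y ∈ A, x * y ∈ A)
    (hJc : ∀ y ∈ A, LinearMap.trace K V ((p - (1 - p)) * ((c - 1) * y)) = 0)
    (hJz : ∀ y ∈ A, LinearMap.trace K V ((p - (1 - p)) * ((z * z - z) * y)) = 0)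
    (N : ℕ) (hN : LinearMap.trace K V c = N) :
    ∃ j : ℕ, LinearMap.trace K V ((p - (1 - p)) * (z - (1 - z))) = (N : K) - 2 * j := by
  have hcp := hA c hcA
  have hzp := hA z hzA
  have h1c : Commute (1 - c) p := (Commute.one_left p).sub_left hcp
  -- traces of powers of `c z c`
  have hpowA : ∀ n : ℕ, (c * z * c) ^ n ∈ A := by
    intro n
    induction n with
    | zero => rw [pow_zero]; exact h1
    | succ n ih => rw [pow_succ]; exact hmul _ ih _ (hmul _ (hmul _ hcA _ hzA) _ hcA)
  have hzpow : ∀ n : ℕ, z ^ n ∈ A := by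
    intro n
    induction n with
    | zero => rw [pow_zero]; exact h1
    | succ n ih => rw [pow_succ]; exact hmul _ ih _ hzA
  have hrc : ∀ a ∈ A, ∀ b ∈ A, LinearMap.trace K V ((p - (1 - p)) * (a * c * b)) =
      LinearMap.trace K V ((p - (1 - p)) * (a * b)) := by
    intro a ha b hb
    have h2 := hJc (b * a) (hmul _ hb _ ha)
    have h3 : (c - 1) * (b * a) = c * b * a - b * a := by noncomm_ring
    rw [h3, mul_sub, map_sub, sub_eq_zero] at h2
    rw [mul_assoc a, str_mul_comm (hA a ha), h2, str_mul_comm (hA b hb)]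
  have hrz : ∀ a ∈ A, ∀ b ∈ A, LinearMap.trace K V ((p - (1 - p)) * (a * (z * z) * b)) =
      LinearMap.trace K V ((p - (1 - p)) * (a * z * b)) := by
    intro a ha b hb
    have h2 := hJz (b * a) (hmul _ hb _ ha)
    have h3 : (z * z - z) * (b * a) = (z * z * b) * a - (z * b) * a := by noncomm_ring
    rw [h3, mul_sub, map_sub, sub_eq_zero] at h2
    have e1 : a * (z * z) * b = a * (z * z * b) := by noncomm_ring
    have e2 : a * z * b = a * (z * b) := by noncomm_ring
    rw [e1, e2, str_mul_comm (hA a ha), h2, str_mul_comm (hA a ha)]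
  have hpw : ∀ n : ℕ, ∀ b ∈ A, LinearMap.trace K V ((p - (1 - p)) * ((c * z * c) ^ n * b)) =
      LinearMap.trace K V ((p - (1 - p)) * (z ^ n * b)) := by
    intro n
    induction n with
    | zero => intro b _; rw [pow_zero, pow_zero]
    | succ n ih =>
      intro b hb
      have e1 : (c * z * c) ^ (n + 1) * b = (c * z * c) ^ n * (c * z * c * b) := by
        rw [pow_succ]; noncomm_ring
      have e2 : z ^ (n + 1) * b = z ^ n * (z * b) := by rw [pow_succ, mul_assoc]
      rw [e1, ih _ (hmul _ (hmul _ (hmul _ hcA _ hzA) _ hcA) _ hb), e2]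
      have e3 : z ^ n * (c * z * c * b) = (z ^ n) * c * (z * c * b) := by noncomm_ring
      have e4 : z ^ n * (z * c * b) = (z ^ n * z) * c * b := by noncomm_ring
      rw [e3, hrc _ (hzpow n) _ (hmul _ (hmul _ hzA _ hcA) _ hb), e4,
        hrc _ (hmul _ (hzpow n) _ hzA) _ hb, mul_assoc (z ^ n)]
  have hzst : ∀ n : ℕ, LinearMap.trace K V ((p - (1 - p)) * z ^ (n + 1)) =
      LinearMap.trace K V ((p - (1 - p)) * z) := by
    intro n
    induction n with
    | zero => rw [zero_add, pow_one]
    | succ n ih =>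
      rw [← ih]
      have h2 := hrz (z ^ n) (hzpow n) 1 h1
      rw [mul_one, mul_one] at h2
      have e1 : z ^ (n + 1 + 1) = z ^ n * (z * z) := by rw [pow_succ, pow_succ, mul_assoc]
      rw [e1, h2, pow_succ]
  -- the numbers
  have i1 : ((1 - c) * p) * ((1 - c) * p) = (1 - c) * p := by
    calc ((1 - c) * p) * ((1 - c) * p) = (1 - c) * (p * (1 - c)) * p := by simp only [mul_assoc]
      _ = ((1 - c) * (1 - c)) * (p * p) := by rw [← h1c.eq]; simp only [mul_assoc]
      _ = (1 - c) * p := by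
        have h2 : (1 - c) * (1 - c) = 1 - c := by rw [mul_sub, sub_mul, sub_mul, hc]; simp
        rw [hp, h2]
  have t1 := Pool.Agent.H914.trace_idem i1
  set r₀ := Module.finrank K (LinearMap.range ((1 - c) * p)) with hr₀
  have hst1 : LinearMap.trace K V ((p - (1 - p)) * (1 - c)) = 0 := by
    have h2 := hJc 1 h1
    have h3 : (p - (1 - p)) * (1 - c) = -((p - (1 - p)) * ((c - 1) * 1)) := by noncomm_ring
    rw [h3, map_neg, h2, neg_zero]
  have t2 : LinearMap.trace K V (1 - c) = 2 * r₀ := by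
    have h2 : (1 - c) = (2 : K) • ((1 - c) * p) - (p - (1 - p)) * (1 - c) := by
      have h3 : (p - (1 - p)) * (1 - c) = (1 - c) * p + (1 - c) * p - (1 - c) := by
        have h4 : p * (1 - c) = (1 - c) * p := h1c.eq.symm
        calc (p - (1 - p)) * (1 - c) = p * (1 - c) + p * (1 - c) - (1 - c) := by noncomm_ring
          _ = _ := by rw [h4]
      rw [h3, two_smul]
      abel
    rw [h2, map_sub, hst1, map_smul, t1, sub_zero, smul_eq_mul]
  -- the operator
  set T := c * z * c + (1 - c) * p with hT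
  have hczp : Commute (c * z * c) p := (hcp.mul_left hzp).mul_left hcp
  have hTp : Commute T p := hczp.add_left (h1c.mul_left (Commute.refl p))
  have hc1 : c * (1 - c) = 0 := by rw [mul_sub, mul_one, hc, sub_self]
  have h1c0 : (1 - c) * c = 0 := by rw [sub_mul, one_mul, hc, sub_self]
  have hx1 : (c * z * c) * ((1 - c) * p) = 0 := by
    calc (c * z * c) * ((1 - c) * p) = c * z * (c * (1 - c)) * p := by simp only [mul_assoc]
      _ = 0 := by rw [hc1, mul_zero, zero_mul]
  have hx2 : ((1 - c) * p) * (c * z * c) = 0 := by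
    calc ((1 - c) * p) * (c * z * c) = ((1 - c) * (p * c)) * (z * c) := by simp only [mul_assoc]
      _ = ((1 - c) * c) * p * (z * c) := by rw [← hcp.eq]; simp only [mul_assoc]
      _ = 0 := by rw [h1c0, zero_mul, zero_mul]
  have hTpow : ∀ n : ℕ, T ^ (n + 1) = (c * z * c) ^ (n + 1) + (1 - c) * p := by
    intro n
    induction n with
    | zero => rw [zero_add, pow_one, pow_one]
    | succ n ih =>
      have e1 : (c * z * c) ^ (n + 1) * ((1 - c) * p) = 0 := by
        rw [pow_succ, mul_assoc, hx1, mul_zero]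
      rw [pow_succ, ih, hT, add_mul, mul_add, mul_add, e1, hx2, i1, add_zero, zero_add, ← pow_succ]
  have hsp : LinearMap.trace K V ((p - (1 - p)) * ((1 - c) * p)) = r₀ := by
    rw [← t1]
    congr 1
    calc (p - (1 - p)) * ((1 - c) * p) = p * (1 - c) * p + p * (1 - c) * p - (1 - c) * p := by
          noncomm_ring
      _ = (1 - c) * p := by
        have h4 : p * (1 - c) = (1 - c) * p := h1c.eq.symm
        rw [h4, mul_assoc, hp]
        abel
  have hTst : ∀ n : ℕ, LinearMap.trace K V ((p - (1 - p)) * T ^ (n + 1)) =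
      LinearMap.trace K V ((p - (1 - p)) * z) + r₀ := by
    intro n
    have h2 := hpw (n + 1) 1 h1
    rw [mul_one, mul_one] at h2
    rw [hTpow, mul_add, map_add, h2, hzst, hsp]
  obtain ⟨a, b, k, hd, hpc, -⟩ := Pool.Agent.H578R3.Sgn.main hp hTp hTst
  refine ⟨b + k, ?_⟩
  have e1 : (p - (1 - p)) * (z - (1 - z)) = (p - (1 - p)) * z + (p - (1 - p)) * z - (p + p) + 1 := by
    noncomm_ring
  have e2 : LinearMap.trace K V (1 : Module.End K V) = (N : K) + 2 * r₀ := by
    rw [← hN, ← t2, ← map_add]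
    congr 1
    abel
  have e3 : LinearMap.trace K V ((p - (1 - p)) * z) = (a : K) - b - r₀ := by
    rw [← hd]; ring
  rw [e1, map_add, map_sub, map_add, map_add, e2, e3, hpc]
  push_cast
  ring

end

/-- **Piece CUT.** -/
theorem t_CUT : S_CUT.{w} := by
  intro K _ _ V _ _ _ p c z A hp hc hA h1 hcA hzA hmul hsub hJc hJz N hN
  obtain ⟨j, hj⟩ := cut_aux p c z A hp hc hA h1 hcA hzA hmul hJc hJz N hN
  have hz' : (1 - z) ∈ A := hsub _ h1 _ hzA
  obtain ⟨j', hj'⟩ := cut_aux p c (1 - z) A hp hc hA h1 hcA hz' hmul hJc (by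
    intro y hy
    have h2 : (1 - z) * (1 - z) - (1 - z) = z * z - z := by noncomm_ring
    rw [h2]
    exact hJz y hy) N hN
  have h3 : (p - (1 - p)) * ((1 - z) - (1 - (1 - z))) = -((p - (1 - p)) * (z - (1 - z))) := by
    noncomm_ring
  rw [h3, map_neg, hj] at hj'
  have h4 : (N : K) = j + j' := by
    have h5 : (2 : K) ≠ 0 := two_ne_zero
    have h6 : (2 : K) * N = 2 * (j + j') := by linear_combination -hj'
    exact mul_left_cancel₀ h5 h6
  have h5 : N = j + j' := by exact_mod_cast h4
  refine ⟨(N : ℤ) - 2 * j, ?_, ?_⟩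
  · rw [hj]; push_cast; rfl
  · rw [abs_le]
    constructor <;> omega

end Pool.Agent.H64NC
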