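import Mathlib

/-!
# Project NCA (helper64): limits
-/

set_option autoImplicit false

open Filter Topology

namespace Pool.Agent.H64NC

/-- Polynomial errors disappear in the limit of the roots. -/
theorem lim_root {ρ : ℕ → ℕ} {D : ℕ} (h1 : ∀ n, ρ n ≤ D ^ n)
    (h2 : ∀ n, D ^ (2 * n) ≤ (ρ n) ^ 2 * (n + 1) ^ (D ^ 2)) :
    Tendsto (fun n : ℕ => (ρ n : ℝ) ^ ((1 : ℝ) / n)) atTop (𝓝 (D : ℝ)) := by
  have hup : ∀ n : ℕ, 1 ≤ n → (ρ n : ℝ) ^ ((1 : ℝ) / n) ≤ D := by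
    intro n hn
    have hn0 : (n : ℝ) ≠ 0 := by positivity
    calc (ρ n : ℝ) ^ ((1 : ℝ) / n) ≤ ((D : ℝ) ^ n) ^ ((1 : ℝ) / n) := by
          apply Real.rpow_le_rpow (by positivity) _ (by positivity)
          exact_mod_cast h1 n
      _ = D := by
          rw [← Real.rpow_natCast, ← Real.rpow_mul (by positivity), mul_one_div_cancel hn0,
            Real.rpow_one]
  have hlow : ∀ n : ℕ, 1 ≤ n →
      (D : ℝ) * (((n : ℝ) + 1) ^ (((D : ℝ) ^ 2 / 2) / (1 * ((n : ℝ) + 1) + (-1))))⁻¹ ≤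
        (ρ n : ℝ) ^ ((1 : ℝ) / n) := by
    intro n hn
    have hn0 : (n : ℝ) ≠ 0 := by positivity
    have hnp : (0 : ℝ) < n := by positivity
    have e1 : (1 * ((n : ℝ) + 1) + (-1)) = n := by ring
    rw [e1]
    have hpos : (0 : ℝ) < ((n : ℝ) + 1) ^ (((D : ℝ) ^ 2 / 2) / (n : ℝ)) := by positivity
    rw [← div_eq_mul_inv, div_le_iff₀ hpos]
    have h3 : ((D : ℝ) ^ (2 * n)) ≤ (ρ n : ℝ) ^ 2 * ((n : ℝ) + 1) ^ (D ^ 2) := by
      exact_mod_cast h2 n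
    have h4 : (((D : ℝ) ^ (2 * n))) ^ ((1 : ℝ) / (2 * n)) ≤
        ((ρ n : ℝ) ^ 2 * ((n : ℝ) + 1) ^ (D ^ 2)) ^ ((1 : ℝ) / (2 * n)) :=
      Real.rpow_le_rpow (by positivity) h3 (by positivity)
    have e2 : (((D : ℝ) ^ (2 * n))) ^ ((1 : ℝ) / (2 * n)) = D := by
      rw [← Real.rpow_natCast, ← Real.rpow_mul (by positivity)]
      push_cast
      rw [mul_one_div_cancel (by positivity), Real.rpow_one]
    have e3 : ((ρ n : ℝ) ^ 2 * ((n : ℝ) + 1) ^ (D ^ 2)) ^ ((1 : ℝ) / (2 * n)) =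
        (ρ n : ℝ) ^ ((1 : ℝ) / n) * ((n : ℝ) + 1) ^ (((D : ℝ) ^ 2 / 2) / (n : ℝ)) := by
      rw [Real.mul_rpow (by positivity) (by positivity)]
      congr 1
      · rw [← Real.rpow_natCast, ← Real.rpow_mul (by positivity)]
        congr 1
        push_cast
        field_simp
      · rw [← Real.rpow_natCast, ← Real.rpow_mul (by positivity)]
        congr 1
        push_cast
        field_simp
    rw [e2, e3] at h4
    exact h4
  have hlim : Tendsto (fun n : ℕ => (D : ℝ) *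
      (((n : ℝ) + 1) ^ (((D : ℝ) ^ 2 / 2) / (1 * ((n : ℝ) + 1) + (-1))))⁻¹) atTop (𝓝 (D : ℝ)) := by
    have h3 := tendsto_rpow_div_mul_add ((D : ℝ) ^ 2 / 2) 1 (-1) (by norm_num)
    have h4 : Tendsto (fun n : ℕ => (n : ℝ) + 1) atTop atTop :=
      tendsto_atTop_add_const_right _ _ tendsto_natCast_atTop_atTop
    have h5 := (h3.comp h4).inv₀ one_ne_zero
    have h6 := h5.const_mul (D : ℝ)
    rw [inv_one, mul_one] at h6
    exact h6
  refine tendsto_of_tendsto_of_tendsto_of_le_of_le' hlim tendsto_const_nhds ?_ ?_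
  · filter_upwards [eventually_ge_atTop 1] with n hn using hlow n hn
  · filter_upwards [eventually_ge_atTop 1] with n hn using hup n hn

/-- From the limit of the roots to lower bounds. -/
theorem low_of_lim {ρ : ℕ → ℕ} {D : ℕ}
    (h : Tendsto (fun n : ℕ => (ρ n : ℝ) ^ ((1 : ℝ) / n)) atTop (𝓝 (D : ℝ))) (x : ℝ) (hx0 : 0 ≤ x)
    (hx : x < D) : ∃ n : ℕ, 1 ≤ n ∧ x ^ n ≤ ρ n := by
  have h1 : ∀ᶠ n : ℕ in atTop, x < (ρ n : ℝ) ^ ((1 : ℝ) / n) := h.eventually_const_lt hx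
  obtain ⟨n, hn, hn1⟩ := (h1.and (eventually_ge_atTop 1)).exists
  refine ⟨n, hn1, ?_⟩
  have hn0 : (n : ℝ) ≠ 0 := by positivity
  calc x ^ n ≤ ((ρ n : ℝ) ^ ((1 : ℝ) / n)) ^ n := pow_le_pow_left₀ hx0 hn.le n
    _ = ρ n := by
      rw [← Real.rpow_natCast, ← Real.rpow_mul (by positivity), one_div_mul_cancel hn0,
        Real.rpow_one]

/-- A number slightly smaller than `D`. -/
theorem exists_between {D m : ℕ} (h : 2 ≤ D ^ m) :
    ∃ x : ℝ, 0 ≤ x ∧ x < D ∧ ((D ^ m - 2 : ℕ) : ℝ) < x ^ m := by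
  have hD : 0 < D := by
    rcases Nat.eq_zero_or_pos D with h0 | h0
    · subst h0
      rcases Nat.eq_zero_or_pos m with h1 | h1
      · subst h1; simp at h
      · rw [zero_pow (by omega)] at h; omega
    · exact h0
  have hD' : (0 : ℝ) < D := by exact_mod_cast hD
  have hc : ContinuousAt (fun x : ℝ => x ^ m) D := (continuous_pow m).continuousAt
  have h1 : ((D ^ m - 2 : ℕ) : ℝ) < (D : ℝ) ^ m := by
    have : D ^ m - 2 < D ^ m := by omega
    exact_mod_cast this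
  have h2 : ∀ᶠ x in 𝓝 (D : ℝ), ((D ^ m - 2 : ℕ) : ℝ) < x ^ m := hc.eventually_const_lt h1
  have h3 : ∀ᶠ x in 𝓝 (D : ℝ), 0 < x := eventually_gt_nhds hD'
  have h4 : ∀ᶠ x : ℝ in 𝓝[<] (D : ℝ), x < D := self_mem_nhdsWithin
  obtain ⟨x, hx, h5, h6⟩ := (h4.and ((h2.and h3).filter_mono nhdsWithin_le_nhds)).exists
  exact ⟨x, h6.le, hx, h5⟩

end Pool.Agent.H64NC
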