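import Pool.Agent.H64NC.Stm

set_option autoImplicit false

open Module Matrix

namespace Pool.Agent.H64NC

universe u v w

namespace Str1

/-- Tracial functionals on matrices. -/
theorem tracial_matrix {K : Type w} [Field K] {n : ℕ} [NeZero n]
    (f : Matrix (Fin n) (Fin n) K →ₗ[K] K) (hf : ∀ x y, f (x * y) = f (y * x))
    (A : Matrix (Fin n) (Fin n) K) :
    f A = f (Matrix.single 0 0 1) * Matrix.trace A := by
  have hdiag : ∀ a : Fin n, f (Matrix.single a a 1) = f (Matrix.single 0 0 1) := by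
    intro a
    have h1 : (Matrix.single a a 1 : Matrix (Fin n) (Fin n) K)
        = Matrix.single a 0 1 * Matrix.single 0 a 1 := by
      rw [Matrix.single_mul_single_same]; simp
    have h2 : (Matrix.single 0 0 1 : Matrix (Fin n) (Fin n) K)
        = Matrix.single 0 a 1 * Matrix.single a 0 1 := by
      rw [Matrix.single_mul_single_same]; simp
    rw [h1, h2, hf]
  have hoff : ∀ a b : Fin n, a ≠ b → f (Matrix.single a b 1) = 0 := by
    intro a b hab
    have h1 : (Matrix.single a b 1 : Matrix (Fin n) (Fin n) K)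
        = Matrix.single a a 1 * Matrix.single a b 1 := by
      rw [Matrix.single_mul_single_same]; simp
    rw [h1, hf, Matrix.single_mul_single_of_ne _ _ _ _ hab.symm, map_zero]
  conv_lhs => rw [Matrix.matrix_eq_sum_single A]
  rw [map_sum]
  have : ∀ i : Fin n, f (∑ j, Matrix.single i j (A i j)) = f (Matrix.single 0 0 1) * A i i := by
    intro i
    rw [map_sum, Finset.sum_eq_single i]
    · have : (Matrix.single i i (A i i) : Matrix (Fin n) (Fin n) K)
          = A i i • Matrix.single i i 1 := by simp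
      rw [this, map_smul, hdiag, smul_eq_mul, mul_comm]
    · intro j _ hj
      have : (Matrix.single i j (A i j) : Matrix (Fin n) (Fin n) K)
          = A i j • Matrix.single i j 1 := by simp
      rw [this, map_smul, hoff i j hj.symm, smul_zero]
    · intro h; exact absurd (Finset.mem_univ i) h
  rw [Finset.sum_congr rfl (fun i _ => this i), ← Finset.mul_sum]
  rfl

/-- the product of matrix algebras -/
abbrev PM (K : Type w) {m : ℕ} (n : Fin m → ℕ) : Type w :=
  (i : Fin m) → Matrix (Fin (n i)) (Fin (n i)) K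

/-- the matrix unit `E_00` in a factor -/
def e0 (K : Type w) [Field K] {m : ℕ} (n : Fin m → ℕ) [∀ i, NeZero (n i)] (i : Fin m) : PM K n :=
  Pi.single i (Matrix.single 0 0 1)

theorem tracial_pi {K : Type w} [Field K] {m : ℕ} {n : Fin m → ℕ} [∀ i, NeZero (n i)]
    (f : PM K n →ₗ[K] K) (hf : ∀ x y, f (x * y) = f (y * x)) (x : PM K n) :
    f x = ∑ i, f (e0 K n i) * Matrix.trace (x i) := by
  have hx : x = ∑ i, Pi.single i (x i) := (Finset.univ_sum_single x).symm
  conv_lhs => rw [hx]
  rw [map_sum]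
  refine Finset.sum_congr rfl fun i _ => ?_
  have := tracial_matrix (K := K) (n := n i)
    (f ∘ₗ LinearMap.single K (fun i => Matrix (Fin (n i)) (Fin (n i)) K) i) (by
      intro a b
      simp only [LinearMap.comp_apply, LinearMap.single_apply]
      have h1 : ∀ a b : Matrix (Fin (n i)) (Fin (n i)) K,
          (Pi.single i (a * b) : PM K n) = Pi.single i a * Pi.single i b := by
        intro a b; exact Pi.single_mul (α := fun i => Matrix (Fin (n i)) (Fin (n i)) K) i a b
      rw [h1, h1, hf]) (x i)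
  simpa [LinearMap.comp_apply, LinearMap.single_apply, e0] using this

theorem e0_mul_self {K : Type w} [Field K] {m : ℕ} {n : Fin m → ℕ} [∀ i, NeZero (n i)] (i : Fin m) :
    e0 K n i * e0 K n i = e0 K n i := by
  unfold e0
  have := Pi.single_mul (α := fun i => Matrix (Fin (n i)) (Fin (n i)) K) i
    (Matrix.single (0 : Fin (n i)) 0 (1 : K)) (Matrix.single 0 0 1)
  rw [← this, Matrix.single_mul_single_same, mul_one]

theorem e0_ne {K : Type w} [Field K] {m : ℕ} {n : Fin m → ℕ} [∀ i, NeZero (n i)] (i : Fin m) :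
    e0 K n i ≠ 0 := by
  intro h
  have := congrFun (congrFun (congrFun h i) 0) 0
  simp [e0] at this

/-- rank bound: `f j` independent modulo the radical are independent in the quotient. -/
theorem indep {K : Type w} [Field K] [CharZero K] {P : Type w} [Ring P] [Algebra K P]
    (s : P →ₗ[K] K) {E : Type v} [Ring E] [Algebra ℚ E] (κ : E →+* P)
    (τ : E →ₗ[ℚ] ℚ) (hτ : ∀ x, ((τ x : ℚ) : K) = s (κ x)) (r : ℕ) (f : Fin r → E)
    (hf : ∀ a : Fin r → ℚ, (∀ y, τ ((∑ i, a i • f i) * y) = 0) → a = 0) :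
    LinearIndependent K (fun j => κ (f j)) := by
  classical
  rw [Fintype.linearIndependent_iff]
  intro a ha
  let T : E →ₗ[ℚ] (Fin r → ℚ) := LinearMap.pi fun j => τ ∘ₗ LinearMap.mulLeft ℚ (f j)
  have hT : ∀ y j, T y j = τ (f j * y) := fun y j => rfl
  have hsurj : LinearMap.range T = ⊤ := by
    by_contra hne
    obtain ⟨φ, hφ, hle⟩ := Submodule.exists_le_ker_of_lt_top _ (lt_top_iff_ne_top.2 hne)
    apply hφ
    have h0 : (fun j => φ (Pi.single j 1)) = 0 := by
      apply hf
      intro y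
      have h1 : φ (T y) = 0 := hle (LinearMap.mem_range_self T y)
      have h2 : T y = ∑ j, (T y j) • (Pi.single j (1 : ℚ)) := by
        ext k
        simp [Finset.sum_apply, Pi.single_apply]
      rw [h2, map_sum] at h1
      rw [Finset.sum_mul, map_sum]
      rw [← h1]
      refine Finset.sum_congr rfl fun j _ => ?_
      rw [map_smul, hT, smul_mul_assoc, map_smul, smul_eq_mul, smul_eq_mul, mul_comm]
    apply LinearMap.pi_ext'
    intro j
    ext
    simpa using congrFun h0 j
  intro k
  obtain ⟨y, hy⟩ := LinearMap.range_eq_top.1 hsurj (Pi.single k 1)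
  have h1 : s ((∑ j, a j • κ (f j)) * κ y) = 0 := by rw [ha, zero_mul, map_zero]
  rw [Finset.sum_mul, map_sum] at h1
  have h2 : ∀ j, s (a j • κ (f j) * κ y) = a j * ((Pi.single k (1 : ℚ) : Fin r → ℚ) j : ℚ) := by
    intro j
    rw [smul_mul_assoc, map_smul, ← map_mul, ← hτ, ← hT, hy, smul_eq_mul]
  rw [Finset.sum_congr rfl (fun j _ => h2 j), Finset.sum_eq_single k] at h1
  · simpa using h1
  · intro j _ hj
    simp [hj]
  · intro h; exact absurd (Finset.mem_univ k) h

/-- nondegenerate + zero on nilpotents: semisimple -/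
theorem semisimple {K : Type w} [Field K] {Q : Type w} [Ring Q] [Algebra K Q] [Module.Finite K Q]
    (s : Q →ₗ[K] K) (hnd : ∀ x, (∀ y, s (x * y) = 0) → x = 0)
    (hnil : ∀ x, IsNilpotent x → s x = 0) : IsSemisimpleRing Q := by
  have : IsArtinianRing Q := IsArtinianRing.of_finite K Q
  rw [IsArtinianRing.isSemisimpleRing_iff_jacobson, eq_bot_iff]
  intro x hx
  rw [Submodule.mem_bot]
  apply hnd
  intro y
  apply hnil
  have hxy : x * y ∈ Ring.jacobson Q := Ideal.mul_mem_right _ _ hx
  obtain ⟨k, hk⟩ := (IsSemiprimaryRing.isNilpotent (R := Q))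
  refine ⟨k, ?_⟩
  have : (x * y) ^ k ∈ (Ring.jacobson Q) ^ k := Ideal.pow_mem_pow hxy k
  rw [hk] at this
  simpa using this

/-- the Casimir element -/
theorem casimir {K : Type w} [Field K] [CharZero K] {Q : Type w} [Ring Q] [Algebra K Q]
    [Module.Finite K Q] (s : Q →ₗ[K] K) (hs : ∀ x y, s (x * y) = s (y * x))
    (hnd : ∀ x, (∀ y, s (x * y) = 0) → x = 0)
    {E : Type v} [Ring E] [Algebra ℚ E] (κ : E →+* Q)
    (hspan : Submodule.span K (Set.range κ) = ⊤)
    (τ : E →ₗ[ℚ] ℚ) (hτ : ∀ x, ((τ x : ℚ) : K) = s (κ x)) :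
    ∃ Ω : E, ∀ a : Q, s (a * κ Ω) = LinearMap.trace K Q (LinearMap.mulLeft K a) := by
  classical
  obtain ⟨ι, x, -, hx, hli⟩ := exists_linearIndependent' K κ
  rw [hspan] at hx
  have : Finite ι := hli.finite
  let _ : Fintype ι := Fintype.ofFinite ι
  let b : Basis ι K Q := Basis.mk hli hx.ge
  have hb : ∀ i, b i = κ (x i) := fun i => by simp [b]
  -- the Gram matrix
  let G : Matrix ι ι ℚ := Matrix.of fun i j => τ (x i * x j)
  have hGK : ∀ i j, ((G i j : ℚ) : K) = s (b i * b j) := by
    intro i j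
    rw [hb, hb, ← map_mul, ← hτ]; rfl
  have hG : ∀ i j, G i j = G j i := by
    intro i j
    have : ((G i j : ℚ) : K) = ((G j i : ℚ) : K) := by rw [hGK, hGK, hs]
    exact_mod_cast this
  have hdet : G.det ≠ 0 := by
    intro h0
    have h1 : (G.map (algebraMap ℚ K)).det = 0 := by
      rw [← RingHom.mapMatrix_apply, ← RingHom.map_det, h0, map_zero]
    obtain ⟨v, hv, hv0⟩ := Matrix.exists_vecMul_eq_zero_iff.2 h1
    apply hv
    have h2 : ∑ i, v i • b i = 0 := by
      apply hnd
      intro y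
      rw [← b.sum_repr y, Finset.mul_sum, map_sum]
      refine Finset.sum_eq_zero fun j _ => ?_
      rw [mul_smul_comm, map_smul, Finset.sum_mul, map_sum]
      have h3 := congrFun hv0 j
      simp only [Matrix.vecMul, dotProduct, Matrix.map_apply, eq_ratCast, Pi.zero_apply] at h3
      have h4 : ∑ i, s (v i • b i * b j) = 0 := by
        rw [← h3]
        refine Finset.sum_congr rfl fun i _ => ?_
        rw [smul_mul_assoc, map_smul, hGK, smul_eq_mul]
      rw [h4, smul_zero]
    have h5 := Fintype.linearIndependent_iff.1 b.linearIndependent v h2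
    exact funext h5
  have hunit : IsUnit G.det := isUnit_iff_ne_zero.2 hdet
  -- the dual family
  let y : ι → E := fun j => ∑ i, (G⁻¹ j i) • x i
  have hy : ∀ j k, τ (y j * x k) = if j = k then 1 else 0 := by
    intro j k
    have h1 : (G⁻¹ * G) j k = if j = k then 1 else 0 := by
      rw [Matrix.nonsing_inv_mul _ hunit, Matrix.one_apply]
    rw [← h1, Matrix.mul_apply, Finset.sum_mul, map_sum]
    refine Finset.sum_congr rfl fun i _ => ?_
    rw [smul_mul_assoc, map_smul, smul_eq_mul]; rfl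
  have hcoord : ∀ j (z : Q), s (κ (y j) * z) = b.repr z j := by
    intro j z
    conv_lhs => rw [← b.sum_repr z]
    rw [Finset.mul_sum, map_sum, Finset.sum_eq_single j]
    · rw [mul_smul_comm, map_smul, hb, ← map_mul, ← hτ, hy]; simp
    · intro k _ hk
      rw [mul_smul_comm, map_smul, hb, ← map_mul, ← hτ, hy, if_neg hk.symm]; simp
    · intro h; exact absurd (Finset.mem_univ j) h
  refine ⟨∑ j, x j * y j, fun a => ?_⟩
  rw [LinearMap.trace_eq_matrix_trace K b, Matrix.trace, map_sum, Finset.mul_sum, map_sum]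
  refine Finset.sum_congr rfl fun j _ => ?_
  rw [Matrix.diag_apply, LinearMap.toMatrix_apply, ← hcoord, LinearMap.mulLeft_apply, hb, hs (κ (y j)),
    map_mul κ, mul_assoc]

/-- the trace of left multiplication by a nonzero idempotent is a positive integer -/
theorem trace_idem {K : Type w} [Field K] [CharZero K] {Q : Type w} [Ring Q] [Algebra K Q]
    [Module.Finite K Q] (e : Q) (he : e * e = e) (he0 : e ≠ 0) :
    ∃ t : ℕ, 0 < t ∧ LinearMap.trace K Q (LinearMap.mulLeft K e) = t := by
  have hid : IsIdempotentElem (LinearMap.mulLeft K e) := by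
    ext y
    simp [← mul_assoc, he]
  refine ⟨Module.finrank K (LinearMap.range (LinearMap.mulLeft K e)), ?_,
    (LinearMap.IsIdempotentElem.isProj_range _ hid).trace⟩
  rw [Module.finrank_pos_iff_of_free, Submodule.nontrivial_iff_ne_bot]
  intro h
  apply he0
  have h1 : LinearMap.mulLeft K e 1 ∈ LinearMap.range (LinearMap.mulLeft K e) := ⟨1, rfl⟩
  rw [h] at h1
  simpa using h1

/-- the case of a product of matrix algebras -/
theorem main_pi {K : Type w} [Field K] [CharZero K] {m : ℕ} {n : Fin m → ℕ} [∀ i, NeZero (n i)]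
    (s : PM K n →ₗ[K] K) (hs : ∀ x y, s (x * y) = s (y * x))
    (hnd : ∀ x, (∀ y, s (x * y) = 0) → x = 0) (hint : ∀ e, e * e = e → ∃ m : ℤ, s e = m)
    {E : Type v} [Ring E] [Algebra ℚ E] (κ : E →+* PM K n)
    (hspan : Submodule.span K (Set.range κ) = ⊤)
    (τ : E →ₗ[ℚ] ℚ) (hτ : ∀ x, ((τ x : ℚ) : K) = s (κ x))
    (r : ℕ) (f : Fin r → E) (hf : ∀ a : Fin r → ℚ, (∀ y, τ ((∑ i, a i • f i) * y) = 0) → a = 0) :
    ∃ x : E, κ x * κ x = 1 ∧ 0 ≤ τ x ∧ (r : ℚ) ≤ (τ x) ^ 2 := by
  classical
  -- the weights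
  have hc : ∀ i, ∃ c : ℤ, s (e0 K n i) = c := fun i => hint _ (e0_mul_self i)
  choose c hc using hc
  have hsx : ∀ x, s x = ∑ i, (c i : K) * Matrix.trace (x i) := by
    intro x
    rw [tracial_pi s hs]
    exact Finset.sum_congr rfl fun i _ => by rw [hc]
  have hc0 : ∀ i, c i ≠ 0 := by
    intro i h0
    apply e0_ne (K := K) (n := n) i
    apply hnd
    intro y
    rw [hsx]
    refine Finset.sum_eq_zero fun j _ => ?_
    by_cases hij : j = i
    · subst hij; rw [h0]; simp
    · have : (e0 K n i * y) j = 0 := by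
        rw [Pi.mul_apply, e0, Pi.single_eq_of_ne hij, zero_mul]
      rw [this, Matrix.trace_zero, mul_zero]
  -- the trace of left multiplication
  let T : PM K n →ₗ[K] K := LinearMap.trace K (PM K n) ∘ₗ (LinearMap.mul K (PM K n))
  have hT : ∀ x, T x = LinearMap.trace K (PM K n) (LinearMap.mulLeft K x) := fun x => rfl
  have hTtr : ∀ x y, T (x * y) = T (y * x) := by
    intro x y
    rw [hT, hT]
    have h1 : ∀ x y : PM K n, LinearMap.mulLeft K (x * y)
        = LinearMap.mulLeft K x * LinearMap.mulLeft K y := fun x y => by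
      ext z; simp
    rw [h1, h1, LinearMap.trace_mul_comm]
  have ht : ∀ i, ∃ t : ℕ, 0 < t ∧ T (e0 K n i) = t := fun i =>
    trace_idem _ (e0_mul_self i) (e0_ne i)
  choose t htpos ht using ht
  have hTx : ∀ x, T x = ∑ i, (t i : K) * Matrix.trace (x i) := by
    intro x
    rw [tracial_pi T hTtr]
    exact Finset.sum_congr rfl fun i _ => by rw [ht]
  -- the Casimir element
  obtain ⟨Ω, hΩ⟩ := casimir s hs hnd κ hspan τ hτ
  let lam : Fin m → ℚ := fun i => (t i : ℚ) / (c i : ℚ)
  let g : ∀ i, ℚ →+* Matrix (Fin (n i)) (Fin (n i)) K := fun i =>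
    (algebraMap K (Matrix (Fin (n i)) (Fin (n i)) K)).comp (algebraMap ℚ K)
  have hgtr : ∀ i (q : ℚ), Matrix.trace (g i q) = (q : K) * (n i : K) := by
    intro i q
    simp only [g, RingHom.comp_apply, eq_ratCast, Algebra.algebraMap_eq_smul_one,
      Matrix.trace_smul, Matrix.trace_one, Fintype.card_fin, smul_eq_mul]
  have hgmul : ∀ i (q : ℚ) (A : Matrix (Fin (n i)) (Fin (n i)) K),
      Matrix.trace (A * g i q) = (q : K) * Matrix.trace A := by
    intro i q A
    simp only [g, RingHom.comp_apply, eq_ratCast, Algebra.algebraMap_eq_smul_one,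
      Matrix.trace_smul, mul_smul_comm, mul_one, smul_eq_mul]
  have hκΩ : κ Ω = fun i => g i (lam i) := by
    have h1 : ∀ a, s (a * ((fun i => g i (lam i)) - κ Ω)) = 0 := by
      intro a
      rw [mul_sub, map_sub, hΩ, ← hT, hsx, hTx, sub_eq_zero]
      refine Finset.sum_congr rfl fun i _ => ?_
      rw [Pi.mul_apply, hgmul, ← mul_assoc]
      congr 1
      have : (c i : K) ≠ 0 := by exact_mod_cast hc0 i
      simp only [lam]
      push_cast
      field_simp
    have h2 := hnd ((fun i => g i (lam i)) - κ Ω) (fun y => by rw [hs]; exact h1 y)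
    exact (sub_eq_zero.1 h2).symm
  -- the interpolation polynomial
  let sg : ℚ → ℚ := fun x => if 0 < x then 1 else -1
  let q : Polynomial ℚ := Lagrange.interpolate (Finset.univ.image lam) id sg
  have hq : ∀ i, q.eval (lam i) = sg (lam i) := by
    intro i
    exact Lagrange.eval_interpolate_at_node (v := id) (r := sg) (Set.injOn_id _)
      (Finset.mem_image_of_mem lam (Finset.mem_univ i))
  have hsg2 : ∀ x, sg x * sg x = 1 := by
    intro x; simp only [sg]; split_ifs <;> norm_num
  have hsgc : ∀ i, (c i : ℚ) * sg (lam i) = |(c i : ℚ)| := by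
    intro i
    have hti : (0 : ℚ) < t i := by exact_mod_cast htpos i
    have hci : (c i : ℚ) ≠ 0 := by exact_mod_cast hc0 i
    simp only [sg, lam]
    rcases lt_or_gt_of_ne hci with h | h
    · rw [if_neg (not_lt.2 (div_nonpos_of_nonneg_of_nonpos hti.le h.le)), abs_of_neg h]; ring
    · rw [if_pos (div_pos hti h), abs_of_pos h]; ring
  have hκx : κ (q.eval₂ (algebraMap ℚ E) Ω) = fun i => g i (sg (lam i)) := by
    rw [Polynomial.hom_eval₂, hκΩ]
    funext i
    have h1 : (Pi.evalRingHom (fun i => Matrix (Fin (n i)) (Fin (n i)) K) i)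
        (q.eval₂ (κ.comp (algebraMap ℚ E)) (fun i => g i (lam i)))
        = q.eval₂ ((Pi.evalRingHom (fun i => Matrix (Fin (n i)) (Fin (n i)) K) i).comp
            (κ.comp (algebraMap ℚ E))) (g i (lam i)) := by
      rw [Polynomial.hom_eval₂]; rfl
    have h2 : (Pi.evalRingHom (fun i => Matrix (Fin (n i)) (Fin (n i)) K) i).comp
            (κ.comp (algebraMap ℚ E)) = g i := Subsingleton.elim _ _
    rw [h2, Polynomial.eval₂_at_apply, hq] at h1
    exact h1
  refine ⟨q.eval₂ (algebraMap ℚ E) Ω, ?_, ?_⟩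
  · rw [hκx]
    funext i
    rw [Pi.mul_apply, ← map_mul, hsg2, map_one]; rfl
  have hτx : τ (q.eval₂ (algebraMap ℚ E) Ω) = ∑ i, |(c i : ℚ)| * (n i : ℚ) := by
    have h1 : ((τ (q.eval₂ (algebraMap ℚ E) Ω) : ℚ) : K)
        = ((∑ i, |(c i : ℚ)| * (n i : ℚ) : ℚ) : K) := by
      rw [hτ, hκx, hsx, Rat.cast_sum]
      refine Finset.sum_congr rfl fun i _ => ?_
      rw [hgtr, ← hsgc]
      push_cast
      ring
    exact_mod_cast h1
  rw [hτx]
  refine ⟨Finset.sum_nonneg fun i _ => by positivity, ?_⟩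
  have hli := indep s κ τ hτ r f hf
  have hcard := hli.fintype_card_le_finrank
  have hfin : Module.finrank K (PM K n) = ∑ i, n i * n i := by
    rw [Module.finrank_pi_fintype]
    refine Finset.sum_congr rfl fun i _ => ?_
    rw [Module.finrank_matrix]; simp
  rw [hfin, Fintype.card_fin] at hcard
  have h1 : (r : ℚ) ≤ ∑ i, (n i : ℚ) * (n i : ℚ) := by exact_mod_cast hcard
  refine h1.trans ?_
  have h2 : ∀ i, (n i : ℚ) ≤ |(c i : ℚ)| * (n i : ℚ) := by
    intro i
    have h3 : (1 : ℚ) ≤ |(c i : ℚ)| := by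
      have := Int.one_le_abs (hc0 i)
      exact_mod_cast this
    have h4 : (0 : ℚ) ≤ n i := by positivity
    nlinarith
  have h5 : ∀ i, (n i : ℚ) ≤ ∑ j, |(c j : ℚ)| * (n j : ℚ) := fun i =>
    (h2 i).trans (Finset.single_le_sum (f := fun j => |(c j : ℚ)| * (n j : ℚ))
      (fun j _ => by positivity) (Finset.mem_univ i))
  rw [sq, Finset.sum_mul]
  refine Finset.sum_le_sum fun i _ => ?_
  exact mul_le_mul (h2 i) (h5 i) (by positivity) (by positivity)

end Str1

/-- **Piece STR1.** -/
theorem t_STR1 : S_STR1.{v, w} := by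
  intro K _ _ _ Q _ _ _ s hs hnd hint hnil E _ _ κ hspan τ hτ r f hf
  have := Str1.semisimple s hnd hnil
  obtain ⟨m, n, hn, ⟨φ⟩⟩ := IsSemisimpleRing.exists_algEquiv_pi_matrix_of_isAlgClosed K Q
  have h := Str1.main_pi (K := K) (n := n) (s ∘ₗ φ.symm.toLinearMap)
    (fun x y => by simp [hs]) ?_ ?_
    (φ.toRingEquiv.toRingHom.comp κ) ?_ τ ?_ r f hf
  · obtain ⟨x, hx, h1, h2⟩ := h
    refine ⟨x, ?_, h1, h2⟩
    apply φ.injective
    simpa using hx
  · intro x hx
    have : φ.symm x = 0 := by
      apply hnd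
      intro y
      have := hx (φ y)
      simpa using this
    simpa using this
  · intro e he
    apply hint
    change φ.symm e * φ.symm e = φ.symm e
    rw [← map_mul, he]
  · have h1 : Set.range (φ.toRingEquiv.toRingHom.comp κ) = φ.toLinearMap '' Set.range κ := by
      ext y; simp [Set.mem_image]
    rw [h1, ← Submodule.map_span, hspan, Submodule.map_top, LinearMap.range_eq_top]
    exact φ.surjective
  · intro x
    rw [hτ]; simp

end Pool.Agent.H64NC
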