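import Pool.Agent.H64NC.Stm
import Pool.Agent.H578R3.SgnLin
import Pool.Agent.R484.SGa
import Pool.Agent.H447R3.KuA

/-!
# Piece STR2: base change to the algebraic closure and the quotient by the radical of the supertrace
-/

set_option autoImplicit false

open Module Polynomial TensorProduct

namespace Pool.Agent.H64NC.Str2

open Pool.Agent.H64NC Pool.Agent.H447 Pool.Agent.H914

universe u v w

section lin

variable {K : Type w} [Field K] {V : Type w} [AddCommGroup V] [Module K V]

/-- the supertrace -/
noncomputable def str (p : Module.End K V) : Module.End K V →ₗ[K] K :=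
  LinearMap.trace K V ∘ₗ LinearMap.mulLeft K (p - (1 - p))

theorem str_apply (p T : Module.End K V) :
    str p T = LinearMap.trace K V ((p - (1 - p)) * T) := rfl

theorem str_comm {p S T : Module.End K V} (hS : Commute S p) :
    str p (S * T) = str p (T * S) := by
  have h : Commute S (p - (1 - p)) := hS.sub_right ((Commute.one_right S).sub_right hS)
  rw [str_apply, str_apply, ← mul_assoc, ← h.eq, mul_assoc, LinearMap.trace_mul_comm, mul_assoc]

theorem trace_nil {T : Module.End K V} (h : IsNilpotent T) : LinearMap.trace K V T = 0 :=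
  (LinearMap.isNilpotent_trace_of_isNilpotent h).eq_zero

theorem str_nil {p T : Module.End K V} (hT : Commute T p) (h : IsNilpotent T) :
    str p T = 0 := by
  have h1 : IsNilpotent (p * T) := Commute.isNilpotent_mul_left hT.symm h
  have hq : Commute T (1 - p) := (Commute.one_right T).sub_right hT
  have h2 : IsNilpotent ((1 - p) * T) := Commute.isNilpotent_mul_left hq.symm h
  rw [str_apply, sub_mul, map_sub, trace_nil h1, trace_nil h2, sub_zero]

variable [Module.Finite K V]

/-- a polynomial which is divisible by `X ^ m` and is the identity up to a nilpotent operator -/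
theorem exists_cut (T : Module.End K V) (m : ℕ) : ∃ e : K[X],
    IsNilpotent (T * (1 - aeval T (X ^ m * e))) := by
  set χ := minpoly K T with hχ
  have hχ0 : χ ≠ 0 := minpoly.ne_zero (Algebra.IsIntegral.isIntegral T)
  obtain ⟨g, hg, hnd⟩ := exists_eq_pow_rootMultiplicity_mul_and_not_dvd χ hχ0 0
  set n := rootMultiplicity 0 χ with hn
  rw [C_0, sub_zero] at hg hnd
  have hcop : IsCoprime (X ^ m) g := by
    apply IsCoprime.pow_left
    rw [irreducible_X.coprime_iff_not_dvd]
    exact hnd
  obtain ⟨a, b, hab⟩ := hcop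
  refine ⟨a, n + 1, ?_⟩
  have hT0 : aeval T (X ^ n * g) = 0 := by rw [← hg, hχ, minpoly.aeval]
  have h1 : T * (1 - aeval T (X ^ m * a)) = aeval T (X * (b * g)) := by
    have h2 : b * g = 1 - X ^ m * a := by rw [← hab]; ring
    rw [h2, map_mul (aeval T) X, map_sub, map_one, aeval_X]
  rw [h1, ← map_pow, show (X * (b * g)) ^ (n + 1) = (X ^ n * g) * (X * b ^ (n + 1) * g ^ n) by ring,
    map_mul (aeval T) (X ^ n * g), hT0, zero_mul]

end lin

section closed

variable {K : Type w} [Field K] {V : Type w} [AddCommGroup V] [Module K V]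
  {E : Type v} [Ring E]

/-- the span of the image -/
noncomputable def alg (π : E →+* Module.End K V) : Subalgebra K (Module.End K V) :=
  (Submodule.span K (Set.range π)).toSubalgebra (Submodule.subset_span ⟨1, map_one π⟩) (by
    intro x y hx hy
    have h1 : x * y ∈ Submodule.span K (Set.range π) * Submodule.span K (Set.range π) :=
      Submodule.mul_mem_mul hx hy
    rw [Submodule.span_mul_span] at h1
    refine Submodule.span_mono ?_ h1
    rintro _ ⟨_, ⟨a, rfl⟩, _, ⟨b, rfl⟩, rfl⟩
    exact ⟨a * b, map_mul π a b⟩)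

theorem mem_alg {π : E →+* Module.End K V} {T : Module.End K V} :
    T ∈ alg π ↔ T ∈ Submodule.span K (Set.range π) := Iff.rfl

theorem comm_alg {π : E →+* Module.End K V} {p : Module.End K V} (h : ∀ x, Commute (π x) p)
    (T : alg π) : Commute (T : Module.End K V) p := by
  have key : ∀ x ∈ Submodule.span K (Set.range π), Commute x p := by
    intro x hx
    induction hx using Submodule.span_induction with
    | mem x hx =>
      obtain ⟨a, rfl⟩ := hx
      exact h a
    | zero => exact Commute.zero_left p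
    | add x y _ _ hx hy => exact hx.add_left hy
    | smul c x _ hx => exact hx.smul_left c
  exact key T (mem_alg.1 T.2)

/-- the radical of the supertrace form -/
noncomputable def rad (π : E →+* Module.End K V) (p : Module.End K V)
    (h : ∀ x, Commute (π x) p) : Ideal (alg π) where
  carrier := {a | ∀ y : alg π, str p ((a * y : alg π) : Module.End K V) = 0}
  add_mem' := by
    intro a b ha hb y
    rw [add_mul]
    show str p (((a * y : alg π) : Module.End K V) + ((b * y : alg π) : Module.End K V)) = 0
    rw [map_add, ha y, hb y, add_zero]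
  zero_mem' := by
    intro y
    rw [zero_mul]
    exact map_zero _
  smul_mem' := by
    intro c a ha y
    have h1 := ha (y * c)
    rw [smul_eq_mul, mul_assoc]
    show str p ((c : Module.End K V) * ((a * y : alg π) : Module.End K V)) = 0
    rw [str_comm (comm_alg h c)]
    have e : ((a * y : alg π) : Module.End K V) * (c : Module.End K V) =
        ((a * (y * c) : alg π) : Module.End K V) := by
      push_cast
      rw [mul_assoc]
    rw [e, h1]

theorem mem_rad {π : E →+* Module.End K V} {p : Module.End K V} {h : ∀ x, Commute (π x) p}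
    {a : alg π} : a ∈ rad π p h ↔ ∀ y : alg π, str p ((a * y : alg π) : Module.End K V) = 0 :=
  Iff.rfl

instance rad_two (π : E →+* Module.End K V) (p : Module.End K V)
    (h : ∀ x, Commute (π x) p) : (rad π p h).IsTwoSided := ⟨by
  intro a b ha y
  rw [mul_assoc]
  exact ha (b * y)⟩

/-- the supertrace on the span of the image -/
noncomputable def sA (π : E →+* Module.End K V) (p : Module.End K V) : alg π →ₗ[K] K :=
  str p ∘ₗ (alg π).val.toLinearMap

theorem sA_apply (π : E →+* Module.End K V) (p : Module.End K V) (a : alg π) :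
    sA π p a = str p (a : Module.End K V) := rfl

/-- the induced functional on the quotient -/
theorem exists_s (π : E →+* Module.End K V) (p : Module.End K V) (h : ∀ x, Commute (π x) p) :
    ∃ s : (alg π ⧸ rad π p h) →ₗ[K] K, ∀ a : alg π, s (Ideal.Quotient.mk _ a) = sA π p a := by
  have hs : Function.Surjective (Ideal.Quotient.mk (rad π p h)) := Ideal.Quotient.mk_surjective
  choose g hg using hs
  have key : ∀ a : alg π, sA π p (g (Ideal.Quotient.mk (rad π p h) a)) = sA π p a := by
    intro a
    have h1 : g (Ideal.Quotient.mk (rad π p h) a) - a ∈ rad π p h := by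
      rw [← Ideal.Quotient.eq]
      exact hg _
    have h2 := mem_rad.1 h1 1
    rw [mul_one] at h2
    have h3 : sA π p (g (Ideal.Quotient.mk (rad π p h) a) - a) = 0 := h2
    rw [map_sub, sub_eq_zero] at h3
    exact h3
  refine ⟨⟨⟨fun q => sA π p (g q), fun x y => ?_⟩, fun c x => ?_⟩, fun a => key a⟩
  · obtain ⟨x, rfl⟩ := Ideal.Quotient.mk_surjective x
    obtain ⟨y, rfl⟩ := Ideal.Quotient.mk_surjective y
    rw [← RingHom.map_add, key, key, key, map_add]
  · obtain ⟨x, rfl⟩ := Ideal.Quotient.mk_surjective x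
    show sA π p (g (c • Ideal.Quotient.mk _ x)) = c • sA π p (g (Ideal.Quotient.mk _ x))
    have h1 : c • Ideal.Quotient.mk (rad π p h) x = Ideal.Quotient.mk (rad π p h) (c • x) := rfl
    rw [h1, key, key, map_smul]

/-- the map to the quotient -/
noncomputable def kap (π : E →+* Module.End K V) (p : Module.End K V) (h : ∀ x, Commute (π x) p) :
    E →+* (alg π ⧸ rad π p h) :=
  (Ideal.Quotient.mk (rad π p h)).comp
    (π.codRestrict (alg π) fun x => mem_alg.2 (Submodule.subset_span ⟨x, rfl⟩))

theorem kap_apply (π : E →+* Module.End K V) (p : Module.End K V) (h : ∀ x, Commute (π x) p)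
    (x : E) : kap π p h x = Ideal.Quotient.mk (rad π p h)
      ⟨π x, mem_alg.2 (Submodule.subset_span ⟨x, rfl⟩)⟩ := rfl

theorem span_kap (π : E →+* Module.End K V) (p : Module.End K V) (h : ∀ x, Commute (π x) p) :
    Submodule.span K (Set.range (kap π p h)) = ⊤ := by
  rw [eq_top_iff]
  rintro q -
  obtain ⟨a, rfl⟩ := Ideal.Quotient.mk_surjective q
  have key : ∀ (x : Module.End K V) (hx : x ∈ Submodule.span K (Set.range π)),
      Ideal.Quotient.mk (rad π p h) ⟨x, mem_alg.2 hx⟩ ∈
        Submodule.span K (Set.range (kap π p h)) := by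
    intro x hx
    induction hx using Submodule.span_induction with
    | mem x hx =>
      obtain ⟨a, rfl⟩ := hx
      exact Submodule.subset_span ⟨a, rfl⟩
    | zero =>
      have h1 : (⟨0, mem_alg.2 (Submodule.zero_mem _)⟩ : alg π) = 0 := rfl
      rw [h1, map_zero]
      exact Submodule.zero_mem _
    | add x y hx' hy' hx hy =>
      have h1 : (⟨x + y, mem_alg.2 (Submodule.add_mem _ hx' hy')⟩ : alg π) =
        ⟨x, mem_alg.2 hx'⟩ + ⟨y, mem_alg.2 hy'⟩ := rfl
      rw [h1, RingHom.map_add]
      exact Submodule.add_mem _ hx hy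
    | smul c x hx' hx =>
      have h1 : Ideal.Quotient.mk (rad π p h)
          (⟨c • x, mem_alg.2 (Submodule.smul_mem _ c hx')⟩ : alg π) =
        c • Ideal.Quotient.mk (rad π p h) ⟨x, mem_alg.2 hx'⟩ := rfl
      rw [h1]
      exact Submodule.smul_mem _ c hx
  exact key a (mem_alg.1 a.2)

variable [CharZero K] [IsAlgClosed K] [Module.Finite K V] [Algebra ℚ E]

theorem closed (h1 : S_STR1.{v, w}) (π : E →+* Module.End K V) (p : Module.End K V)
    (hp : p * p = p) (h : ∀ x, Commute (π x) p) (τ : E →ₗ[ℚ] ℚ)
    (hτ : ∀ x, ((τ x : ℚ) : K) = LinearMap.trace K V ((p - (1 - p)) * π x)) (r : ℕ)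
    (f : Fin r → E) (hf : ∀ a : Fin r → ℚ, (∀ y, τ ((∑ i, a i • f i) * y) = 0) → a = 0) :
    ∃ x : E, (∀ y, τ ((x * x - 1) * y) = 0) ∧ 0 ≤ τ x ∧ (r : ℚ) ≤ (τ x) ^ 2 := by
  obtain ⟨s, hs⟩ := exists_s π p h
  have hfin : Module.Finite K (alg π ⧸ rad π p h) :=
    Module.Finite.of_surjective (Ideal.Quotient.mkₐ K (rad π p h)).toLinearMap
      (Ideal.Quotient.mkₐ_surjective K (rad π p h))
  have hκ : ∀ x, ((τ x : ℚ) : K) = s (kap π p h x) := by
    intro x
    rw [kap_apply, hs, hτ]
    rfl
  have c1 : ∀ x y, s (x * y) = s (y * x) := by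
    intro x y
    obtain ⟨x, rfl⟩ := Ideal.Quotient.mk_surjective x
    obtain ⟨y, rfl⟩ := Ideal.Quotient.mk_surjective y
    rw [← map_mul, ← map_mul, hs, hs, sA_apply, sA_apply]
    exact str_comm (comm_alg h x)
  have c2 : ∀ x, (∀ y, s (x * y) = 0) → x = 0 := by
    intro x hx
    obtain ⟨x, rfl⟩ := Ideal.Quotient.mk_surjective x
    rw [Ideal.Quotient.eq_zero_iff_mem]
    refine mem_rad.2 fun y => ?_
    have h2 := hx (Ideal.Quotient.mk _ y)
    rw [← map_mul, hs] at h2
    exact h2
  have c3 : ∀ e, e * e = e → ∃ m : ℤ, s e = m := by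
    intro e he
    obtain ⟨T, rfl⟩ := Ideal.Quotient.mk_surjective e
    have h2 : ∀ r : ℕ, Ideal.Quotient.mk (rad π p h) (T ^ (r + 1)) = Ideal.Quotient.mk _ T := by
      intro r
      induction r with
      | zero => rw [zero_add, pow_one]
      | succ r ih => rw [pow_succ, map_mul, ih, he]
    obtain ⟨a, b, c, h3, -, -⟩ := Pool.Agent.H578R3.Sgn.main (d := s (Ideal.Quotient.mk _ T)) hp
      (comm_alg h T) (fun r => by
        rw [← h2 r, hs, sA_apply, str_apply]
        rfl)
    exact ⟨a - b, by rw [h3]; push_cast; rfl⟩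
  have c4 : ∀ x, IsNilpotent x → s x = 0 := by
    intro x hx
    obtain ⟨T, rfl⟩ := Ideal.Quotient.mk_surjective x
    obtain ⟨m, hm⟩ := hx
    obtain ⟨e, he⟩ := exists_cut (T : Module.End K V) m
    have h2 : Ideal.Quotient.mk (rad π p h) (T * aeval T (X ^ m * e)) = 0 := by
      rw [map_mul (aeval T), map_pow, aeval_X, map_mul, map_mul, map_pow, hm, zero_mul, mul_zero]
    have h3 : s (Ideal.Quotient.mk (rad π p h) (T * aeval T (X ^ m * e))) = 0 := by
      rw [h2, map_zero]
    have h4 : str p ((T * (1 - aeval T (X ^ m * e)) : alg π) : Module.End K V) = 0 := by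
      refine str_nil (comm_alg h _) ?_
      push_cast
      exact he
    rw [hs, sA_apply] at h3
    rw [hs, sA_apply]
    have h6 : (T : Module.End K V) = ((T * aeval T (X ^ m * e) : alg π) : Module.End K V) +
        ((T * (1 - aeval T (X ^ m * e)) : alg π) : Module.End K V) := by
      rw [← Subalgebra.coe_add, ← mul_add, add_sub_cancel, mul_one]
    rw [h6, map_add, h3, h4, add_zero]
  obtain ⟨x, hx1, hx2, hx3⟩ := h1 K (alg π ⧸ rad π p h) s c1 c2 c3 c4 E (kap π p h)
    (span_kap π p h) τ hκ r f hf
  refine ⟨x, fun y => ?_, hx2, hx3⟩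
  have h2 : ((τ ((x * x - 1) * y) : ℚ) : K) = 0 := by
    rw [hκ, (kap π p h).map_mul, (kap π p h).map_sub, (kap π p h).map_mul, (kap π p h).map_one, hx1,
      sub_self, zero_mul, map_zero]
  exact_mod_cast h2

end closed

theorem t_STR2 : S_STR2.{v, w} := by
  intro h1 K _ _ V _ _ _ E _ _ π p hp h τ hτ r f hf
  set Kb := AlgebraicClosure K
  have hbt : ∀ T : Module.End K V, LinearMap.trace Kb (Kb ⊗[K] V)
      ((p.baseChange Kb - (1 - p.baseChange Kb)) * T.baseChange Kb) =
      algebraMap K Kb (LinearMap.trace K V ((p - (1 - p)) * T)) := by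
    intro T
    have e : (p.baseChange Kb - (1 - p.baseChange Kb)) * T.baseChange Kb =
        ((p - (1 - p)) * T).baseChange Kb := by
      rw [bc_mul, bc_sub, bc_sub, bc_one]
    rw [e, LinearMap.trace_baseChange]
  refine closed (K := Kb) (V := Kb ⊗[K] V) h1
    ((Module.End.baseChangeHom K Kb V).toRingHom.comp π) (p.baseChange Kb)
    (by rw [← bc_mul, hp]) (fun x => ?_) τ (fun x => ?_) r f hf
  · show Commute ((π x).baseChange Kb) (p.baseChange Kb)
    rw [Commute, SemiconjBy, ← bc_mul, ← bc_mul, (h x).eq]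
  · show _ = LinearMap.trace Kb (Kb ⊗[K] V)
      ((p.baseChange Kb - (1 - p.baseChange Kb)) * (π x).baseChange Kb)
    rw [hbt, ← hτ, map_ratCast]

end Pool.Agent.H64NC.Str2
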