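import Pool.Agent.H64NC.Upper
import Pool.Agent.H64NC.Cut
import Pool.Agent.H64NC.Count
import Pool.Agent.H64NC.Str1
import Pool.Agent.H64NC.Str2
import Pool.Agent.H64NC.Lim

/-!
# Project NCA (helper64): assembly
-/

set_option autoImplicit false
set_option linter.unusedSectionVars false

open CategoryTheory Limits MonoidalCategory
open Pool.Agent.Y112.SR Pool.Agent.Y112.KD Pool.Agent.Y112.SC Pool.Agent.R484.NC

namespace Pool.Agent.H64NC

universe u v w

section Iso

variable {C : Type u} [Category.{v} C] [MonoidalCategory C]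

lemma tp_add (M : C) (a b : ℕ) : Nonempty (tp M (a + b) ≅ tp M a ⊗ tp M b) := by
  induction b with
  | zero => exact ⟨(ρ_ (tp M a)).symm⟩
  | succ b ih =>
    obtain ⟨e⟩ := ih
    exact ⟨whiskerRightIso e M ≪≫ α_ (tp M a) (tp M b) M⟩

lemma tp_mul (M : C) (a b : ℕ) : Nonempty (tp (tp M a) b ≅ tp M (a * b)) := by
  induction b with
  | zero => exact ⟨Iso.refl _⟩
  | succ b ih =>
    obtain ⟨e⟩ := ih
    obtain ⟨e'⟩ := tp_add M (a * b) a
    exact ⟨whiskerRightIso e (tp M a) ≪≫ e'.symm⟩

end Iso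

section

variable {C : Type u} [Category.{v} C] [Preadditive C] [Linear ℚ C] [MonoidalCategory C]
  [MonoidalPreadditive C] [MonoidalLinear ℚ C] [SymmetricCategory C] [RightRigidCategory C]

/-- The parity index. -/
def IsIdx (hU : UnitQ C) (X : C) (r : ℕ) : Prop :=
  IsGreatest {d : ℚ | ∃ x : X ⟶ X, NumInvolution hU x ∧ ctr hU x = d} (r : ℚ)

variable {K : Type w} [Field K] (R : SuperRealisation C K)

include R in
lemma idx_iso {hU : UnitQ C} {X Y : C} (e : X ≅ Y) {r s : ℕ} (hr : IsIdx hU X r)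
    (hs : IsIdx hU Y s) : r ≤ s := by
  obtain ⟨x, hx, hxr⟩ := hr.1
  have h1 : NumInvolution hU (e.inv ≫ x ≫ e.hom) := by
    intro g
    have e1 : (e.inv ≫ x ≫ e.hom) ≫ (e.inv ≫ x ≫ e.hom) - 𝟙 Y =
        e.inv ≫ (x ≫ x - 𝟙 X) ≫ e.hom := by
      simp
    rw [e1, Category.assoc, ctr_comm R]
    simp only [Category.assoc]
    exact hx _
  have h2 : ctr hU (e.inv ≫ x ≫ e.hom) = ctr hU x := by
    rw [ctr_comm R]
    simp
  have h3 := hs.2 ⟨_, h1, rfl⟩
  rw [h2, hxr] at h3
  exact_mod_cast h3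

lemma totalDim_unit : totalDim R (𝟙_ C) = 1 := finrank_unit R

lemma totalDim_tensor (X Y : C) : totalDim R (X ⊗ Y) = totalDim R X * totalDim R Y := by
  have hK := R_charZero R
  have h1 := R.finite X
  have h2 := R.finite Y
  have h3 := R.finite (X ⊗ Y)
  have h4 := trace_bx (R := R) (𝟙 (R.H.obj X)) (𝟙 (R.H.obj Y))
  rw [bx_one, ModuleCat.hom_id, ModuleCat.hom_id, ModuleCat.hom_id, LinearMap.trace_id,
    LinearMap.trace_id, LinearMap.trace_id] at h4
  have h5 : ((totalDim R (X ⊗ Y) : ℕ) : K) = ((totalDim R X * totalDim R Y : ℕ) : K) := by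
    rw [Nat.cast_mul]
    exact h4
  exact_mod_cast h5

lemma totalDim_tp (M : C) (n : ℕ) : totalDim R (tp M n) = totalDim R M ^ n := by
  induction n with
  | zero => rw [pow_zero]; exact totalDim_unit R
  | succ n ih =>
    rw [pow_succ, ← ih]
    exact totalDim_tensor R _ _

/-- Nilpotence of the numerically trivial endomorphisms. -/
def Nil (hU : UnitQ C) (M : C) : Prop :=
  ∀ (n : ℕ) (f : tp M n ⟶ tp M n), NumZero hU f → IsNilpotent (op R f)

lemma nil_of_cplus_obj {hU : UnitQ C} {X : C} (h : R.CPlus X) (f : X ⟶ X) (hf : NumZero hU f) :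
    IsNilpotent (op R f) := by
  have hK := R_charZero R
  have h0 := R.finite X
  obtain ⟨g, hg⟩ := (cplus_iff_op R X).1 h
  have key : ∀ (y : X ⟶ X), LinearMap.trace K (R.H.obj X)
      ((evp R X - (1 - evp R X)) * (op R y * op R f)) = 0 := by
    intro y
    have h1 : ((ctr hU (f ≫ y) : ℚ) : K) = 0 := by rw [hf y, Rat.cast_zero]
    rw [ctr_eq R, str_eq, Pool.Agent.R484.NC.op_comp] at h1
    exact h1
  apply Pool.Agent.H914.isNilpotent_of_trace_pow
  intro r
  have h1 := key (pw f r)
  have h2 := key (pw f r ≫ g)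
  rw [Pool.Agent.R484.NC.op_comp, hg] at h2
  rw [op_pw] at h1 h2
  have hc : Commute (op R f) (evp R X) := op_comm R f
  have e1 : (evp R X - (1 - evp R X)) * (evp R X * op R f ^ r * op R f) =
      evp R X * (op R f ^ r * op R f) := by
    have h3 : (evp R X - (1 - evp R X)) * evp R X = evp R X := by
      rw [sub_mul, sub_mul, evp_idem, one_mul, sub_self, sub_zero]
    rw [← mul_assoc, ← mul_assoc, h3, mul_assoc]
  rw [e1] at h2
  have e2 : op R f ^ (r + 1) = (2 : K) • (evp R X * (op R f ^ r * op R f)) -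
      (evp R X - (1 - evp R X)) * (op R f ^ r * op R f) := by
    rw [two_smul, pow_succ]
    noncomm_ring
  rw [e2, map_sub, map_smul, h1, h2, smul_zero, sub_zero]

lemma nil_of_cplus {hU : UnitQ C} {M : C} (h : R.CPlus M) : Nil R hU M :=
  fun n f hf => nil_of_cplus_obj R (cplus_tp R h n) f hf

/-- The ring homomorphism of the realisation. -/
noncomputable def opHom (X : C) : End X →+* Module.End K (R.H.obj X) where
  toFun f := op R f
  map_one' := Pool.Agent.R484.NC.op_id R X
  map_mul' f g := by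
    rw [End.mul_def, Pool.Agent.R484.NC.op_comp]
  map_zero' := by
    have : op R (0 : X ⟶ X) = 0 := by
      rw [op, Functor.map_zero, ModuleCat.hom_zero]
    exact this
  map_add' f g := Pool.Agent.R484.NC.op_add R f g

include R in
/-- The number of numerically independent endomorphisms. -/
theorem rank_le {hU : UnitQ C} {X : C} {ρ : ℕ} (hρ : IsIdx hU X ρ) (r : ℕ)
    (f : Fin r → (X ⟶ X)) (hf : ∀ a : Fin r → ℚ, NumZero hU (∑ i, a i • f i) → a = 0) :
    r ≤ ρ ^ 2 := by
  have hK := R_charZero R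
  have h0 := R.finite X
  have hS : S_STRUCT.{v, w} := Str2.t_STR2 t_STR1
  obtain ⟨x, hx, hx0, hxr⟩ := hS K (R.H.obj X) (End X) (opHom R X) (evp R X) (evp_idem R X)
    (fun x => op_comm R x) (trq hU X) (fun x => by
      have h1 := ctr_eq R hU (M := X) x
      rw [str_eq] at h1
      exact h1) r f (fun a ha => hf a (fun y => by
        have h1 := ha y
        rw [End.mul_def] at h1
        have h2 := ctr_comm R hU (∑ i, a i • f i) y
        rw [h2]
        exact h1))
  have h1 : NumInvolution hU (M := X) x := by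
    intro y
    have h2 := hx y
    rw [End.mul_def, End.mul_def] at h2
    have h3 := ctr_comm R hU ((x : X ⟶ X) ≫ x - 𝟙 X) y
    rw [h3]
    exact h2
  have h2 := hρ.2 ⟨_, h1, rfl⟩
  have h3 : ctr hU (M := X) x = trq hU X x := rfl
  rw [h3] at h2
  have h4 : (r : ℚ) ≤ (ρ : ℚ) ^ 2 := hxr.trans (pow_le_pow_left₀ hx0 h2 2)
  exact_mod_cast h4


/-- The lower bound for the parity index. -/
theorem lower (hperm : S_PERM.{u, v, w}) {hU : UnitQ C} {M : C} (n : ℕ) {ρ : ℕ}
    (hρ : IsIdx hU (tp M n) ρ)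
    (hnil : ∀ f : tp M n ⟶ tp M n, NumZero hU f → IsNilpotent (op R f)) :
    totalDim R M ^ (2 * n) ≤ ρ ^ 2 * (n + 1) ^ (totalDim R M ^ 2) := by
  have hK := R_charZero R
  have h0 := R.finite (tp M n)
  classical
  obtain ⟨b, hb⟩ := hperm R M n
  choose s s' ε hε hs hs' using hb
  obtain ⟨r, g, hli, hle⟩ := t_COUNT n (totalDim R M) ε hε
  refine hle.trans (Nat.mul_le_mul_right _ ?_)
  apply rank_le R hρ r (fun i => s (g i))
  intro a ha
  set x : tp M n ⟶ tp M n := ∑ i, a i • s (g i) with hx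
  set x' : tp M n ⟶ tp M n := ∑ i, a i • s' (g i) with hx'
  set A : Matrix (Fin n → Fin (totalDim R M)) (Fin n → Fin (totalDim R M)) ℚ :=
    ∑ i, a i • sgm (g i) (ε (g i)) with hA
  have hop : ∀ f : Fin r → (tp M n ⟶ tp M n), op R (∑ i, a i • f i) =
      ∑ i, ((a i : ℚ) : K) • op R (f i) := by
    intro f
    have h1 : op R (∑ i, a i • f i) = opHom R (tp M n) (∑ i, a i • f i) := rfl
    rw [h1, map_sum]
    exact Finset.sum_congr rfl fun i _ => op_smul R _ _
  have hmat : ∀ σ, LinearMap.toMatrix b b (op R (s σ)) =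
      (sgm σ (ε σ)).map (fun q : ℚ => (q : K)) := by
    intro σ
    ext J I
    rw [LinearMap.toMatrix_apply, hs, map_smul, Module.Basis.repr_self, Finsupp.smul_apply,
      Finsupp.single_apply, Matrix.map_apply, sgm, Matrix.of_apply]
    by_cases h : I ∘ σ = J
    · rw [if_pos h, if_pos h.symm, smul_eq_mul, mul_one]
    · rw [if_neg h, if_neg (fun h' => h h'.symm), smul_zero, Rat.cast_zero]
  have hmat' : ∀ σ, LinearMap.toMatrix b b (op R (s' σ)) =
      (sgm σ (ε σ)).transpose.map (fun q : ℚ => (q : K)) := by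
    intro σ
    ext J I
    have h1 : (I ∘ ⇑σ.symm) ∘ ⇑σ = I := by
      funext k
      simp
    have h2 := hs' σ (I ∘ ⇑σ.symm)
    rw [h1] at h2
    rw [LinearMap.toMatrix_apply, h2, map_smul, Module.Basis.repr_self, Finsupp.smul_apply,
      Finsupp.single_apply, Matrix.map_apply, Matrix.transpose_apply, sgm, Matrix.of_apply]
    by_cases h : I ∘ ⇑σ.symm = J
    · have h3 : I = J ∘ σ := by rw [← h, h1]
      rw [if_pos h, if_pos h3, smul_eq_mul, mul_one, h]
    · have h3 : ¬ I = J ∘ σ := by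
        intro h'
        apply h
        rw [h']
        funext k
        simp
      rw [if_neg h, if_neg h3, smul_zero, Rat.cast_zero]
  have hm : LinearMap.toMatrix b b (op R x) = A.map (fun q : ℚ => (q : K)) := by
    rw [hx, hop, map_sum]
    ext J I
    rw [Matrix.sum_apply, Matrix.map_apply, hA, Matrix.sum_apply, Rat.cast_sum]
    refine Finset.sum_congr rfl fun i _ => ?_
    rw [map_smul, hmat, Matrix.smul_apply, Matrix.smul_apply, Matrix.map_apply, smul_eq_mul,
      smul_eq_mul, Rat.cast_mul]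
  have hm' : LinearMap.toMatrix b b (op R x') = A.transpose.map (fun q : ℚ => (q : K)) := by
    rw [hx', hop, map_sum]
    ext J I
    rw [Matrix.sum_apply, Matrix.map_apply, Matrix.transpose_apply, hA, Matrix.sum_apply,
      Rat.cast_sum]
    refine Finset.sum_congr rfl fun i _ => ?_
    rw [map_smul, hmat', Matrix.smul_apply, Matrix.smul_apply, Matrix.map_apply,
      Matrix.transpose_apply, smul_eq_mul, smul_eq_mul, Rat.cast_mul]
  have h1 : IsNilpotent (op R (x ≫ x')) := hnil _ (NumZero.comp_right R hU ha x')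
  rw [Pool.Agent.R484.NC.op_comp] at h1
  have h2 : IsNilpotent (LinearMap.toMatrix b b (op R x' * op R x)) := by
    obtain ⟨k, hk⟩ := h1
    exact ⟨k, by rw [LinearMap.toMatrix_pow, hk, map_zero]⟩
  have h3 := (Matrix.isNilpotent_trace_of_isNilpotent h2).eq_zero
  rw [LinearMap.toMatrix_mul, hm, hm'] at h3
  have h4 : ((∑ i, ∑ j, A j i * A j i : ℚ) : K) = 0 := by
    rw [← h3, Matrix.trace]
    push_cast
    refine Finset.sum_congr rfl fun i _ => ?_
    rw [Matrix.diag_apply, Matrix.mul_apply]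
    rfl
  have h5 : (∑ i, ∑ j, A j i * A j i : ℚ) = 0 := by exact_mod_cast h4
  have h6 : A = 0 := by
    ext j i
    have h7 := (Finset.sum_eq_zero_iff_of_nonneg (fun i _ =>
      Finset.sum_nonneg fun j _ => mul_self_nonneg (A j i))).1 h5 i (Finset.mem_univ i)
    have h8 := (Finset.sum_eq_zero_iff_of_nonneg (fun j _ => mul_self_nonneg (A j i))).1 h7 j
      (Finset.mem_univ j)
    exact mul_self_eq_zero.1 h8
  have h7 := Fintype.linearIndependent_iff.1 hli a h6
  funext i
  exact h7 i

end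

end Pool.Agent.H64NC
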