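import Pool.Agent.H64NC.Stm2

/-!
# Project NCA: the piece PERM (helper85)
-/

set_option autoImplicit false
set_option linter.unusedSectionVars false
set_option linter.unusedSimpArgs false
set_option backward.isDefEq.respectTransparency false
set_option backward.defeqAttrib.useBackward true

open CategoryTheory Limits MonoidalCategory
open Pool.Agent.Y112.SR Pool.Agent.Y112.KD Pool.Agent.R484.NC
open scoped TensorProduct

namespace Pool.Agent.H64NC.Perm

universe u v w

/-- a basis of eigenvectors of an involution -/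
theorem exists_basis {K : Type*} {V : Type*} [Field K] [AddCommGroup V] [Module K V]
    [Module.Finite K V] (h2 : (2 : K) ≠ 0) (P : V →ₗ[K] V) (hP : ∀ x, P (P x) = x) :
    ∃ (b : Module.Basis (Fin (Module.finrank K V)) K V) (η : Fin (Module.finrank K V) → Bool),
      ∀ i, P (b i) = (if η i then (-1 : K) else 1) • b i := by
  classical
  have hc : IsCompl (LinearMap.ker (P - LinearMap.id)) (LinearMap.ker (P + LinearMap.id)) := by
    constructor
    · rw [Submodule.disjoint_def]
      intro x h1 h3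
      rw [LinearMap.mem_ker, LinearMap.sub_apply, LinearMap.id_apply, sub_eq_zero] at h1
      rw [LinearMap.mem_ker, LinearMap.add_apply, LinearMap.id_apply, h1, ← two_smul K] at h3
      exact (smul_eq_zero.1 h3).resolve_left h2
    · rw [codisjoint_iff, eq_top_iff]
      intro x _
      rw [Submodule.mem_sup]
      refine ⟨(2 : K)⁻¹ • (x + P x), ?_, (2 : K)⁻¹ • (x - P x), ?_, ?_⟩
      · rw [LinearMap.mem_ker, map_smul, LinearMap.sub_apply, map_add, hP, LinearMap.id_apply]
        rw [add_comm (P x) x, sub_self, smul_zero]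
      · rw [LinearMap.mem_ker, map_smul, LinearMap.add_apply, map_sub, hP, LinearMap.id_apply]
        simp
      · rw [← smul_add, add_add_sub_cancel, ← two_smul K, smul_smul, inv_mul_cancel₀ h2, one_smul]
  let b1 := Module.finBasis K (LinearMap.ker (P - LinearMap.id))
  let b2 := Module.finBasis K (LinearMap.ker (P + LinearMap.id))
  let b := (b1.prod b2).map (Submodule.prodEquivOfIsCompl _ _ hc)
  have hcard := Module.finrank_eq_card_basis b
  let e := Fintype.equivFinOfCardEq hcard.symm
  refine ⟨b.reindex e, fun i => Sum.elim (fun _ => false) (fun _ => true) (e.symm i),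
    fun i => ?_⟩
  rw [Module.Basis.reindex_apply]
  rcases h : e.symm i with j | j
  · have h1 : b (Sum.inl j) = (b1 j : V) := by
      simp [b]
    have h3 : P (b1 j : V) = (b1 j : V) := by
      have := (b1 j).2
      rw [LinearMap.mem_ker, LinearMap.sub_apply, LinearMap.id_apply, sub_eq_zero] at this
      exact this
    rw [h1, h3]
    simp [h]
  · have h1 : b (Sum.inr j) = (b2 j : V) := by
      simp [b]
    have h3 : P (b2 j : V) = -(b2 j : V) := by
      have := (b2 j).2
      rw [LinearMap.mem_ker, LinearMap.add_apply, LinearMap.id_apply] at this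
      exact eq_neg_of_add_eq_zero_left this
    rw [h1, h3]
    simp [h]

section

open Functor.LaxMonoidal Functor.OplaxMonoidal

variable {C : Type u} [Category.{v} C] [Preadditive C] [MonoidalCategory C] [SymmetricCategory C]
  {K : Type w} [Field K] (R : SuperRealisation C K)

/-- the tensor product of two vectors -/
noncomputable def mu {X Y : C} (x : R.H.obj X) (y : R.H.obj Y) : R.H.obj (X ⊗ Y) :=
  (μ R.H X Y).hom (x ⊗ₜ[K] y)

lemma mu_add_left {X Y : C} (x x' : R.H.obj X) (y : R.H.obj Y) :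
    mu R (x + x') y = mu R x y + mu R x' y := by
  rw [mu, TensorProduct.add_tmul, map_add]; rfl

lemma mu_smul_left {X Y : C} (c : K) (x : R.H.obj X) (y : R.H.obj Y) :
    mu R (c • x) y = c • mu R x y := by
  rw [mu, ← TensorProduct.smul_tmul', map_smul]; rfl

lemma mu_smul_right {X Y : C} (c : K) (x : R.H.obj X) (y : R.H.obj Y) :
    mu R x (c • y) = c • mu R x y := by
  rw [mu, TensorProduct.tmul_smul, map_smul]; rfl

lemma mu_right {X Y : C} (s : X ⟶ X) (x : R.H.obj X) (y : R.H.obj Y) :
    op R (s ▷ Y) (mu R x y) = mu R (op R s x) y := by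
  have h := μ_natural_left R.H s Y
  have h1 := congrArg (fun z => z.hom (x ⊗ₜ[K] y)) h
  exact h1.symm

lemma mu_left {X Y : C} (s : Y ⟶ Y) (x : R.H.obj X) (y : R.H.obj Y) :
    op R (X ◁ s) (mu R x y) = mu R x (op R s y) := by
  have h := μ_natural_right R.H X s
  have h1 := congrArg (fun z => z.hom (x ⊗ₜ[K] y)) h
  exact h1.symm

lemma mu_assoc {X Y Z : C} (x : R.H.obj X) (y : R.H.obj Y) (z : R.H.obj Z) :
    (R.H.map (α_ X Y Z).hom).hom (mu R (mu R x y) z) = mu R x (mu R y z) := by
  have h := Functor.LaxMonoidal.associativity (F := R.H) X Y Z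
  have h1 := congrArg (fun f => f.hom ((x ⊗ₜ[K] y) ⊗ₜ[K] z)) h
  exact h1

lemma mu_assoc_inv {X Y Z : C} (x : R.H.obj X) (y : R.H.obj Y) (z : R.H.obj Z) :
    (R.H.map (α_ X Y Z).inv).hom (mu R x (mu R y z)) = mu R (mu R x y) z := by
  rw [← mu_assoc, ← LinearMap.comp_apply, ← ModuleCat.hom_comp, ← Functor.map_comp,
    Iso.hom_inv_id, CategoryTheory.Functor.map_id, ModuleCat.hom_id, LinearMap.id_apply]

lemma mu_braid {X : C} (x y : R.H.obj X) :
    (2 : K) • op R (β_ X X).hom (mu R x y) = mu R y x + mu R y ((R.par X).hom x) +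
      mu R ((R.par X).hom y) x - mu R ((R.par X).hom y) ((R.par X).hom x) := by
  have h := R.symm X X
  have h1 := congrArg (fun f => f.hom (x ⊗ₜ[K] y)) h
  refine h1.trans ?_
  rw [ModuleCat.hom_comp, LinearMap.comp_apply, ModuleCat.hom_sub, ModuleCat.hom_add,
    ModuleCat.hom_add, LinearMap.sub_apply, LinearMap.add_apply, LinearMap.add_apply, map_sub,
    map_add, map_add]
  rfl

end

section

variable {C : Type u} [Category.{v} C] [Preadditive C] [Linear ℚ C] [MonoidalCategory C]
  [MonoidalPreadditive C] [MonoidalLinear ℚ C] [SymmetricCategory C] [RightRigidCategory C]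
  {K : Type w} [Field K] (R : SuperRealisation C K)

/-- sequences of length `n + 1` -/
def seqEquiv (n : ℕ) (A : Type) : (Fin n → A) × A ≃ (Fin (n + 1) → A) where
  toFun p := Fin.snoc (α := fun _ => A) p.1 p.2
  invFun I := (Fin.init I, I (Fin.last n))
  left_inv p := by
    refine Prod.ext ?_ ?_
    · exact Fin.init_snoc (α := fun _ => A) _ _
    · exact Fin.snoc_last (α := fun _ => A) _ _
  right_inv I := Fin.snoc_init_self (α := fun _ => A) I

variable {M : C} {D : ℕ}

/-- the basis of the tensor power -/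
noncomputable def bs (v : Module.Basis (Fin D) K (R.H.obj M)) :
    ∀ n : ℕ, Module.Basis (Fin n → Fin D) K (R.H.obj (tp M n))
  | 0 => (Module.Basis.singleton (Fin 0 → Fin D) K).map
      ((Functor.Monoidal.εIso R.H).toLinearEquiv : K ≃ₗ[K] R.H.obj (𝟙_ C))
  | n + 1 => (((bs v n).tensorProduct v).map
      ((Functor.Monoidal.μIso R.H (tp M n) M).toLinearEquiv :
        TensorProduct K (R.H.obj (tp M n)) (R.H.obj M) ≃ₗ[K] R.H.obj (tp M n ⊗ M))).reindex
      (seqEquiv n (Fin D))

lemma bs_succ (v : Module.Basis (Fin D) K (R.H.obj M)) (n : ℕ) (I : Fin (n + 1) → Fin D) :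
    bs R v (n + 1) I = mu R (bs R v n (Fin.init I)) (v (I (Fin.last n))) := by
  rw [bs, Module.Basis.reindex_apply, Module.Basis.map_apply]
  rw [Module.Basis.tensorProduct_apply']
  rfl

/-- good permutations -/
def Good {n : ℕ} (b : Module.Basis (Fin n → Fin D) K (R.H.obj (tp M n)))
    (σ : Equiv.Perm (Fin n)) : Prop :=
  ∃ (s s' : tp M n ⟶ tp M n) (ε : (Fin n → Fin D) → ℚ), (∀ I, ε I = 1 ∨ ε I = -1) ∧
    (∀ I, op R s (b I) = ((ε I : ℚ) : K) • b (I ∘ σ)) ∧
    (∀ I, op R s' (b (I ∘ σ)) = ((ε I : ℚ) : K) • b I)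

lemma Good.one {n : ℕ} (b : Module.Basis (Fin n → Fin D) K (R.H.obj (tp M n))) :
    Good R b 1 := by
  refine ⟨𝟙 _, 𝟙 _, fun _ => 1, fun _ => Or.inl rfl, fun I => ?_, fun I => ?_⟩
  · rw [Pool.Agent.R484.NC.op_id, Rat.cast_one, one_smul]; rfl
  · rw [Pool.Agent.R484.NC.op_id, Rat.cast_one, one_smul]; rfl

lemma Good.mul {n : ℕ} {b : Module.Basis (Fin n → Fin D) K (R.H.obj (tp M n))}
    [CharZero K] {σ τ : Equiv.Perm (Fin n)} (h1 : Good R b σ) (h2 : Good R b τ) :
    Good R b (σ * τ) := by
  obtain ⟨s, s', ε, hε, hs, hs'⟩ := h1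
  obtain ⟨t, t', δ, hδ, ht, ht'⟩ := h2
  refine ⟨s ≫ t, t' ≫ s', fun I => ε I * δ (I ∘ σ), fun I => ?_, fun I => ?_, fun I => ?_⟩
  · show ε I * δ (I ∘ σ) = 1 ∨ ε I * δ (I ∘ σ) = -1
    rcases hε I with h | h <;> rcases hδ (I ∘ σ) with h' | h' <;> rw [h, h'] <;> simp
  · rw [Pool.Agent.R484.NC.op_comp, Module.End.mul_apply, hs, map_smul, ht, smul_smul, Rat.cast_mul]
    rfl
  · have h3 : I ∘ ⇑(σ * τ) = (I ∘ σ) ∘ τ := rfl
    rw [Pool.Agent.R484.NC.op_comp, Module.End.mul_apply, h3, ht', map_smul, hs', smul_smul, Rat.cast_mul, mul_comm]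

lemma Good.lift (v : Module.Basis (Fin D) K (R.H.obj M)) {n : ℕ} {σ : Equiv.Perm (Fin n)}
    (h : Good R (bs R v n) σ) (σ' : Equiv.Perm (Fin (n + 1)))
    (h1 : ∀ a, σ' (Fin.castSucc a) = Fin.castSucc (σ a)) (h2 : σ' (Fin.last n) = Fin.last n) :
    Good R (bs R v (n + 1)) σ' := by
  obtain ⟨s, s', ε, hε, hs, hs'⟩ := h
  have e1 : ∀ I : Fin (n + 1) → Fin D, Fin.init (α := fun _ => Fin D) (I ∘ σ') =
      (Fin.init (α := fun _ => Fin D) I) ∘ σ := by
    intro I
    funext a
    simp only [Fin.init, Function.comp_apply, h1]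
  have e2 : ∀ I : Fin (n + 1) → Fin D, (I ∘ σ') (Fin.last n) = I (Fin.last n) := by
    intro I
    rw [Function.comp_apply, h2]
  refine ⟨s ▷ M, s' ▷ M, fun I => ε (Fin.init I), fun I => hε _, fun I => ?_, fun I => ?_⟩
  · rw [bs_succ, bs_succ, e1, e2]
    refine (mu_right R s _ _).trans ?_
    rw [hs, mu_smul_left]
  · rw [bs_succ, bs_succ, e1, e2]
    refine (mu_right R s' _ _).trans ?_
    rw [hs', mu_smul_left]

lemma op_sw {Q X : C} (x : R.H.obj Q) (y z : R.H.obj X) (c : K)
    (h : op R (β_ X X).hom (mu R y z) = c • mu R z y) :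
    op R (sw Q X) (mu R (mu R x y) z) = c • mu R (mu R x z) y := by
  have h1 : op R (sw Q X) (mu R (mu R x y) z) = (R.H.map (α_ Q X X).inv).hom
      (op R (Q ◁ (β_ X X).hom) ((R.H.map (α_ Q X X).hom).hom (mu R (mu R x y) z))) := by
    rw [op, sw, Functor.map_comp, Functor.map_comp, ModuleCat.hom_comp, ModuleCat.hom_comp]
    rfl
  rw [h1, mu_assoc, mu_left, h, mu_smul_right, map_smul, mu_assoc_inv]

lemma last_sw [CharZero K] (v : Module.Basis (Fin D) K (R.H.obj M)) (η : Fin D → Bool)
    (hv : ∀ i, (R.par M).hom (v i) = (if η i then (-1 : K) else 1) • v i) (n : ℕ)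
    (σ : Equiv.Perm (Fin (n + 2)))
    (hσ : σ = Equiv.swap (Fin.castSucc (Fin.last n)) (Fin.last (n + 1))) :
    ∃ ε : (Fin (n + 2) → Fin D) → ℚ, (∀ I, ε I = 1 ∨ ε I = -1) ∧
      (∀ I, op R (sw (tp M n) M) (bs R v (n + 2) I) =
        ((ε I : ℚ) : K) • bs R v (n + 2) (I ∘ σ)) ∧
      (∀ I, op R (sw (tp M n) M) (bs R v (n + 2) (I ∘ σ)) =
        ((ε I : ℚ) : K) • bs R v (n + 2) I) := by
  have hb : ∀ i j, op R (β_ M M).hom (mu R (v i) (v j)) =
      (((if η i && η j then -1 else 1 : ℚ)) : K) • mu R (v j) (v i) := by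
    intro i j
    have h1 := mu_braid R (v i) (v j)
    rw [hv, hv] at h1
    simp only [mu_smul_left, mu_smul_right] at h1
    have h2 : (2 : K) ≠ 0 := two_ne_zero
    have h3 := congrArg (fun z => (2 : K)⁻¹ • z) h1
    simp only [smul_smul, inv_mul_cancel₀ h2, one_smul] at h3
    rw [h3]
    have h4 : ∀ w : R.H.obj (M ⊗ M), (2 : K)⁻¹ • ((w + (if η i then (-1 : K) else 1) • w +
        (if η j then (-1 : K) else 1) • w) -
        ((if η i then (-1 : K) else 1) * (if η j then (-1 : K) else 1)) • w) =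
        (((if η i && η j then -1 else 1 : ℚ)) : K) • w := by
      intro w
      have h5 : (2 : K)⁻¹ • ((w + (if η i then (-1 : K) else 1) • w +
        (if η j then (-1 : K) else 1) • w) -
        ((if η i then (-1 : K) else 1) * (if η j then (-1 : K) else 1)) • w) =
        ((2 : K)⁻¹ * (1 + (if η i then (-1 : K) else 1) + (if η j then (-1 : K) else 1) -
          ((if η j then (-1 : K) else 1) * (if η i then (-1 : K) else 1)))) • w := by
        module
      rw [h5]
      congr 1
      cases η i <;> cases η j <;> push_cast <;> norm_num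
    exact h4 _
  have e0 : ∀ I : Fin (n + 2) → Fin D,
      bs R v (n + 2) I = mu R (mu R (bs R v n (Fin.init (Fin.init I)))
        (v (I (Fin.castSucc (Fin.last n))))) (v (I (Fin.last (n + 1)))) := by
    intro I
    rw [bs_succ, bs_succ]
    rfl
  have e1 : ∀ I : Fin (n + 2) → Fin D, Fin.init (α := fun _ => Fin D)
      (Fin.init (α := fun _ => Fin D) (I ∘ σ)) =
      Fin.init (α := fun _ => Fin D) (Fin.init (α := fun _ => Fin D) I) := by
    intro I
    funext a
    simp only [Fin.init, Function.comp_apply]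
    rw [hσ, Equiv.swap_apply_of_ne_of_ne]
    · intro h
      have := congrArg Fin.val h
      simp at this
      omega
    · intro h
      have := congrArg Fin.val h
      simp at this
      omega
  have e2 : ∀ I : Fin (n + 2) → Fin D, (I ∘ σ) (Fin.last (n + 1)) =
      I (Fin.castSucc (Fin.last n)) := by
    intro I
    rw [Function.comp_apply, hσ, Equiv.swap_apply_right]
  have e3 : ∀ I : Fin (n + 2) → Fin D, (I ∘ σ) (Fin.castSucc (Fin.last n)) =
      I (Fin.last (n + 1)) := by
    intro I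
    rw [Function.comp_apply, hσ, Equiv.swap_apply_left]
  refine ⟨fun I => if η (I (Fin.castSucc (Fin.last n))) &&
    η (I (Fin.last (n + 1))) then -1 else 1, fun I => ?_, fun I => ?_, fun I => ?_⟩
  · show (if η (I (Fin.castSucc (Fin.last n))) && η (I (Fin.last (n + 1))) then (-1 : ℚ) else 1) = 1 ∨
      (if η (I (Fin.castSucc (Fin.last n))) && η (I (Fin.last (n + 1))) then (-1 : ℚ) else 1) = -1
    split_ifs
    · exact Or.inr rfl
    · exact Or.inl rfl
  · rw [e0, e0, e1, e2, e3]
    exact op_sw R _ _ _ _ (hb _ _)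
  · rw [e0, e0, e1, e2, e3]
    refine op_sw R _ _ _ _ ?_
    rw [hb, Bool.and_comm]

lemma Good.last [CharZero K] (v : Module.Basis (Fin D) K (R.H.obj M)) (η : Fin D → Bool)
    (hv : ∀ i, (R.par M).hom (v i) = (if η i then (-1 : K) else 1) • v i) (n : ℕ)
    (σ : Equiv.Perm (Fin (n + 2)))
    (hσ : σ = Equiv.swap (Fin.castSucc (Fin.last n)) (Fin.last (n + 1))) :
    Good R (bs R v (n + 2)) σ := by
  obtain ⟨ε, hε, h1, h2⟩ := last_sw R v η hv n σ hσ
  exact ⟨sw (tp M n) M, sw (tp M n) M, ε, hε, h1, h2⟩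

lemma good_swap [CharZero K] (v : Module.Basis (Fin D) K (R.H.obj M)) (η : Fin D → Bool)
    (hv : ∀ i, (R.par M).hom (v i) = (if η i then (-1 : K) else 1) • v i) (n : ℕ) (i : Fin n) :
    Good R (bs R v (n + 1)) (Equiv.swap i.castSucc i.succ) := by
  induction n with
  | zero => exact i.elim0
  | succ n ih =>
    refine Fin.lastCases ?_ (fun j => ?_) i
    · exact Good.last R v η hv n _ (by rw [Fin.succ_last])
    · refine Good.lift R v (ih j) _ (fun a => ?_) ?_
      · rw [← Fin.castSucc_succ]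
        by_cases h1 : a = j.castSucc
        · rw [h1, Equiv.swap_apply_left, Equiv.swap_apply_left]
        · by_cases h2 : a = j.succ
          · rw [h2, Equiv.swap_apply_right, Equiv.swap_apply_right]
          · rw [Equiv.swap_apply_of_ne_of_ne h1 h2, Equiv.swap_apply_of_ne_of_ne]
            · exact fun h => h1 (Fin.castSucc_injective _ h)
            · exact fun h => h2 (Fin.castSucc_injective _ h)
      · rw [← Fin.castSucc_succ, Equiv.swap_apply_of_ne_of_ne]
        · exact (Fin.castSucc_lt_last _).ne'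
        · exact (Fin.castSucc_lt_last _).ne'

lemma good_all [CharZero K] (v : Module.Basis (Fin D) K (R.H.obj M)) (η : Fin D → Bool)
    (hv : ∀ i, (R.par M).hom (v i) = (if η i then (-1 : K) else 1) • v i) (n : ℕ)
    (σ : Equiv.Perm (Fin n)) : Good R (bs R v n) σ := by
  cases n with
  | zero =>
    have : σ = 1 := Subsingleton.elim _ _
    rw [this]
    exact Good.one R _
  | succ n =>
    let S : Submonoid (Equiv.Perm (Fin (n + 1))) :=
      { carrier := {σ | Good R (bs R v (n + 1)) σ}
        mul_mem' := fun h1 h2 => Good.mul R h1 h2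
        one_mem' := Good.one R _ }
    have h1 : Submonoid.closure (Set.range fun i : Fin n => Equiv.swap i.castSucc i.succ) ≤ S := by
      rw [Submonoid.closure_le]
      rintro _ ⟨i, rfl⟩
      exact good_swap R v η hv n i
    rw [Equiv.Perm.mclosure_swap_castSucc_succ] at h1
    exact h1 (Submonoid.mem_top σ)

end

end Pool.Agent.H64NC.Perm

namespace Pool.Agent.H64NC

universe u v w

/-- **PERM** -/
theorem t_PERM : S_PERM.{u, v, w} := by
  intro C _ _ _ _ _ _ _ _ K _ R M n
  have hK := Pool.Agent.Y112.SR.R_charZero R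
  have hf := R.finite M
  obtain ⟨b, η, hb⟩ := Perm.exists_basis (K := K) (V := R.H.obj M) two_ne_zero (R.par M).hom
    (fun x => by
      have h := congrArg (fun f => f.hom x) (R.par_sq M)
      exact h)
  exact ⟨Perm.bs R b n, fun σ => Perm.good_all R b η hb n σ⟩

end Pool.Agent.H64NC
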