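import Pool.Agent.H64NC.Fin3
import Pool.Agent.H64NC.Perm

/-!
# Project NCA (helper64): the asymptotic sign conjecture, closure properties
-/

set_option autoImplicit false
set_option linter.unusedSectionVars false

open CategoryTheory Limits MonoidalCategory Filter Topology
open Pool.Agent.Y112.SR Pool.Agent.Y112.KD Pool.Agent.Y112.SC Pool.Agent.R484.NC

namespace Pool.Agent.H64NC

universe u v w

section

variable {C : Type u} [Category.{v} C] [Preadditive C] [Linear ℚ C] [MonoidalCategory C]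
  [MonoidalPreadditive C] [MonoidalLinear ℚ C] [SymmetricCategory C] [RightRigidCategory C]

/-- The asymptotic sign conjecture for `M` and the realisation `R`: for all real numbers `0 ≤ x < dim R(M)` there are
`n ≥ 1` and a numerical involution of the tensor power `M ^ n` whose trace is at least `x ^ n`. -/
def AsyCPlus (hU : UnitQ C) {K : Type w} [Field K] (R : SuperRealisation C K) (M : C) : Prop :=
  ∀ x : ℝ, 0 ≤ x → x < totalDim R M → ∃ (n : ℕ) (w : tp M n ⟶ tp M n), 1 ≤ n ∧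
    NumInvolution hU w ∧ x ^ n ≤ (ctr hU w : ℝ)

/-- The numerically trivial endomorphisms of all tensor powers of `M` are nilpotent in the realisation `R`. -/
def TensorNilpotent (hU : UnitQ C) {K : Type w} [Field K] (R : SuperRealisation C K) (M : C) :
    Prop :=
  ∀ (n : ℕ) (f : tp M n ⟶ tp M n), NumZero hU f → IsNilpotent (R.H.map f).hom

variable {K : Type w} [Field K] (R : SuperRealisation C K) {hU : UnitQ C}

lemma asy_iff_low {M : C} {ρ : ℕ → ℕ} (hρ : ∀ n, IsIdx hU (tp M n) (ρ n)) :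
    AsyCPlus hU R M ↔ ∀ x : ℝ, 0 ≤ x → x < totalDim R M → ∃ n : ℕ, 1 ≤ n ∧ x ^ n ≤ ρ n := by
  constructor
  · intro h x hx0 hx
    obtain ⟨n, y, hn, hy, hyx⟩ := h x hx0 hx
    refine ⟨n, hn, hyx.trans ?_⟩
    have h1 := (hρ n).2 ⟨y, hy, rfl⟩
    exact_mod_cast h1
  · intro h x hx0 hx
    obtain ⟨n, hn, hxn⟩ := h x hx0 hx
    obtain ⟨y, hy, hyn⟩ := (hρ n).1
    refine ⟨n, y, hn, hy, ?_⟩
    rw [hyn]
    exact_mod_cast hxn

lemma nil_iff {M : C} : TensorNilpotent hU R M ↔ Nil R hU M := Iff.rfl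

theorem asy_iff_nil (M : C) : AsyCPlus hU R M ↔ Nil R hU M := by
  choose ρ hρ using fun X : C => exists_index_obj R hU X
  have hρ' : ∀ n, IsIdx hU (tp M n) (ρ (tp M n)) := fun n => hρ _
  rw [asy_iff_low R hρ']
  exact (tfae R hρ' t_PERM).out 1 2

/-- Closure properties of the asymptotic sign conjecture. -/
theorem asy_closure (hU : UnitQ C) :
    (∀ M, AsyCPlus hU R M ↔ TensorNilpotent hU R M) ∧
    (∀ M, R.CPlus M → AsyCPlus hU R M) ∧
    (∀ M N, AsyCPlus hU R M → AsyCPlus hU R N → AsyCPlus hU R (M ⊗ N)) ∧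
    (∀ M N, totalDim R N ≠ 0 → AsyCPlus hU R (M ⊗ N) → AsyCPlus hU R M) ∧
    (∀ M N S, IsSum M N S → (AsyCPlus hU R S ↔ AsyCPlus hU R M ∧ AsyCPlus hU R N)) ∧
    (∀ M {K' : Type w} [Field K'] (R' : SuperRealisation C K'), AsyCPlus hU R' M →
      totalDim R' M ≤ totalDim R M ∧ (AsyCPlus hU R M ↔ totalDim R M = totalDim R' M)) := by
  refine ⟨fun M => asy_iff_nil R M, fun M h => (asy_iff_nil R M).2 (nil_of_cplus R h),
    fun M N hM hN => ?_, fun M N hN h => ?_, fun M N S hS => ?_, fun M K' _ R' h' => ?_⟩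
  · rw [asy_iff_nil] at *
    exact nil_tensor t_PERM hM hN
  · rw [asy_iff_nil] at *
    exact nil_of_tensor hN h
  · rw [asy_iff_nil, asy_iff_nil, asy_iff_nil]
    constructor
    · intro h
      obtain ⟨i, r, i', r', h1, h2, -, -, -⟩ := hS
      exact ⟨nil_retract i r h1 h, nil_retract i' r' h2 h⟩
    · rintro ⟨h1, h2⟩
      exact nil_sum t_PERM hS h1 h2
  · rw [asy_iff_nil] at h'
    rw [asy_iff_nil]
    choose ρ hρ using fun X : C => exists_index_obj R hU X
    have hρ' : ∀ n, IsIdx hU (tp M n) (ρ (tp M n)) := fun n => hρ _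
    exact dim_le_of_nil R hρ' t_PERM R' h'

end

end Pool.Agent.H64NC
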