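import Pool.Agent.H64NC.Fin2

/-!
# Project NCA (helper64): sums, tensor products and summands
-/

set_option autoImplicit false
set_option linter.unusedSectionVars false

open CategoryTheory Limits MonoidalCategory Filter Topology
open Pool.Agent.Y112.SR Pool.Agent.Y112.KD Pool.Agent.Y112.SC Pool.Agent.R484.NC

namespace Pool.Agent.H64NC

universe u v w

/-- Polynomial errors are harmless. -/
theorem low_of_poly {ρ : ℕ → ℕ} {D c : ℕ} (h : ∀ n, D ^ n ≤ ρ n * (n + 1) ^ c) (x : ℝ)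
    (hx0 : 0 ≤ x) (hx : x < D) : ∃ n : ℕ, 1 ≤ n ∧ x ^ n ≤ ρ n := by
  rcases hx0.eq_or_lt with h0 | h0
  · refine ⟨1, le_refl _, ?_⟩
    rw [← h0]
    simp
  · have h1 : 1 < (D : ℝ) / x := by rw [lt_div_iff₀ h0]; linarith
    have h2 : Tendsto (fun n : ℕ => ((n : ℝ)) ^ c / ((D : ℝ) / x) ^ n) atTop (𝓝 0) :=
      tendsto_pow_const_div_const_pow_of_one_lt c h1
    have h3 := (tendsto_add_atTop_iff_nat 1).2 h2
    have h4 : (0 : ℝ) < 1 / ((D : ℝ) / x) := by positivity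
    obtain ⟨n, hn, hn1⟩ := ((h3.eventually_lt_const h4).and (eventually_ge_atTop 1)).exists
    refine ⟨n, hn1, ?_⟩
    have h5 : (0 : ℝ) < ((D : ℝ) / x) ^ (n + 1) := by positivity
    rw [div_lt_iff₀ h5] at hn
    have h6 : (((n + 1 : ℕ) : ℝ)) ^ c < ((D : ℝ) / x) ^ n := by
      have h7 : 1 / ((D : ℝ) / x) * ((D : ℝ) / x) ^ (n + 1) = ((D : ℝ) / x) ^ n := by
        have h8 : (D : ℝ) / x ≠ 0 := by positivity
        rw [pow_succ, one_div, mul_comm (((D : ℝ) / x) ^ n), ← mul_assoc, inv_mul_cancel₀ h8,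
          one_mul]
      rwa [h7] at hn
    have h7 : ((D : ℝ) ^ n) ≤ ρ n * ((n + 1 : ℕ) : ℝ) ^ c := by exact_mod_cast h n
    have h8 : (D : ℝ) ^ n ≤ ρ n * ((D : ℝ) / x) ^ n :=
      h7.trans (mul_le_mul_of_nonneg_left h6.le (by positivity))
    rw [div_pow, mul_div_assoc', le_div_iff₀ (by positivity)] at h8
    have hD : (0 : ℝ) < (D : ℝ) ^ n := by
      have : (0 : ℝ) < D := h0.trans hx
      positivity
    nlinarith

section Isos

variable {C : Type u} [Category.{v} C] [MonoidalCategory C] [SymmetricCategory C]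

/-- The tensor powers of a tensor product. -/
lemma tp_tensor (M N : C) (n : ℕ) : Nonempty (tp (M ⊗ N) n ≅ tp M n ⊗ tp N n) := by
  induction n with
  | zero => exact ⟨(λ_ (𝟙_ C)).symm⟩
  | succ n ih =>
    obtain ⟨e⟩ := ih
    refine ⟨whiskerRightIso e (M ⊗ N) ≪≫ α_ _ _ _ ≪≫
      whiskerLeftIso (tp M n) ((α_ (tp N n) M N).symm ≪≫
        whiskerRightIso (β_ (tp N n) M) N ≪≫ α_ M (tp N n) N) ≪≫ (α_ _ _ _).symm⟩

end Isos

section

variable {C : Type u} [Category.{v} C] [Preadditive C] [Linear ℚ C] [MonoidalCategory C]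
  [MonoidalPreadditive C] [MonoidalLinear ℚ C] [SymmetricCategory C] [RightRigidCategory C]

/-- Tensoring a direct sum. -/
lemma isSum_whiskerLeft (A : C) {M N S : C} (h : IsSum M N S) :
    IsSum (A ⊗ M) (A ⊗ N) (A ⊗ S) := by
  obtain ⟨i, r, i', r', h1, h2, h3, h4, h5⟩ := h
  refine ⟨A ◁ i, A ◁ r, A ◁ i', A ◁ r', ?_, ?_, ?_, ?_, ?_⟩
  · rw [← MonoidalCategory.whiskerLeft_comp, h1, MonoidalCategory.whiskerLeft_id]
  · rw [← MonoidalCategory.whiskerLeft_comp, h2, MonoidalCategory.whiskerLeft_id]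
  · rw [← MonoidalCategory.whiskerLeft_comp, h3, MonoidalPreadditive.whiskerLeft_zero]
  · rw [← MonoidalCategory.whiskerLeft_comp, h4, MonoidalPreadditive.whiskerLeft_zero]
  · rw [← MonoidalCategory.whiskerLeft_comp, ← MonoidalCategory.whiskerLeft_comp,
      ← MonoidalPreadditive.whiskerLeft_add, h5, MonoidalCategory.whiskerLeft_id]

lemma isSum_iso {M M' N N' S S' : C} (e : M ≅ M') (e' : N ≅ N') (e'' : S ≅ S')
    (h : IsSum M N S) : IsSum M' N' S' := by
  obtain ⟨i, r, i', r', h1, h2, h3, h4, h5⟩ := h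
  refine ⟨e.inv ≫ i ≫ e''.hom, e''.inv ≫ r ≫ e.hom, e'.inv ≫ i' ≫ e''.hom,
    e''.inv ≫ r' ≫ e'.hom, ?_, ?_, ?_, ?_, ?_⟩
  · simp [reassoc_of% h1]
  · simp [reassoc_of% h2]
  · simp [reassoc_of% h3]
  · simp [reassoc_of% h4]
  · have h6 : (e''.inv ≫ r ≫ e.hom) ≫ e.inv ≫ i ≫ e''.hom +
        (e''.inv ≫ r' ≫ e'.hom) ≫ e'.inv ≫ i' ≫ e''.hom =
        e''.inv ≫ (r ≫ i + r' ≫ i') ≫ e''.hom := by
      simp
    rw [h6, h5]
    simp

variable {K : Type w} [Field K] (R : SuperRealisation C K) {hU : UnitQ C}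
  {ρ : C → ℕ} (hρ : ∀ X, IsIdx hU X (ρ X)) (hmul : ∀ M N, ρ M * ρ N ≤ ρ (M ⊗ N))
  (hadd : ∀ M N S, IsSum M N S → ρ M + ρ N ≤ ρ S)

include R hρ in
lemma rho_iso {X Y : C} (e : X ≅ Y) : ρ X = ρ Y :=
  le_antisymm (idx_iso R e (hρ X) (hρ Y)) (idx_iso R e.symm (hρ Y) (hρ X))

include R hρ hmul hadd in
/-- The tensor powers of a sum. -/
lemma rho_sum {M N S : C} (hS : IsSum M N S) (n : ℕ) : ∀ a b : ℕ,
    ∑ k ∈ Finset.range (n + 1), n.choose k * (ρ (tp M (a + k)) * ρ (tp N (b + (n - k)))) ≤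
      ρ (tp S n ⊗ (tp M a ⊗ tp N b)) := by
  induction n with
  | zero =>
    intro a b
    rw [Finset.sum_range_one, Nat.choose_self, one_mul, add_zero, Nat.sub_self, add_zero]
    refine (hmul _ _).trans (le_of_eq ?_)
    exact rho_iso R hρ (λ_ _).symm
  | succ n ih =>
    intro a b
    have hsum : IsSum (tp S n ⊗ (tp M (a + 1) ⊗ tp N b)) (tp S n ⊗ (tp M a ⊗ tp N (b + 1)))
        (tp S (n + 1) ⊗ (tp M a ⊗ tp N b)) := by
      have h1 := isSum_whiskerLeft (tp S n ⊗ (tp M a ⊗ tp N b)) hS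
      refine isSum_iso ?_ ?_ ?_ h1
      · exact α_ _ _ _ ≪≫ whiskerLeftIso (tp S n) (α_ _ _ _ ≪≫
          whiskerLeftIso (tp M a) (β_ (tp N b) M) ≪≫ (α_ _ _ _).symm)
      · exact α_ _ _ _ ≪≫ whiskerLeftIso (tp S n) (α_ _ _ _)
      · exact α_ _ _ _ ≪≫ whiskerLeftIso (tp S n) (β_ _ S) ≪≫ (α_ _ _ _).symm
    refine le_trans ?_ (hadd _ _ _ hsum)
    refine le_trans ?_ (add_le_add (ih (a + 1) b) (ih a (b + 1)))
    rw [Finset.sum_range_succ' _ (n + 1)]
    have e1 : ∑ k ∈ Finset.range (n + 1), (n + 1).choose (k + 1) *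
        (ρ (tp M (a + (k + 1))) * ρ (tp N (b + (n + 1 - (k + 1))))) =
        ∑ k ∈ Finset.range (n + 1), n.choose k *
          (ρ (tp M (a + 1 + k)) * ρ (tp N (b + (n - k)))) +
        ∑ k ∈ Finset.range (n + 1), n.choose (k + 1) *
          (ρ (tp M (a + (k + 1))) * ρ (tp N (b + 1 + (n - (k + 1))))) := by
      rw [← Finset.sum_add_distrib]
      refine Finset.sum_congr rfl fun k hk => ?_
      rw [Finset.mem_range] at hk
      have e2 : a + 1 + k = a + (k + 1) := by ring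
      have e3 : n + 1 - (k + 1) = n - k := by omega
      rw [Nat.choose_succ_succ, e2, e3, add_mul]
      congr 1
      rcases Nat.lt_or_ge k n with h | h
      · have e4 : b + 1 + (n - (k + 1)) = b + (n - k) := by omega
        rw [e4]
      · have e4 : n.choose (k + 1) = 0 := Nat.choose_eq_zero_of_lt (by omega)
        rw [e4, zero_mul, zero_mul]
    have e5 : ∑ k ∈ Finset.range (n + 1), n.choose k *
        (ρ (tp M (a + k)) * ρ (tp N (b + 1 + (n - k)))) =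
        ∑ k ∈ Finset.range (n + 1), n.choose (k + 1) *
          (ρ (tp M (a + (k + 1))) * ρ (tp N (b + 1 + (n - (k + 1))))) +
        (ρ (tp M a) * ρ (tp N (b + 1 + n))) := by
      have h1 := Finset.sum_range_succ' (fun k => n.choose k *
        (ρ (tp M (a + k)) * ρ (tp N (b + 1 + (n - k))))) n
      rw [h1, Nat.choose_zero_right, one_mul, add_zero, Nat.sub_zero]
      congr 1
      rw [Finset.sum_range_succ]
      have e4 : n.choose (n + 1) = 0 := Nat.choose_eq_zero_of_lt (by omega)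
      rw [e4, zero_mul, add_zero]
    rw [e1, e5, Nat.choose_zero_right, one_mul, add_zero, Nat.sub_zero]
    have e6 : b + (n + 1) = b + 1 + n := by ring
    rw [e6]
    omega


section

variable {R} {hU : UnitQ C}

/-- The polynomial form of the criterion. -/
lemma nil_of_poly {M : C} {ρ : ℕ → ℕ} (hρ : ∀ n, IsIdx hU (tp M n) (ρ n)) {c : ℕ}
    (h : ∀ n, totalDim R M ^ n ≤ ρ n * (n + 1) ^ c) : Nil R hU M :=
  nil_of_low R hρ (fun x hx0 hx => low_of_poly h x hx0 hx)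

lemma poly_of_nil (hperm : S_PERM.{u, v, w}) {M : C} {ρ : ℕ → ℕ}
    (hρ : ∀ n, IsIdx hU (tp M n) (ρ n)) (h : Nil R hU M) (n : ℕ) :
    totalDim R M ^ n ≤ ρ n * (n + 1) ^ (totalDim R M ^ 2) := by
  have h1 := lower R hperm n (hρ n) (h n)
  have h2 : (totalDim R M ^ n) ^ 2 ≤ (ρ n * (n + 1) ^ (totalDim R M ^ 2)) ^ 2 := by
    calc (totalDim R M ^ n) ^ 2 = totalDim R M ^ (2 * n) := by rw [← pow_mul, mul_comm]
      _ ≤ ρ n ^ 2 * (n + 1) ^ (totalDim R M ^ 2) := h1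
      _ ≤ ρ n ^ 2 * ((n + 1) ^ (totalDim R M ^ 2)) ^ 2 := by
        apply Nat.mul_le_mul_left
        calc (n + 1) ^ (totalDim R M ^ 2) = ((n + 1) ^ (totalDim R M ^ 2)) ^ 1 := by rw [pow_one]
          _ ≤ _ := Nat.pow_le_pow_right (by positivity) (by norm_num)
      _ = _ := by rw [mul_pow]
  exact (Nat.pow_le_pow_iff_left (by norm_num)).1 h2

/-- **Tensor products.** -/
theorem nil_tensor (hperm : S_PERM.{u, v, w}) {M N : C} (hM : Nil R hU M) (hN : Nil R hU N) :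
    Nil R hU (M ⊗ N) := by
  obtain ⟨ρ, hρ, -, hmul, hadd⟩ := exists_index hU R
  have hρ' : ∀ X, IsIdx hU X (ρ X) := hρ
  apply nil_of_poly (ρ := fun n => ρ (tp (M ⊗ N) n)) (fun n => hρ' _)
    (c := totalDim R M ^ 2 + totalDim R N ^ 2)
  intro n
  have h1 := poly_of_nil hperm (ρ := fun n => ρ (tp M n)) (fun n => hρ' _) hM n
  have h2 := poly_of_nil hperm (ρ := fun n => ρ (tp N n)) (fun n => hρ' _) hN n
  obtain ⟨e⟩ := tp_tensor M N n
  have h3 : ρ (tp M n) * ρ (tp N n) ≤ ρ (tp (M ⊗ N) n) :=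
    (hmul _ _).trans (le_of_eq (rho_iso R hρ' e.symm))
  rw [totalDim_tensor, mul_pow]
  calc totalDim R M ^ n * totalDim R N ^ n ≤
      (ρ (tp M n) * (n + 1) ^ (totalDim R M ^ 2)) * (ρ (tp N n) * (n + 1) ^ (totalDim R N ^ 2)) :=
        Nat.mul_le_mul h1 h2
    _ = (ρ (tp M n) * ρ (tp N n)) * (n + 1) ^ (totalDim R M ^ 2 + totalDim R N ^ 2) := by
        rw [pow_add]; ring
    _ ≤ _ := Nat.mul_le_mul_right _ h3

lemma totalDim_sum {M N S : C} (hS : IsSum M N S) :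
    totalDim R S = totalDim R M + totalDim R N := by
  have hK := R_charZero R
  have f1 := R.finite M
  have f2 := R.finite N
  have f3 := R.finite S
  obtain ⟨i, r, i', r', h1, h2, h3, h4, h5⟩ := hS
  have t1 : LinearMap.trace K (R.H.obj S) (R.H.map (r ≫ i)).hom = (totalDim R M : K) := by
    rw [Functor.map_comp, ModuleCat.hom_comp]
    have h6 := LinearMap.trace_comp_comm' (R := K) (R.H.map r).hom (R.H.map i).hom
    refine h6.trans ?_
    rw [← ModuleCat.hom_comp, ← Functor.map_comp, h1, CategoryTheory.Functor.map_id,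
      ModuleCat.hom_id, LinearMap.trace_id]
    rfl
  have t2 : LinearMap.trace K (R.H.obj S) (R.H.map (r' ≫ i')).hom = (totalDim R N : K) := by
    rw [Functor.map_comp, ModuleCat.hom_comp]
    have h6 := LinearMap.trace_comp_comm' (R := K) (R.H.map r').hom (R.H.map i').hom
    refine h6.trans ?_
    rw [← ModuleCat.hom_comp, ← Functor.map_comp, h2, CategoryTheory.Functor.map_id,
      ModuleCat.hom_id, LinearMap.trace_id]
    rfl
  have t3 : LinearMap.trace K (R.H.obj S) (R.H.map (𝟙 S)).hom = (totalDim R S : K) := by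
    rw [CategoryTheory.Functor.map_id, ModuleCat.hom_id, LinearMap.trace_id]
    rfl
  rw [← h5, Functor.map_add, ModuleCat.hom_add, map_add, t1, t2] at t3
  exact_mod_cast t3.symm

/-- **Direct sums.** -/
theorem nil_sum (hperm : S_PERM.{u, v, w}) {M N S : C} (hS : IsSum M N S) (hM : Nil R hU M)
    (hN : Nil R hU N) : Nil R hU S := by
  obtain ⟨ρ, hρ, -, hmul, hadd⟩ := exists_index hU R
  have hρ' : ∀ X, IsIdx hU X (ρ X) := hρ
  apply nil_of_poly (ρ := fun n => ρ (tp S n)) (fun n => hρ' _)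
    (c := totalDim R M ^ 2 + totalDim R N ^ 2)
  intro n
  have h1 := poly_of_nil hperm (ρ := fun n => ρ (tp M n)) (fun n => hρ' _) hM
  have h2 := poly_of_nil hperm (ρ := fun n => ρ (tp N n)) (fun n => hρ' _) hN
  have h3 := rho_sum R hρ' hmul hadd hS n 0 0
  have h4 : ρ (tp S n ⊗ (tp M 0 ⊗ tp N 0)) = ρ (tp S n) :=
    rho_iso R hρ' (whiskerLeftIso _ (λ_ (𝟙_ C)) ≪≫ ρ_ _)
  rw [h4] at h3
  simp only [zero_add] at h3
  rw [totalDim_sum hS, add_pow]
  refine le_trans ?_ (Nat.mul_le_mul_right _ h3)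
  rw [Finset.sum_mul]
  refine Finset.sum_le_sum fun k hk => ?_
  rw [Finset.mem_range] at hk
  have h5 : totalDim R M ^ k ≤ ρ (tp M k) * (n + 1) ^ (totalDim R M ^ 2) :=
    (h1 k).trans (Nat.mul_le_mul_left _ (Nat.pow_le_pow_left (by omega) _))
  have h6 : totalDim R N ^ (n - k) ≤ ρ (tp N (n - k)) * (n + 1) ^ (totalDim R N ^ 2) :=
    (h2 (n - k)).trans (Nat.mul_le_mul_left _ (Nat.pow_le_pow_left (by omega) _))
  calc totalDim R M ^ k * totalDim R N ^ (n - k) * n.choose k ≤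
      (ρ (tp M k) * (n + 1) ^ (totalDim R M ^ 2)) *
        (ρ (tp N (n - k)) * (n + 1) ^ (totalDim R N ^ 2)) * n.choose k :=
        Nat.mul_le_mul_right _ (Nat.mul_le_mul h5 h6)
    _ = _ := by rw [pow_add]; ring

lemma tpm_comp {X Y Z : C} (f : X ⟶ Y) (g : Y ⟶ Z) (n : ℕ) :
    tpm f n ≫ tpm g n = tpm (f ≫ g) n := by
  induction n with
  | zero => exact Category.comp_id _
  | succ n ih =>
    change (tpm f n ⊗ₘ f) ≫ (tpm g n ⊗ₘ g) = tpm (f ≫ g) n ⊗ₘ (f ≫ g)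
    rw [tensorHom_comp_tensorHom, ih]

lemma tpm_id (X : C) (n : ℕ) : tpm (𝟙 X) n = 𝟙 _ := by
  induction n with
  | zero => rfl
  | succ n ih =>
    change tpm (𝟙 X) n ⊗ₘ 𝟙 X = 𝟙 _
    rw [ih, id_tensorHom_id]

/-- **Direct summands.** -/
theorem nil_retract {M S : C} (i : M ⟶ S) (r : S ⟶ M) (hir : i ≫ r = 𝟙 M)
    (hS : Nil R hU S) : Nil R hU M := by
  intro n f hf
  have h1 : tpm i n ≫ tpm r n = 𝟙 _ := by rw [tpm_comp, hir, tpm_id]
  have h2 : NumZero hU (tpm r n ≫ f ≫ tpm i n) := by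
    intro g
    have h3 := hf (tpm i n ≫ g ≫ tpm r n)
    rw [← h3, Category.assoc, Category.assoc, ctr_comm R]
    simp only [Category.assoc]
  obtain ⟨k, hk⟩ := hS n _ h2
  have h3 : ∀ k : ℕ, R.H.map (tpm i n) ≫ R.H.map (pw (tpm r n ≫ f ≫ tpm i n) k) ≫
      R.H.map (tpm r n) = R.H.map (pw f k) := by
    intro k
    rw [← Functor.map_comp, ← Functor.map_comp]
    congr 1
    induction k with
    | zero => rw [pw, pw, Category.id_comp, h1]
    | succ k ih =>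
      rw [pw, pw, ← ih]
      simp only [Category.assoc]
      rw [reassoc_of% h1]
  refine ⟨k, ?_⟩
  rw [← op_pw, op, ← h3]
  have h4 : R.H.map (pw (tpm r n ≫ f ≫ tpm i n) k) = 0 := by
    apply ModuleCat.hom_ext
    rw [← op_pw] at hk
    exact hk
  rw [h4, zero_comp, comp_zero]
  rfl


lemma eq_zero_of_bx {Q X : C} (hX : totalDim R X ≠ 0) (a : R.H.obj Q ⟶ R.H.obj Q)
    (h : bx R a (𝟙 (R.H.obj X)) = 0) : a = 0 := by
  have hK := R_charZero R
  have hf := R.finite X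
  have h2 : (2 : K) ≠ 0 := two_ne_zero
  have h4 : bx R a (R.par X) = 0 := by
    have h5 := bx_comp R a (𝟙 _) (𝟙 (R.H.obj X)) (R.par X)
    rw [h, zero_comp, Category.comp_id, Category.id_comp] at h5
    exact h5.symm
  have h5 := PT_bx R h2 a (R.par X)
  rw [h4, R.par_sq, ModuleCat.hom_id, LinearMap.trace_id] at h5
  have h6 : PT R (0 : R.H.obj (Q ⊗ X) ⟶ R.H.obj (Q ⊗ X)) = 0 := by
    have h := PT_smul R (0 : K) (0 : R.H.obj (Q ⊗ X) ⟶ R.H.obj (Q ⊗ X))
    simpa using h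
  rw [h6] at h5
  have h7 : ((Module.finrank K (R.H.obj X) : ℕ) : K) ≠ 0 := by exact_mod_cast hX
  exact (smul_eq_zero.1 h5.symm).resolve_left h7

/-- **Factors of tensor products.** -/
theorem nil_of_tensor {M N : C} (hN : totalDim R N ≠ 0) (h : Nil R hU (M ⊗ N)) :
    Nil R hU M := by
  intro n f hf
  obtain ⟨e⟩ := tp_tensor M N n
  have h1 : NumZero hU (e.hom ≫ (f ▷ tp N n) ≫ e.inv) := by
    intro g
    have h3 := numZero_whiskerRight R hU (tp N n) hf (e.inv ≫ g ≫ e.hom)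
    rw [← h3, Category.assoc, Category.assoc, ctr_comm R]
    simp only [Category.assoc]
  obtain ⟨k, hk⟩ := h n _ h1
  have h3 : ∀ k : ℕ, R.H.map e.inv ≫ R.H.map (pw (e.hom ≫ (f ▷ tp N n) ≫ e.inv) k) ≫
      R.H.map e.hom = bx R (R.H.map (pw f k)) (𝟙 _) := by
    intro k
    rw [← map_whiskerRight_eq, ← Functor.map_comp, ← Functor.map_comp]
    congr 1
    induction k with
    | zero => simp [pw]
    | succ k ih =>
      rw [pw, pw, comp_whiskerRight, ← ih]
      simp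
  have h4 : R.H.map (pw (e.hom ≫ (f ▷ tp N n) ≫ e.inv) k) = 0 := by
    apply ModuleCat.hom_ext
    rw [← op_pw] at hk
    exact hk
  have h5 := h3 k
  rw [h4, zero_comp, comp_zero] at h5
  have h6 : totalDim R (tp N n) ≠ 0 := by
    rw [totalDim_tp]
    exact pow_ne_zero _ hN
  have h7 := eq_zero_of_bx h6 _ h5.symm
  refine ⟨k, ?_⟩
  rw [← op_pw, op, h7]
  rfl

end

end

end Pool.Agent.H64NC
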