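import Pool.Agent.H64NC.Stm4

/-!
# Project NCA, piece CMT: products on one factor and super commutators (helper21)
-/

set_option autoImplicit false
set_option linter.unusedSectionVars false

open CategoryTheory Limits MonoidalCategory
open Pool.Agent.Y112.SR Pool.Agent.Y112.KD Pool.Agent.Y112.SC Pool.Agent.R484.NC

namespace Pool.Agent.H64NC

universe u v w

section

variable {C : Type u} [Category.{v} C] [Preadditive C] [Linear ℚ C] [MonoidalCategory C]
  [MonoidalPreadditive C] [MonoidalLinear ℚ C] [SymmetricCategory C] [RightRigidCategory C]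
  {K : Type w} [Field K] (R : SuperRealisation C K)

namespace CMT

lemma bx_zero_right {Q X : C} (b : R.H.obj Q ⟶ R.H.obj Q) :
    bx R b (0 : R.H.obj X ⟶ R.H.obj X) = 0 := by
  have := bx_smul_right R (0 : K) b (0 : R.H.obj X ⟶ R.H.obj X)
  simpa using this

lemma Ps_comp {M : C} (t : Bool) (g h : R.H.obj M ⟶ R.H.obj M) : ∀ (n : ℕ) (i : Fin n),
    Ps R t g n i ≫ Ps R false h n i = Ps R t (g ≫ h) n i := by
  intro n
  induction n with
  | zero => exact fun i => i.elim0
  | succ n ih =>
    intro i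
    induction i using Fin.lastCases with
    | last =>
      rw [Ps_last, Ps_last, Ps_last, bx_comp]
      simp [pw1]
    | cast j =>
      rw [Ps_castSucc, Ps_castSucc, Ps_castSucc, bx_comp, ih j, Category.comp_id]

lemma Et_add {M : C} (t : Bool) (g h : R.H.obj M ⟶ R.H.obj M) : ∀ n : ℕ,
    Et R t (g + h) n = Et R t g n + Et R t h n := by
  intro n
  induction n with
  | zero => rw [Et_zero, Et_zero, Et_zero, add_zero]
  | succ n ih =>
    rw [Et_succ, Et_succ, Et_succ, ih, bx_add_left, bx_add_right]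
    abel

lemma Et_smul {M : C} (t : Bool) (c : K) (g : R.H.obj M ⟶ R.H.obj M) : ∀ n : ℕ,
    Et R t (c • g) n = c • Et R t g n := by
  intro n
  induction n with
  | zero => rw [Et_zero, Et_zero, smul_zero]
  | succ n ih => rw [Et_succ, Et_succ, ih, bx_smul_left, bx_smul_right, smul_add]

/-- the sign -/
def sg (K : Type w) [Field K] (t : Bool) : K := if t then -1 else 1

lemma sg_mul (t : Bool) : sg K t * sg K t = 1 := by cases t <;> simp [sg]

lemma pw1_sq (t : Bool) (X : C) : pw1 R t X ≫ pw1 R t X = 𝟙 _ := by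
  cases t
  · simp [pw1]
  · simp [pw1, R.par_sq]

lemma pw1_par (t : Bool) (X : C) : pw1 R t X ≫ R.par X = R.par X ≫ pw1 R t X := by
  cases t <;> simp [pw1]

/-- (b) -/
lemma Et_par {M : C} (t : Bool) (g : R.H.obj M ⟶ R.H.obj M) (hg : Od R t g) : ∀ n : ℕ,
    Et R t g n ≫ R.par (tp M n) = sg K t • (R.par (tp M n) ≫ Et R t g n) := by
  intro n
  induction n with
  | zero => rw [Et_zero, Limits.zero_comp, Limits.comp_zero, smul_zero]
  | succ n ih =>
    have hg' : g ≫ R.par M = sg K t • (R.par M ≫ g) := hg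
    rw [Et_succ, show R.par (tp M (n + 1)) = bx R (R.par (tp M n)) (R.par M) from (bx_par R _ _).symm,
      Preadditive.add_comp, Preadditive.comp_add, bx_comp, bx_comp, bx_comp, bx_comp, ih, hg',
      pw1_par, bx_smul_left, bx_smul_right, smul_add, Category.id_comp, Category.comp_id]

/-- (b) for the powers of the parity -/
lemma Et_pw1 {M : C} (t : Bool) (g : R.H.obj M ⟶ R.H.obj M) (hg : Od R t g) (n : ℕ) :
    Et R t g n ≫ pw1 R t (tp M n) = sg K t • (pw1 R t (tp M n) ≫ Et R t g n) := by
  cases t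
  · simp [pw1, sg]
  · simpa [pw1] using Et_par R true g hg n

lemma Et_comm {M : C} (t : Bool) (g h : R.H.obj M ⟶ R.H.obj M) (hg : Od R t g) (hh : Od R t h) :
    ∀ n : ℕ, Et R t h n ≫ Et R t g n = sg K t • (Et R t g n ≫ Et R t h n) +
      Et R false (h ≫ g - sg K t • (g ≫ h)) n := by
  intro n
  induction n with
  | zero => rw [Et_zero, Et_zero, Et_zero]; simp
  | succ n ih =>
    have e1 : Et R t g n ≫ pw1 R t (tp M n) = sg K t • (pw1 R t (tp M n) ≫ Et R t g n) :=
      Et_pw1 R t g hg n
    have e2 : Et R t h n ≫ pw1 R t (tp M n) = sg K t • (pw1 R t (tp M n) ≫ Et R t h n) :=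
      Et_pw1 R t h hh n
    have e3 : pw1 R false (tp M n) = 𝟙 _ := rfl
    simp only [Et_succ, Preadditive.add_comp, Preadditive.comp_add, bx_comp, Category.id_comp,
      Category.comp_id, pw1_sq, e3]
    rw [ih, e1, e2]
    have e4 : bx R (𝟙 (R.H.obj (tp M n))) (h ≫ g - sg K t • (g ≫ h)) =
        bx R (𝟙 _) (h ≫ g) - sg K t • bx R (𝟙 _) (g ≫ h) := by
      rw [sub_eq_add_neg, ← neg_smul, bx_add_right, bx_smul_right, neg_smul, ← sub_eq_add_neg]
    rw [e4, bx_add_left, bx_smul_left, bx_smul_left, bx_smul_left]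
    have e5 : sg K t • (sg K t • bx R (pw1 R t (tp M n) ≫ Et R t g n) h) =
        bx R (pw1 R t (tp M n) ≫ Et R t g n) h := by
      rw [smul_smul, sg_mul, one_smul]
    simp only [smul_add, e5]
    abel

end CMT

theorem t_CMT : S_CMT R := by
  refine ⟨fun M t g h _ n i => CMT.Ps_comp R t g h n i, ?_, fun M t g h n => CMT.Et_add R t g h n,
    fun M t c g n => CMT.Et_smul R t c g n⟩
  intro M t g h hg hh n
  have := CMT.Et_comm R t g h hg hh n
  simpa only [CMT.sg] using this

end

end Pool.Agent.H64NC
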