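import Pool.Agent.H64NC.Stm4
import Pool.Agent.H64NC.Perm

/-!
# Project NCA, phase 2: the piece CNN (helper86)

The partial trace as a sum over matrix units.
-/

set_option autoImplicit false
set_option linter.unusedSectionVars false
set_option linter.unusedSimpArgs false
set_option backward.isDefEq.respectTransparency false
set_option backward.defeqAttrib.useBackward true

open CategoryTheory Limits MonoidalCategory
open Pool.Agent.Y112.SR Pool.Agent.Y112.KD Pool.Agent.Y112.SC Pool.Agent.R484.NC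
open scoped TensorProduct

namespace Pool.Agent.H64NC.Cnn

universe u v w

open Functor.LaxMonoidal Functor.OplaxMonoidal
open Pool.Agent.H64NC.Perm (mu mu_add_left mu_smul_left mu_smul_right)

section

variable {C : Type u} [Category.{v} C] [Preadditive C] [Linear ℚ C] [MonoidalCategory C]
  [MonoidalPreadditive C] [MonoidalLinear ℚ C] [SymmetricCategory C] [RightRigidCategory C]
  {K : Type w} [Field K] (R : SuperRealisation C K)

lemma mu_add_right {X Y : C} (x : R.H.obj X) (y y' : R.H.obj Y) :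
    mu R x (y + y') = mu R x y + mu R x y' := by
  rw [mu, TensorProduct.tmul_add, map_add]; rfl

lemma bx_mu {Q X : C} (a : R.H.obj Q ⟶ R.H.obj Q) (b : R.H.obj X ⟶ R.H.obj X)
    (x : R.H.obj Q) (u : R.H.obj X) :
    (bx R a b).hom (mu R x u) = mu R (a.hom x) (b.hom u) := by
  have h : μ R.H Q X ≫ bx R a b = (a ⊗ₘ b) ≫ μ R.H Q X := by
    rw [bx, Functor.Monoidal.μ_δ_assoc]
  exact congrArg (fun f => f.hom (x ⊗ₜ[K] u)) h

lemma ext_mu {Q X : C} {φ ψ : R.H.obj (Q ⊗ X) ⟶ R.H.obj (Q ⊗ X)}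
    (h : ∀ (x : R.H.obj Q) (u : R.H.obj X), φ.hom (mu R x u) = ψ.hom (mu R x u)) : φ = ψ := by
  have h1 : μ R.H Q X ≫ φ = μ R.H Q X ≫ ψ := by
    apply ModuleCat.hom_ext
    apply TensorProduct.ext'
    intro x u
    exact h x u
  have h2 := congrArg (fun z => δ R.H Q X ≫ z) h1
  simpa only [Functor.Monoidal.δ_μ_assoc] using h2

lemma par_mu {Q X : C} (x : R.H.obj Q) (u : R.H.obj X) :
    (R.par (Q ⊗ X)).hom (mu R x u) = mu R ((R.par Q).hom x) ((R.par X).hom u) := by
  rw [← bx_par, bx_mu]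

variable {Q M : C} {N : ℕ} (v : Module.Basis (Fin N) K (R.H.obj M))

/-- the `c`-th coefficient -/
noncomputable def co (Q : C) (c : Fin N) : R.H.obj (Q ⊗ M) →ₗ[K] R.H.obj Q :=
  (TensorProduct.rid K (R.H.obj Q)).toLinearMap ∘ₗ
    (LinearMap.lTensor (R.H.obj Q) (v.coord c)) ∘ₗ (δ R.H Q M).hom

lemma co_mu (c : Fin N) (x : R.H.obj Q) (u : R.H.obj M) :
    co R v Q c (mu R x u) = v.coord c u • x := by
  have h : (δ R.H Q M).hom (mu R x u) = x ⊗ₜ[K] u := by
    have h1 := Functor.Monoidal.μ_δ R.H Q M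
    exact congrArg (fun f => f.hom (x ⊗ₜ[K] u)) h1
  have h2 : co R v Q c (mu R x u) = (TensorProduct.rid K (R.H.obj Q))
      ((LinearMap.lTensor (R.H.obj Q) (v.coord c)) (x ⊗ₜ[K] u)) :=
    congrArg (fun t => (TensorProduct.rid K (R.H.obj Q))
      ((LinearMap.lTensor (R.H.obj Q) (v.coord c)) t)) h
  rw [h2, LinearMap.lTensor_tmul]
  exact TensorProduct.rid_tmul _ _

lemma exists_mu (w : R.H.obj (Q ⊗ M)) : ∃ t : TensorProduct K (R.H.obj Q) (R.H.obj M),
    (μ R.H Q M).hom t = w := by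
  refine ⟨(δ R.H Q M).hom w, ?_⟩
  have h1 := Functor.Monoidal.δ_μ R.H Q M
  exact congrArg (fun f => f.hom w) h1

lemma sum_co (w : R.H.obj (Q ⊗ M)) : ∑ c, mu R (co R v Q c w) (v c) = w := by
  obtain ⟨t, rfl⟩ := exists_mu R w
  induction t using TensorProduct.induction_on with
  | zero =>
    simp only [map_zero]
    refine Finset.sum_eq_zero fun c _ => ?_
    rw [mu, TensorProduct.zero_tmul, map_zero]
  | tmul x u =>
    have h1 : ∀ c, mu R (co R v Q c (mu R x u)) (v c) = mu R x (v.coord c u • v c) := by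
      intro c
      rw [co_mu, mu_smul_left, mu_smul_right]
    refine (Finset.sum_congr rfl fun c _ => h1 c).trans ?_
    have h2 : ∀ s : Finset (Fin N), ∑ c ∈ s, mu R x (v.coord c u • v c) =
        mu R x (∑ c ∈ s, v.coord c u • v c) := by
      intro s
      induction s using Finset.induction_on with
      | empty =>
        rw [Finset.sum_empty, Finset.sum_empty, mu, TensorProduct.tmul_zero, map_zero]
      | insert a s ha ih =>
        rw [Finset.sum_insert ha, Finset.sum_insert ha, ih, mu_add_right]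
    rw [h2]
    have h3 : ∑ c, v.coord c u • v c = u := v.sum_repr u
    rw [h3]
    rfl
  | add x y hx hy =>
    rw [map_add]
    nth_rewrite 2 [← hx, ← hy]
    rw [← Finset.sum_add_distrib]
    refine Finset.sum_congr rfl fun c _ => ?_
    rw [map_add, mu_add_left]

/-- the matrix entries of an operator with respect to the second factor -/
noncomputable def ye (z : R.H.obj (Q ⊗ M) ⟶ R.H.obj (Q ⊗ M)) (c d : Fin N) :
    R.H.obj Q ⟶ R.H.obj Q :=
  ModuleCat.ofHom
    { toFun := fun x => co R v Q c (z.hom (mu R x (v d)))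
      map_add' := fun x y => by rw [mu_add_left, map_add, map_add]
      map_smul' := fun k x => by rw [mu_smul_left, map_smul, map_smul]; rfl }

lemma ye_apply (z : R.H.obj (Q ⊗ M) ⟶ R.H.obj (Q ⊗ M)) (c d : Fin N) (x : R.H.obj Q) :
    (ye R v z c d).hom x = co R v Q c (z.hom (mu R x (v d))) := rfl

lemma eu_apply (c d : Fin N) (u : R.H.obj M) : (eu v c d).hom u = v.coord d u • v c := rfl

lemma eu_basis (c d e : Fin N) : (eu v c d).hom (v e) = if e = d then v c else 0 := by
  rw [eu_apply, Module.Basis.coord_apply, Module.Basis.repr_self, Finsupp.single_apply]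
  split_ifs with h
  · rw [one_smul]
  · rw [zero_smul]

lemma sum_hom {X Y : C} {ι : Type} (s : Finset ι) (f : ι → (R.H.obj X ⟶ R.H.obj Y))
    (x : R.H.obj X) : (∑ i ∈ s, f i).hom x = ∑ i ∈ s, (f i).hom x := by
  rw [ModuleCat.hom_sum, LinearMap.sum_apply]

lemma decomp (z : R.H.obj (Q ⊗ M) ⟶ R.H.obj (Q ⊗ M)) :
    z = ∑ c, ∑ d, bx R (ye R v z c d) (eu v c d) := by
  apply ext_mu
  intro x u
  have h0 : u = ∑ d, v.coord d u • v d := (v.sum_repr u).symm
  have hlin : ∀ (φ : R.H.obj (Q ⊗ M) ⟶ R.H.obj (Q ⊗ M)), φ.hom (mu R x u) =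
      ∑ d, v.coord d u • φ.hom (mu R x (v d)) := by
    intro φ
    have h2 : ∀ s : Finset (Fin N), ∑ c ∈ s, v.coord c u • φ.hom (mu R x (v c)) =
        φ.hom (mu R x (∑ c ∈ s, v.coord c u • v c)) := by
      intro s
      induction s using Finset.induction_on with
      | empty =>
        rw [Finset.sum_empty, Finset.sum_empty, mu, TensorProduct.tmul_zero, map_zero, map_zero]
      | insert a s ha ih =>
        rw [Finset.sum_insert ha, Finset.sum_insert ha, ih, mu_add_right, map_add, mu_smul_right,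
          map_smul]
    rw [h2, ← h0]
  rw [hlin z, sum_hom]
  have h3 : ∀ c, (∑ d, bx R (ye R v z c d) (eu v c d)).hom (mu R x u) =
      ∑ d, v.coord d u • mu R (co R v Q c (z.hom (mu R x (v d)))) (v c) := by
    intro c
    rw [sum_hom]
    refine Finset.sum_congr rfl fun d _ => ?_
    rw [bx_mu, eu_apply, mu_smul_right, ye_apply]
  rw [Finset.sum_congr rfl fun c _ => h3 c, Finset.sum_comm]
  refine Finset.sum_congr rfl fun d _ => ?_
  rw [← Finset.smul_sum, sum_co]

variable {p : ℕ}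

lemma et_sq (x : Fin N) : ((et p x : ℤ) : K) * ((et p x : ℤ) : K) = 1 := by
  rw [et]
  split_ifs <;> simp

lemma coord_par (hv : Hb p v) (d : Fin N) (u : R.H.obj M) :
    v.coord d ((R.par M).hom u) = ((et p d : ℤ) : K) * v.coord d u := by
  have h : (v.coord d) ∘ₗ (R.par M).hom = ((et p d : ℤ) : K) • v.coord d := by
    refine v.ext fun e => ?_
    rw [LinearMap.comp_apply, hv e, map_smul, LinearMap.smul_apply, Module.Basis.coord_apply,
      Module.Basis.repr_self, Finsupp.single_apply]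
    split_ifs with h1
    · rw [h1]
    · rw [smul_zero, smul_zero]
  exact congrArg (fun f => f u) h

lemma co_par (hv : Hb p v) (c : Fin N) (w : R.H.obj (Q ⊗ M)) :
    co R v Q c ((R.par (Q ⊗ M)).hom w) = ((et p c : ℤ) : K) • (R.par Q).hom (co R v Q c w) := by
  obtain ⟨t, rfl⟩ := exists_mu R w
  induction t using TensorProduct.induction_on with
  | zero => simp only [map_zero, smul_zero]
  | tmul x u =>
    have h1 : co R v Q c ((R.par (Q ⊗ M)).hom (mu R x u)) =
        ((et p c : ℤ) : K) • (R.par Q).hom (co R v Q c (mu R x u)) := by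
      rw [par_mu, co_mu, co_mu, coord_par R v hv, map_smul, smul_smul]
    exact h1
  | add x y hx hy =>
    simp only [map_add, smul_add, hx, hy]

/-- the diagonal entries are even -/
lemma ye_even (hv : Hb p v) (z : R.H.obj (Q ⊗ M) ⟶ R.H.obj (Q ⊗ M))
    (hz : z ≫ R.par (Q ⊗ M) = R.par (Q ⊗ M) ≫ z) (a : Fin N) :
    ye R v z a a ≫ R.par Q = R.par Q ≫ ye R v z a a := by
  apply ModuleCat.hom_ext
  refine LinearMap.ext fun x => ?_
  show (R.par Q).hom ((ye R v z a a).hom x) = (ye R v z a a).hom ((R.par Q).hom x)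
  rw [ye_apply, ye_apply]
  have h1 : (R.par Q).hom (co R v Q a (z.hom (mu R x (v a)))) =
      ((et p a : ℤ) : K) • co R v Q a ((R.par (Q ⊗ M)).hom (z.hom (mu R x (v a)))) := by
    rw [co_par R v hv, smul_smul, et_sq, one_smul]
  have h2 : (R.par (Q ⊗ M)).hom (z.hom (mu R x (v a))) =
      z.hom ((R.par (Q ⊗ M)).hom (mu R x (v a))) :=
    congrArg (fun f => f.hom (mu R x (v a))) hz
  rw [h1, h2, par_mu, hv a, mu_smul_right, map_smul, map_smul, smul_smul, et_sq, one_smul]

lemma pw1_even (t : Bool) (y : R.H.obj Q ⟶ R.H.obj Q) (hy : y ≫ R.par Q = R.par Q ≫ y) :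
    pw1 R t Q ≫ y ≫ pw1 R t Q = y := by
  rw [pw1]
  split_ifs
  · rw [hy, ← Category.assoc, R.par_sq, Category.id_comp]
  · rw [Category.id_comp, Category.comp_id]

lemma eu_eu (a b c d e f : Fin N) :
    eu v a b ≫ eu v c d ≫ eu v e f = if a = d ∧ c = f then eu v e b else 0 := by
  apply ModuleCat.hom_ext
  refine v.ext fun x => ?_
  show (eu v e f).hom ((eu v c d).hom ((eu v a b).hom (v x))) = _
  rw [eu_basis]
  by_cases h1 : x = b
  · rw [if_pos h1, eu_basis]
    by_cases h2 : a = d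
    · rw [if_pos h2, eu_basis]
      by_cases h3 : c = f
      · rw [if_pos h3, if_pos ⟨h2, h3⟩, eu_basis, if_pos h1]
      · rw [if_neg h3, if_neg (fun h => h3 h.2)]
        rfl
    · rw [if_neg h2, map_zero, if_neg (fun h => h2 h.1)]
      rfl
  · rw [if_neg h1, map_zero, map_zero]
    split_ifs
    · rw [eu_basis, if_neg h1]
    · rfl

lemma sum_eu : ∑ b, eu v b b = 𝟙 (R.H.obj M) := by
  apply ModuleCat.hom_ext
  refine v.ext fun x => ?_
  rw [sum_hom, Finset.sum_eq_single x]
  · rw [eu_basis, if_pos rfl]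
    rfl
  · intro b _ hb
    rw [eu_basis, if_neg (Ne.symm hb)]
  · intro h
    exact absurd (Finset.mem_univ _) h

lemma trace_eu (hv : Hb p v) (c d : Fin N) :
    LinearMap.trace K (R.H.obj M) (eu v c d ≫ R.par M).hom =
      if c = d then ((et p c : ℤ) : K) else 0 := by
  rw [LinearMap.trace_eq_matrix_trace K v, Matrix.trace]
  have h1 : ∀ x : Fin N, Matrix.diag (LinearMap.toMatrix v v (eu v c d ≫ R.par M).hom) x =
      if x = d then (if c = x then ((et p c : ℤ) : K) else 0) else 0 := by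
    intro x
    rw [Matrix.diag_apply, LinearMap.toMatrix_apply]
    have h2 : (eu v c d ≫ R.par M).hom (v x) = (R.par M).hom ((eu v c d).hom (v x)) := rfl
    rw [h2, eu_basis]
    split_ifs with h3 h4
    · rw [hv c, map_smul, Finsupp.smul_apply, Module.Basis.repr_self, Finsupp.single_apply, if_pos h4,
        smul_eq_mul, mul_one]
    · rw [hv c, map_smul, Finsupp.smul_apply, Module.Basis.repr_self, Finsupp.single_apply, if_neg h4,
        smul_zero]
    · rw [map_zero, map_zero]
      rfl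
  rw [Finset.sum_congr rfl fun x _ => h1 x, Finset.sum_ite_eq' Finset.univ d]
  rw [if_pos (Finset.mem_univ _)]

lemma PT_sum {ι : Type} (s : Finset ι) (f : ι → (R.H.obj (Q ⊗ M) ⟶ R.H.obj (Q ⊗ M))) :
    PT R (∑ i ∈ s, f i) = ∑ i ∈ s, PT R (f i) := by
  classical
  induction s using Finset.induction_on with
  | empty =>
    rw [Finset.sum_empty, Finset.sum_empty]
    have := PT_smul R (0 : K) (0 : R.H.obj (Q ⊗ M) ⟶ R.H.obj (Q ⊗ M))
    rwa [zero_smul, zero_smul] at this
  | insert a s ha ih => rw [Finset.sum_insert ha, Finset.sum_insert ha, PT_add, ih]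

lemma bx_sum_r {ι : Type} (s : Finset ι) (a : R.H.obj Q ⟶ R.H.obj Q)
    (f : ι → (R.H.obj M ⟶ R.H.obj M)) :
    bx R a (∑ i ∈ s, f i) = ∑ i ∈ s, bx R a (f i) := by
  classical
  induction s using Finset.induction_on with
  | empty =>
    rw [Finset.sum_empty, Finset.sum_empty]
    have := bx_smul_right R (0 : K) a (0 : R.H.obj M ⟶ R.H.obj M)
    rwa [zero_smul, zero_smul] at this
  | insert a s ha ih => rw [Finset.sum_insert ha, Finset.sum_insert ha, bx_add_right, ih]

lemma bx_sum_l {ι : Type} (s : Finset ι) (f : ι → (R.H.obj Q ⟶ R.H.obj Q))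
    (b : R.H.obj M ⟶ R.H.obj M) :
    bx R (∑ i ∈ s, f i) b = ∑ i ∈ s, bx R (f i) b := by
  classical
  induction s using Finset.induction_on with
  | empty => rw [Finset.sum_empty, Finset.sum_empty, bx_zero_left]
  | insert a s ha ih => rw [Finset.sum_insert ha, Finset.sum_insert ha, bx_add_left, ih]

lemma PT_eq (h2 : (2 : K) ≠ 0) (hv : Hb p v) (z : R.H.obj (Q ⊗ M) ⟶ R.H.obj (Q ⊗ M)) :
    PT R z = ∑ a, ((et p a : ℤ) : K) • ye R v z a a := by
  nth_rewrite 1 [decomp R v z]
  rw [PT_sum]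
  refine Finset.sum_congr rfl fun a _ => ?_
  rw [PT_sum, Finset.sum_eq_single a]
  · rw [PT_bx R h2, trace_eu R v hv, if_pos rfl]
  · intro d _ hd
    rw [PT_bx R h2, trace_eu R v hv, if_neg (Ne.symm hd), zero_smul]
  · intro h
    exact absurd (Finset.mem_univ _) h

lemma term (hv : Hb p v) (z : R.H.obj (Q ⊗ M) ⟶ R.H.obj (Q ⊗ M))
    (hz : z ≫ R.par (Q ⊗ M) = R.par (Q ⊗ M) ≫ z) (a b : Fin N) :
    bx R (pw1 R (ty p a b) Q) (eu v a b) ≫ z ≫ bx R (pw1 R (ty p a b) Q) (eu v b a) =
      bx R (ye R v z a a) (eu v b b) := by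
  nth_rewrite 1 [decomp R v z]
  rw [Preadditive.sum_comp, Preadditive.comp_sum, Finset.sum_eq_single a]
  · rw [Preadditive.sum_comp, Preadditive.comp_sum, Finset.sum_eq_single a]
    · rw [bx_comp, bx_comp, eu_eu, if_pos ⟨rfl, rfl⟩, pw1_even R _ _ (ye_even R v hv z hz a)]
    · intro d _ hd
      rw [bx_comp, bx_comp, eu_eu, if_neg (fun h => hd h.1.symm)]
      have := bx_smul_right R (0 : K) (pw1 R (ty p a b) Q ≫ ye R v z a d ≫ pw1 R (ty p a b) Q)
        (0 : R.H.obj M ⟶ R.H.obj M)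
      rwa [zero_smul, zero_smul] at this
    · intro h
      exact absurd (Finset.mem_univ _) h
  · intro c _ hc
    rw [Preadditive.sum_comp, Preadditive.comp_sum]
    refine Finset.sum_eq_zero fun d _ => ?_
    rw [bx_comp, bx_comp, eu_eu, if_neg (fun h => hc h.2)]
    have := bx_smul_right R (0 : K) (pw1 R (ty p a b) Q ≫ ye R v z c d ≫ pw1 R (ty p a b) Q)
      (0 : R.H.obj M ⟶ R.H.obj M)
    rwa [zero_smul, zero_smul] at this
  · intro h
    exact absurd (Finset.mem_univ _) h

end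

end Pool.Agent.H64NC.Cnn

namespace Pool.Agent.H64NC

universe u v w

section

variable {C : Type u} [Category.{v} C] [Preadditive C] [Linear ℚ C] [MonoidalCategory C]
  [MonoidalPreadditive C] [MonoidalLinear ℚ C] [SymmetricCategory C] [RightRigidCategory C]
  {K : Type w} [Field K] (R : SuperRealisation C K)

/-- **CNN** -/
theorem t_CNN : S_CNN R := by
  intro Q M p N v hv z hz
  have hK := Pool.Agent.Y112.SR.R_charZero R
  have h2 : (2 : K) ≠ 0 := two_ne_zero
  rw [Cnn.PT_eq R v h2 hv z, Cnn.bx_sum_l]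
  refine Finset.sum_congr rfl fun a _ => ?_
  rw [← Cnn.sum_eu R v, Cnn.bx_sum_r]
  refine Finset.sum_congr rfl fun b _ => ?_
  rw [Cnn.term R v hv z hz a b, bx_smul_left]

end

end Pool.Agent.H64NC
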