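import Pool.Agent.H64NC.Star

/-!
# Project NCA (helper64), phase 2: the extremal argument
-/

set_option autoImplicit false
set_option linter.unusedSectionVars false

open CategoryTheory Limits MonoidalCategory
open Pool.Agent.Y112.SR Pool.Agent.Y112.KD Pool.Agent.Y112.SC Pool.Agent.R484.NC

namespace Pool.Agent.H64NC

universe u v w

lemma sum_cnt {n N : ℕ} (I : Fin n → Fin N) : ∑ x, cnt I x = n := by
  unfold cnt
  have h := Finset.card_eq_sum_card_fiberwise (f := I) (s := Finset.univ) (t := Finset.univ)
    (fun _ _ => Finset.mem_coe.2 (Finset.mem_univ _))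
  rw [← h, Finset.card_univ, Fintype.card_fin]

section

variable {C : Type u} [Category.{v} C] [Preadditive C] [Linear ℚ C] [MonoidalCategory C]
  [MonoidalPreadditive C] [MonoidalLinear ℚ C] [SymmetricCategory C] [RightRigidCategory C]
  {K : Type w} [Field K] {R : SuperRealisation C K}

/-- **Highest weight vectors.** -/
theorem ext (hC : S_CMT R) (hW : S_WT R) (hnum : S_NUM) {M : C} {p q : ℕ}
    {v : Module.Basis (Fin (p + q)) K (R.H.obj M)} (hv : Hb p v) {n : ℕ}
    (z : R.H.obj (tp M n) ⟶ R.H.obj (tp M n)) (hz : z ≠ 0)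
    (hcomm : ∀ (t : Bool) (g : R.H.obj M ⟶ R.H.obj M), Od R t g →
      z ≫ Et R t g n = Et R t g n ≫ z)
    (hstar : ∀ x, ∑ a, ((et p a : ℤ) : K) • (Et R (ty p a x) (eu v a x) n ≫ z ≫
      Et R (ty p a x) (eu v x a) n) = 0) : n ≤ p * q := by
  classical
  have hK := R_charZero R
  obtain ⟨b, hb1, hb2⟩ := hW M p (p + q) v hv n
  -- the maximal weight
  have hne : ∃ I, z.hom (b I) ≠ 0 := by
    by_contra h
    push Not at h
    apply hz
    apply ModuleCat.hom_ext
    apply b.ext
    intro I
    rw [h I]
    rfl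
  set S : Finset (Fin n → Fin (p + q)) := Finset.univ.filter (fun I => z.hom (b I) ≠ 0) with hS
  have hSne : S.Nonempty := by
    obtain ⟨I, hI⟩ := hne
    exact ⟨I, by simp [hS, hI]⟩
  obtain ⟨I, hIS, hmax⟩ := Finset.exists_max_image S
    (fun I => (toLex (cnt I) : Lex (Fin (p + q) → ℕ))) hSne
  have hzI : z.hom (b I) ≠ 0 := by
    rw [hS, Finset.mem_filter] at hIS
    exact hIS.2
  -- raising operators
  have hraise : ∀ (t : Bool) (a x : Fin (p + q)), a < x →
      z.hom ((Et R t (eu v a x) n).hom (b I)) = 0 := by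
    intro t a x hax
    have h1 := hb2 t a x I (ne_of_lt hax)
    have h2 : Submodule.span K {y | ∃ J : Fin n → Fin (p + q), b J = y ∧
          cnt J x + 1 = cnt I x ∧ cnt J a = cnt I a + 1 ∧
          ∀ c, c ≠ a → c ≠ x → cnt J c = cnt I c} ≤ LinearMap.ker z.hom := by
      rw [Submodule.span_le]
      rintro _ ⟨J, rfl, -, hJa, hJc⟩
      rw [SetLike.mem_coe, LinearMap.mem_ker]
      by_contra hJ
      have hJS : J ∈ S := by simp [hS, hJ]
      have h3 := hmax J hJS
      have h4 : (toLex (cnt I) : Lex (Fin (p + q) → ℕ)) < toLex (cnt J) := by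
        refine ⟨a, fun c hc => ?_, ?_⟩
        · exact (hJc c (ne_of_lt hc) (ne_of_lt (hc.trans hax))).symm
        · change cnt I a < cnt J a
          omega
      exact absurd h3 (not_le.2 h4)
    exact h2 h1
  have hwt : ∀ x, (Et R false (eu v x x) n).hom (b I) = ((cnt I x : ℕ) : K) • b I :=
    fun x => hb1 x I
  -- one term of the relation
  have hod : ∀ (x a : Fin (p + q)), Od R (ty p a x) (eu v x a) := by
    intro x a
    rw [ty_comm]
    exact eu_od hv x a
  have hterm : ∀ x a : Fin (p + q), z.hom ((Et R (ty p a x) (eu v x a) n).hom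
      ((Et R (ty p a x) (eu v a x) n).hom (b I))) =
      (if a < x then (0 : K) else if a = x then ((cnt I x : ℕ) : K) ^ 2 else
        ((cnt I x : ℕ) : K) - ((et p x * et p a : ℤ) : K) * (cnt I a : ℕ)) • z.hom (b I) := by
    intro x a
    by_cases h1 : a < x
    · rw [if_pos h1, zero_smul]
      have h2 := hcomm (ty p a x) (eu v x a) (hod x a)
      have h3 := congrArg (fun f => f.hom ((Et R (ty p a x) (eu v a x) n).hom (b I))) h2
      change (Et R (ty p a x) (eu v x a) n).hom (z.hom ((Et R (ty p a x) (eu v a x) n).hom (b I))) =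
        z.hom ((Et R (ty p a x) (eu v x a) n).hom ((Et R (ty p a x) (eu v a x) n).hom (b I))) at h3
      rw [← h3, hraise _ _ _ h1, map_zero]
    · rw [if_neg h1]
      by_cases h2 : a = x
      · subst h2
        have h3 : ty p a a = false := by rw [ty, Bool.xor_self]
        rw [if_pos rfl, h3, hwt, map_smul, hwt, smul_smul, map_smul, pow_two]
      · rw [if_neg h2]
        have hxa : x < a := lt_of_le_of_ne (not_lt.1 h1) (fun h => h2 h.symm)
        have h3 := hC.2.1 M (ty p a x) (eu v x a) (eu v a x) (hod x a) (eu_od hv a x) n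
        rw [eu_comp, eu_comp, if_pos rfl, if_pos rfl] at h3
        have h4 := congrArg (fun f => z.hom (f.hom (b I))) h3
        change z.hom ((Et R (ty p a x) (eu v x a) n).hom
          ((Et R (ty p a x) (eu v a x) n).hom (b I))) =
          z.hom ((if ty p a x then (-1 : K) else 1) • ((Et R (ty p a x) (eu v a x) n).hom
            ((Et R (ty p a x) (eu v x a) n).hom (b I))) +
          (Et R false (eu v x x - (if ty p a x then (-1 : K) else 1) • eu v a a) n).hom (b I)) at h4
        have h5 : z.hom ((Et R (ty p a x) (eu v a x) n).hom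
            ((Et R (ty p a x) (eu v x a) n).hom (b I))) = 0 := by
          have h6 := hcomm (ty p a x) (eu v a x) (eu_od hv a x)
          have h7 := congrArg (fun f => f.hom ((Et R (ty p a x) (eu v x a) n).hom (b I))) h6
          change (Et R (ty p a x) (eu v a x) n).hom (z.hom
            ((Et R (ty p a x) (eu v x a) n).hom (b I))) = z.hom ((Et R (ty p a x) (eu v a x) n).hom
            ((Et R (ty p a x) (eu v x a) n).hom (b I))) at h7
          rw [← h7, hraise _ _ _ hxa, map_zero]
        have h6 : Et R false (eu v x x - (if ty p a x then (-1 : K) else 1) • eu v a a) n =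
            Et R false (eu v x x) n - (if ty p a x then (-1 : K) else 1) •
              Et R false (eu v a a) n := by
          rw [sub_eq_add_neg, ← neg_smul, hC.2.2.1, hC.2.2.2, neg_smul, ← sub_eq_add_neg]
        have h7 : (if ty p a x then (-1 : K) else 1) = ((et p x * et p a : ℤ) : K) := by
          rw [mul_comm, ← et_ty]
          split_ifs <;> simp
        rw [map_add, map_smul, h5, smul_zero, zero_add, h6] at h4
        rw [h4]
        change z.hom ((Et R false (eu v x x) n).hom (b I) - (if ty p a x then (-1 : K) else 1) •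
          (Et R false (eu v a a) n).hom (b I)) = _
        rw [hwt, hwt, h7, smul_smul, ← sub_smul, map_smul]
  -- the relations
  have hrel : ∀ x, et p x * (cnt I x : ℤ) ^ 2 +
      (cnt I x : ℤ) * ∑ a ∈ Finset.univ.filter (fun a => x < a), et p a -
      et p x * ∑ a ∈ Finset.univ.filter (fun a => x < a), (cnt I a : ℤ) = 0 := by
    intro x
    have h1 : (∑ a, ((et p a : ℤ) : K) • (Et R (ty p a x) (eu v a x) n ≫ z ≫
        Et R (ty p a x) (eu v x a) n) : _ ⟶ _).hom (b I) = 0 :=
      congrArg (fun f => f.hom (b I)) (hstar x)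
    have h2 : ∑ a, ((et p a : ℤ) : K) • (z.hom ((Et R (ty p a x) (eu v x a) n).hom
      ((Et R (ty p a x) (eu v a x) n).hom (b I)))) = 0 := by
      rw [← h1]
      rw [ModuleCat.hom_sum, LinearMap.sum_apply]
      refine Finset.sum_congr rfl fun a _ => ?_
      rw [hcomm _ _ (hod x a)]
      rfl
    simp only [hterm, smul_smul] at h2
    rw [← Finset.sum_smul] at h2
    have h3 := (smul_eq_zero.1 h2).resolve_right hzI
    have h4 : ((∑ a, et p a * (if a < x then (0 : ℤ) else if a = x then (cnt I x : ℤ) ^ 2 else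
        (cnt I x : ℤ) - (et p x * et p a) * (cnt I a : ℤ)) : ℤ) : K) = 0 := by
      rw [← h3]
      push_cast
      refine Finset.sum_congr rfl fun a _ => ?_
      congr 1
    have h5 : (∑ a, et p a * (if a < x then (0 : ℤ) else if a = x then (cnt I x : ℤ) ^ 2 else
        (cnt I x : ℤ) - (et p x * et p a) * (cnt I a : ℤ)) : ℤ) = 0 := by exact_mod_cast h4
    rw [← h5]
    have h6 : ∀ a, et p a * (if a < x then (0 : ℤ) else if a = x then (cnt I x : ℤ) ^ 2 else
        (cnt I x : ℤ) - (et p x * et p a) * (cnt I a : ℤ)) =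
        (if a = x then et p x * (cnt I x : ℤ) ^ 2 else 0) +
        (if x < a then (cnt I x : ℤ) * et p a - et p x * (cnt I a : ℤ) else 0) := by
      intro a
      rcases lt_trichotomy a x with h | h | h
      · rw [if_pos h, if_neg (ne_of_lt h), if_neg (not_lt.2 h.le)]
        ring
      · subst h
        rw [if_neg (lt_irrefl _), if_pos rfl, if_pos rfl, if_neg (lt_irrefl _)]
        ring
      · rw [if_neg (not_lt.2 h.le), if_neg (ne_of_gt h), if_neg (ne_of_gt h), if_pos h]
        have h7 := et_sq p a
        linear_combination (-(et p x) * (cnt I a : ℤ)) * h7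
    rw [Finset.sum_congr rfl fun a _ => h6 a, Finset.sum_add_distrib, Finset.sum_ite_eq' Finset.univ x,
      if_pos (Finset.mem_univ x), ← Finset.sum_filter, Finset.sum_sub_distrib, ← Finset.mul_sum,
      ← Finset.mul_sum]
    ring
  have h1 := hnum p q (cnt I) hrel
  rw [sum_cnt] at h1
  exact h1

end

end Pool.Agent.H64NC
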