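import Pool.Agent.H64NC.Adj
import Pool.Agent.H64NC.Ext

/-!
# Project NCA (helper64), phase 2: the finite criterion
-/

set_option autoImplicit false
set_option linter.unusedSectionVars false

open CategoryTheory Limits MonoidalCategory Filter Topology
open Pool.Agent.Y112.SR Pool.Agent.Y112.KD Pool.Agent.Y112.SC Pool.Agent.R484.NC

namespace Pool.Agent.H64NC

universe u v w

section

variable {C : Type u} [Category.{v} C] [Preadditive C] [Linear ℚ C] [MonoidalCategory C]
  [MonoidalPreadditive C] [MonoidalLinear ℚ C] [SymmetricCategory C] [RightRigidCategory C]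
  {K : Type w} [Field K] (R : SuperRealisation C K)

/-- A homogeneous basis, the even vectors first. -/
theorem exists_hb (M : C) : ∃ (q : ℕ) (v : Module.Basis (Fin (evenDim R M + q)) K (R.H.obj M)),
    Hb (evenDim R M) v ∧ evenDim R M + q = totalDim R M := by
  classical
  have hK := R_charZero R
  have hf := R.finite M
  have h2 : (2 : K) ≠ 0 := two_ne_zero
  set P : R.H.obj M →ₗ[K] R.H.obj M := (R.par M).hom with hPdef
  have hP : ∀ x, P (P x) = x := by
    intro x
    have h := congrArg (fun f => f.hom x) (R.par_sq M)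
    exact h
  have hc : IsCompl (LinearMap.ker (P - LinearMap.id)) (LinearMap.ker (P + LinearMap.id)) := by
    constructor
    · rw [Submodule.disjoint_def]
      intro x h1 h3
      rw [LinearMap.mem_ker, LinearMap.sub_apply, LinearMap.id_apply, sub_eq_zero] at h1
      rw [LinearMap.mem_ker, LinearMap.add_apply, LinearMap.id_apply, h1, ← two_smul K] at h3
      exact (smul_eq_zero.1 h3).resolve_left h2
    · rw [codisjoint_iff, eq_top_iff]
      intro x _
      rw [Submodule.mem_sup]
      refine ⟨(2 : K)⁻¹ • (x + P x), ?_, (2 : K)⁻¹ • (x - P x), ?_, ?_⟩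
      · rw [LinearMap.mem_ker, map_smul, LinearMap.sub_apply, map_add, hP, LinearMap.id_apply]
        rw [add_comm (P x) x, sub_self, smul_zero]
      · rw [LinearMap.mem_ker, map_smul, LinearMap.add_apply, map_sub, hP, LinearMap.id_apply]
        simp
      · rw [← smul_add, add_add_sub_cancel, ← two_smul K, smul_smul, inv_mul_cancel₀ h2, one_smul]
  let b1 : Module.Basis (Fin (evenDim R M)) K (LinearMap.ker (P - LinearMap.id)) :=
    Module.finBasis K (LinearMap.ker (P - LinearMap.id))
  let b2 := Module.finBasis K (LinearMap.ker (P + LinearMap.id))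
  let b := (b1.prod b2).map (Submodule.prodEquivOfIsCompl _ _ hc)
  refine ⟨_, b.reindex finSumFinEquiv, ?_, ?_⟩
  · intro x
    rw [Module.Basis.reindex_apply]
    rcases h : finSumFinEquiv.symm x with j | j
    · have hx : x = Fin.castAdd _ j := by
        rw [Equiv.symm_apply_eq] at h
        rw [h, finSumFinEquiv_apply_left]
      have h1 : b (Sum.inl j) = (b1 j : R.H.obj M) := by
        simp [b]
      have h3 : P (b1 j : R.H.obj M) = (b1 j : R.H.obj M) := by
        have := (b1 j).2
        rw [LinearMap.mem_ker, LinearMap.sub_apply, LinearMap.id_apply, sub_eq_zero] at this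
        exact this
      have h4 : et (evenDim R M) x = 1 := by
        rw [et, if_pos]
        rw [hx]
        exact j.2
      rw [h1, h4, Int.cast_one, one_smul]
      exact h3
    · have hx : x = Fin.natAdd _ j := by
        rw [Equiv.symm_apply_eq] at h
        rw [h, finSumFinEquiv_apply_right]
      have h1 : b (Sum.inr j) = (b2 j : R.H.obj M) := by
        simp [b]
      have h3 : P (b2 j : R.H.obj M) = -(b2 j : R.H.obj M) := by
        have := (b2 j).2
        rw [LinearMap.mem_ker, LinearMap.add_apply, LinearMap.id_apply] at this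
        exact eq_neg_of_add_eq_zero_left this
      have h4 : et (evenDim R M) x = -1 := by
        rw [et, if_neg]
        rw [hx]
        simp
      rw [h1, h4]
      push_cast
      rw [neg_one_smul]
      exact h3
  · have h1 := Module.finrank_eq_card_basis (b.reindex finSumFinEquiv)
    rw [Fintype.card_fin] at h1
    exact h1.symm

/-- The numerically trivial elements of the group algebra vanish in degree `n`. -/
def GNil (hU : UnitQ C) (M : C) (n : ℕ) : Prop :=
  ∀ z : tp M n ⟶ tp M n, (z : End (tp M n)) ∈ GA M n → NumZero hU z → op R z = 0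

variable {R} {hU : UnitQ C} {M : C}

lemma gnil_up (hD : totalDim R M ≠ 0) {n : ℕ} (h : GNil R hU M (n + 1)) : GNil R hU M n := by
  have hK := R_charZero R
  have hf := R.finite M
  have h2 : (2 : K) ≠ 0 := two_ne_zero
  intro z hz hz0
  have h1 : op R (z ▷ M) = 0 := h _ (GA_lift hz) (numZero_whiskerRight R hU M hz0)
  have h3 : R.H.map (z ▷ M) = 0 := ModuleCat.hom_ext h1
  rw [map_whiskerRight_eq] at h3
  have h4 : bx R (R.H.map z) (R.par M) = 0 := by
    have h5 := bx_comp R (R.H.map z) (𝟙 _) (𝟙 (R.H.obj M)) (R.par M)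
    rw [h3, zero_comp, Category.comp_id, Category.id_comp] at h5
    exact h5.symm
  have h5 := PT_bx R h2 (R.H.map z) (R.par M)
  rw [h4, R.par_sq, ModuleCat.hom_id, LinearMap.trace_id] at h5
  have h6 : PT R (0 : R.H.obj (tp M n ⊗ M) ⟶ R.H.obj (tp M n ⊗ M)) = 0 := by
    have h := PT_smul R (0 : K) (0 : R.H.obj (tp M n ⊗ M) ⟶ R.H.obj (tp M n ⊗ M))
    simpa using h
  rw [h6] at h5
  have h7 : ((Module.finrank K (R.H.obj M) : ℕ) : K) ≠ 0 := by exact_mod_cast hD
  have h8 : R.H.map z = 0 := (smul_eq_zero.1 h5.symm).resolve_left h7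
  rw [op, h8]
  rfl

lemma closure_le_GA {n : ℕ} {u : tp M n ⟶ tp M n}
    (hu : (u : End (tp M n)) ∈ Submonoid.closure {t : End (tp M n) | IsSwap M n t}) :
    (u : End (tp M n)) ∈ GA M n := by
  have h : Submonoid.closure {t : End (tp M n) | IsSwap M n t} ≤ (GA M n).toSubmonoid := by
    rw [Submonoid.closure_le]
    exact Algebra.subset_adjoin
  exact h hu

lemma gnil_down (hG : S_GRP.{u, v}) (hR : S_REACH R) (hC : S_CMT R) (hN : S_CNN R)
    (hW : S_WT R) (hnum : S_NUM) {p q : ℕ} {v : Module.Basis (Fin (p + q)) K (R.H.obj M)}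
    (hv : Hb p v) {n : ℕ} (h : GNil R hU M n) (hn : p * q < n + 1) : GNil R hU M (n + 1) := by
  have hK := R_charZero R
  intro z hz hz0
  by_contra hne
  have hne' : R.H.map z ≠ 0 := by
    intro h0
    apply hne
    rw [op, h0]
    rfl
  have htr : ∀ w w' : tp M (n + 1) ⟶ tp M (n + 1),
      (w : End (tp M (n + 1))) ∈ Submonoid.closure {t : End (tp M (n + 1)) | IsSwap M (n + 1) t} →
      (w' : End (tp M (n + 1))) ∈ Submonoid.closure {t : End (tp M (n + 1)) | IsSwap M (n + 1) t} →
      PT R (R.H.map w ≫ R.H.map z ≫ R.H.map w') = 0 := by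
    intro w w' hw hw'
    have e1 : R.H.map w ≫ R.H.map z ≫ R.H.map w' = R.H.map (w ≫ z ≫ w') := by
      rw [Functor.map_comp, Functor.map_comp]
    have e2 : PT R (R.H.map w ≫ R.H.map z ≫ R.H.map w') =
        R.H.map (ptr (M := tp M n) (N := M) (w ≫ z ≫ w')) := by
      rw [e1]
      exact PT_map R (Q := tp M n) (X := M) (w ≫ z ≫ w')
    have hmem : ((w ≫ z ≫ w' : tp M (n + 1) ⟶ tp M (n + 1)) : End (tp M (n + 1))) ∈
        GA M (n + 1) := GA_comp (closure_le_GA hw) (GA_comp hz (closure_le_GA hw'))
    have hnz : NumZero hU (ptr (M := tp M n) (N := M) (w ≫ z ≫ w')) := by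
      intro g
      have h3 : ctr hU (ptr (M := tp M n) (N := M) (w ≫ z ≫ w') ≫ g) =
          ctr hU (M := tp M n ⊗ M) ((w ≫ z ≫ w') ≫ g ▷ M) := by
        rw [← ptr_comp_right]
        exact trq_ptr R hU _
      rw [h3, ctr_comm R, ← Category.assoc, ctr_comm R]
      have h4 := hz0 (w' ≫ g ▷ M ≫ w)
      rw [← h4]
      congr 1
      simp only [Category.assoc]
    have h5 := h _ (hG hU M n _ hmem) hnz
    rw [e2]
    exact ModuleCat.hom_ext h5
  have hcomm : ∀ (t : Bool) (g : R.H.obj M ⟶ R.H.obj M), Od R t g →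
      R.H.map z ≫ Et R t g (n + 1) = Et R t g (n + 1) ≫ R.H.map z := by
    intro t g hg
    refine Algebra.adjoin_induction (p := fun (x : End (tp M (n + 1))) _ =>
      R.H.map (x : tp M (n + 1) ⟶ tp M (n + 1)) ≫ Et R t g (n + 1) =
        Et R t g (n + 1) ≫ R.H.map (x : tp M (n + 1) ⟶ tp M (n + 1))) ?_ ?_ ?_ ?_ hz
    · intro x hx
      exact hR.2 M (n + 1) x (Submonoid.subset_closure hx) t g hg
    · intro c
      have h1 : (algebraMap ℚ (End (tp M (n + 1))) c : tp M (n + 1) ⟶ tp M (n + 1)) = c • 𝟙 _ := by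
        rw [Algebra.algebraMap_eq_smul_one]
        rfl
      rw [h1, R_smul, CategoryTheory.Functor.map_id, Linear.smul_comp, Linear.comp_smul,
        Category.id_comp, Category.comp_id]
    · intro x y _ _ hx hy
      have h1 : R.H.map (x + y : End (tp M (n + 1))) = R.H.map x + R.H.map y := R.H.map_add
      rw [h1, Preadditive.add_comp, Preadditive.comp_add, hx, hy]
    · intro x y _ _ hx hy
      rw [End.mul_def, Functor.map_comp, Category.assoc, hx, ← Category.assoc, hy, Category.assoc]
  have h1 := ext hC hW hnum hv (R.H.map z) hne' hcomm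
    (star hR hC hN hv (R.H.map z) (R.par_natural z) htr)
  omega

/-- **The finite criterion.** -/
theorem gnil_all (hG : S_GRP.{u, v}) (hR : S_REACH R) (hC : S_CMT R) (hN : S_CNN R)
    (hW : S_WT R) (hnum : S_NUM)
    (h : GNil R hU M (evenDim R M * (totalDim R M - evenDim R M))) (n : ℕ) : GNil R hU M n := by
  obtain ⟨q, v, hv, hpq⟩ := exists_hb R M
  have hq : totalDim R M - evenDim R M = q := by omega
  rw [hq] at h
  rcases le_total n (evenDim R M * q) with hn | hn
  · have hup : ∀ k, k ≤ evenDim R M * q → GNil R hU M (evenDim R M * q - k) := by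
      intro k
      induction k with
      | zero => intro _; exact h
      | succ k ih =>
        intro hk
        have h1 := ih (by omega)
        have h2 : evenDim R M * q - k = (evenDim R M * q - (k + 1)) + 1 := by omega
        rw [h2] at h1
        have hD : totalDim R M ≠ 0 := by
          intro h0
          have h3 : evenDim R M = 0 := by omega
          rw [h3, zero_mul] at hk
          omega
        exact gnil_up hD h1
    have h1 := hup (evenDim R M * q - n) (by omega)
    have h2 : evenDim R M * q - (evenDim R M * q - n) = n := by omega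
    rwa [h2] at h1
  · induction n, hn using Nat.le_induction with
    | base => exact h
    | succ n hn ih => exact gnil_down hG hR hC hN hW hnum hv ih (by omega)

/-- The lower bound for the parity index. -/
theorem lower2 (hperm : S_PERM2.{u, v, w}) (n : ℕ) {ρ : ℕ} (hρ : IsIdx hU (tp M n) ρ)
    (hnil : GNil R hU M n) :
    totalDim R M ^ (2 * n) ≤ ρ ^ 2 * (n + 1) ^ (totalDim R M ^ 2) := by
  have hK := R_charZero R
  have h0 := R.finite (tp M n)
  classical
  obtain ⟨b, hb⟩ := hperm R M n
  choose s s' ε hε hs hs' hm hm' using hb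
  obtain ⟨r, g, hli, hle⟩ := t_COUNT n (totalDim R M) ε hε
  refine hle.trans (Nat.mul_le_mul_right _ ?_)
  apply rank_le R hρ r (fun i => s (g i))
  intro a ha
  set x : tp M n ⟶ tp M n := ∑ i, a i • s (g i) with hx
  have hxG : (x : End (tp M n)) ∈ GA M n := by
    have h1 : (∑ i, a i • (s (g i) : End (tp M n)) : End (tp M n)) ∈ GA M n :=
      (GA M n).sum_mem fun i _ => (GA M n).smul_mem (closure_le_GA (hm (g i))) _
    exact h1
  have h1 : op R x = 0 := hnil x hxG ha
  have hop : op R x = ∑ i, ((a i : ℚ) : K) • op R (s (g i)) := by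
    have h1 : op R x = opHom R (tp M n) (∑ i, a i • s (g i)) := rfl
    rw [h1, map_sum]
    exact Finset.sum_congr rfl fun i _ => op_smul R _ _
  have hmat : ∀ σ, LinearMap.toMatrix b b (op R (s σ)) =
      (sgm σ (ε σ)).map (fun q : ℚ => (q : K)) := by
    intro σ
    ext J I
    rw [LinearMap.toMatrix_apply, hs, map_smul, Module.Basis.repr_self, Finsupp.smul_apply,
      Finsupp.single_apply, Matrix.map_apply, sgm, Matrix.of_apply]
    by_cases h : I ∘ σ = J
    · rw [if_pos h, if_pos h.symm, smul_eq_mul, mul_one]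
    · rw [if_neg h, if_neg (fun h' => h h'.symm), smul_zero, Rat.cast_zero]
  have h2 : ∑ i, a i • sgm (g i) (ε (g i)) = 0 := by
    ext J I
    have h3 : LinearMap.toMatrix b b (op R x) J I = 0 := by rw [h1, map_zero]; rfl
    rw [hop, map_sum, Matrix.sum_apply] at h3
    have h4 : (((∑ i, a i • sgm (g i) (ε (g i))) J I : ℚ) : K) = 0 := by
      rw [← h3, Matrix.sum_apply, Rat.cast_sum]
      refine Finset.sum_congr rfl fun i _ => ?_
      rw [map_smul, hmat, Matrix.smul_apply, Matrix.smul_apply, Matrix.map_apply, smul_eq_mul,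
        smul_eq_mul, Rat.cast_mul]
    exact_mod_cast h4
  funext i
  exact Fintype.linearIndependent_iff.1 hli a h2 i

variable {ρ : ℕ → ℕ} (hρ : ∀ n, IsIdx hU (tp M n) (ρ n))

include hρ

/-- **The asymptotic sign conjecture is decided in one degree.** -/
theorem tfae2 (hperm : S_PERM2.{u, v, w}) (hG : S_GRP.{u, v}) (hR : S_REACH R) (hC : S_CMT R)
    (hN : S_CNN R) (hW : S_WT R) (hnum : S_NUM) :
    [Tendsto (fun n : ℕ => (ρ n : ℝ) ^ ((1 : ℝ) / n)) atTop (𝓝 (totalDim R M : ℝ)),
      ∀ x : ℝ, 0 ≤ x → x < totalDim R M → ∃ n : ℕ, 1 ≤ n ∧ x ^ n ≤ ρ n,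
      Nil R hU M,
      ∀ f : tp M (evenDim R M * (totalDim R M - evenDim R M)) ⟶
        tp M (evenDim R M * (totalDim R M - evenDim R M)), NumZero hU f → IsNilpotent (op R f),
      GNil R hU M (evenDim R M * (totalDim R M - evenDim R M)),
      ∀ n, totalDim R M ^ (2 * n) ≤ ρ n ^ 2 * (n + 1) ^ (totalDim R M ^ 2)].TFAE := by
  tfae_have 1 → 2 := fun h x hx0 hx => low_of_lim h x hx0 hx
  tfae_have 2 → 3 := nil_of_low R hρ
  tfae_have 3 → 4 := fun h => h _
  tfae_have 4 → 5 := fun h z hz hz0 => ga_zero R h z hz hz0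
  tfae_have 5 → 6 := fun h n => lower2 hperm n (hρ n) (gnil_all hG hR hC hN hW hnum h n)
  tfae_have 6 → 1 := fun h => lim_root (rho_le R hρ) h
  tfae_finish

end

end Pool.Agent.H64NC
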