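import Pool.Agent.H64NC.Clo

/-!
# Project NCA (helper64), phase 2: the effective criterion
-/

set_option autoImplicit false
set_option linter.unusedSectionVars false

open CategoryTheory Limits MonoidalCategory Filter Topology
open Pool.Agent.Y112.SR Pool.Agent.Y112.KD Pool.Agent.Y112.SC Pool.Agent.R484.NC

namespace Pool.Agent.H64NC

universe u v w

section

variable {C : Type u} [Category.{v} C] [Preadditive C] [Linear ℚ C] [MonoidalCategory C]
  [MonoidalPreadditive C] [MonoidalLinear ℚ C] [SymmetricCategory C] [RightRigidCategory C]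
  {K : Type w} [Field K] (R : SuperRealisation C K) {hU : UnitQ C} {M : C}
  {ρ : ℕ → ℕ} (hρ : ∀ n, IsIdx hU (tp M n) (ρ n))

include hρ

lemma exists_big (hlow : ∀ x : ℝ, 0 ≤ x → x < totalDim R M → ∃ n : ℕ, 1 ≤ n ∧ x ^ n ≤ ρ n)
    (hle : evenDim R M ≤ totalDim R M) :
    ∃ n, 1 ≤ n ∧ (totalDim R M ^ (evenDim R M * (totalDim R M - evenDim R M)) - 2) ^ n <
      ρ n ^ (evenDim R M * (totalDim R M - evenDim R M)) := by
  set m := evenDim R M * (totalDim R M - evenDim R M) with hm
  rcases Nat.lt_or_ge (totalDim R M ^ m) 2 with h | h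
  · have hm0 : m = 0 := by
      by_contra hm0
      have h1 : evenDim R M ≠ 0 := fun h0 => hm0 (by rw [hm, h0, zero_mul])
      have h2 : totalDim R M - evenDim R M ≠ 0 := fun h0 => hm0 (by rw [hm, h0, mul_zero])
      have h3 : 2 ≤ totalDim R M := by omega
      have h4 : 2 ^ 1 ≤ totalDim R M ^ m :=
        (Nat.pow_le_pow_left h3 1).trans (Nat.pow_le_pow_right (by omega) (by omega))
      omega
    refine ⟨1, le_refl _, ?_⟩
    rw [hm0, pow_zero, pow_zero]
    norm_num
  · obtain ⟨x, hx0, hxD, hx⟩ := exists_between h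
    obtain ⟨n, hn, hxn⟩ := hlow x hx0 hxD
    refine ⟨n, hn, ?_⟩
    have h1 : (x ^ n) ^ m ≤ ((ρ n : ℝ)) ^ m := pow_le_pow_left₀ (by positivity) hxn m
    have h2 : ((totalDim R M ^ m - 2 : ℕ) : ℝ) ^ n < (x ^ m) ^ n :=
      pow_lt_pow_left₀ hx (by positivity) (by omega)
    have h3 : (x ^ n) ^ m = (x ^ m) ^ n := by rw [← pow_mul, ← pow_mul, mul_comm]
    rw [h3] at h1
    have h4 := h2.trans_le h1
    exact_mod_cast h4

lemma nilAt_of_big {m n : ℕ} (h : (totalDim R M ^ m - 2) ^ n < ρ n ^ m)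
    (f : tp M m ⟶ tp M m) (hf : NumZero hU f) : IsNilpotent (op R f) := by
  by_contra hn
  obtain ⟨-, h2⟩ := rho_gap R hρ m f hf hn
  have h3 := rho_pow R hρ n m
  have h4 := h2 n
  rw [mul_comm n m] at h3
  omega

end

end Pool.Agent.H64NC
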