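import Pool.Agent.H64NC.Stm4

/-!
# Project NCA, piece GRP: the partial trace of the group algebra of the symmetric group (helper21)
-/

set_option autoImplicit false
set_option linter.unusedSectionVars false

open CategoryTheory Limits MonoidalCategory
open Pool.Agent.Y112.SR Pool.Agent.Y112.KD Pool.Agent.Y112.SC Pool.Agent.R484.NC

namespace Pool.Agent.H64NC

universe u v w

namespace GRP

section

variable {C : Type u} [Category.{v} C] [MonoidalCategory C] [SymmetricCategory C]

/-- the products of exchanges -/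
def GG (M : C) (n : ℕ) : Submonoid (End (tp M n)) :=
  Submonoid.closure {t : End (tp M n) | IsSwap M n t}

/-- `s ↦ s ▷ M` as a homomorphism of monoids -/
def wh (M : C) (n : ℕ) : End (tp M n) →* End (tp M (n + 1)) where
  toFun s := End.of (End.asHom s ▷ M)
  map_one' := id_whiskerRight _ _
  map_mul' _ _ := comp_whiskerRight _ _ _

lemma wh_apply (M : C) (n : ℕ) (s : End (tp M n)) :
    wh M n s = End.of (End.asHom s ▷ M) := rfl

/-- the last exchange -/
def lst (M : C) (n : ℕ) : End (tp M (n + 2)) := End.of (sw (tp M n) M)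

lemma lst_mem (M : C) (n : ℕ) : lst M n ∈ GG M (n + 2) := Submonoid.subset_closure (IsSwap.last n)

lemma wh_mem {M : C} {n : ℕ} {s : End (tp M n)} (hs : s ∈ GG M n) : wh M n s ∈ GG M (n + 1) := by
  induction hs using Submonoid.closure_induction with
  | mem x hx => exact Submonoid.subset_closure (IsSwap.lift _ _ hx)
  | one => rw [map_one]; exact one_mem _
  | mul x y _ _ hx hy => rw [map_mul]; exact mul_mem hx hy

lemma lst_lst (M : C) (n : ℕ) : lst M n * lst M n = 1 := sw_sw (tp M n) M

lemma lst_wh_wh (M : C) (n : ℕ) (z : End (tp M n)) :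
    lst M n * wh M (n + 1) (wh M n z) = wh M (n + 1) (wh M n z) * lst M n :=
  sw_nat_left (X := M) (End.asHom z)

lemma braid' (M : C) (n : ℕ) : lst M (n + 1) * wh M (n + 2) (lst M n) * lst M (n + 1) =
    wh M (n + 2) (lst M n) * lst M (n + 1) * wh M (n + 2) (lst M n) := by
  have h := braid (tp M n) M
  rw [mul_assoc, mul_assoc]
  have h' : (sw (tp M n ⊗ M) M ≫ (sw (tp M n) M ▷ M)) ≫ sw (tp M n ⊗ M) M =
    ((sw (tp M n) M ▷ M) ≫ sw (tp M n ⊗ M) M) ≫ (sw (tp M n) M ▷ M) := by
    rw [Category.assoc, Category.assoc]; exact h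
  exact h'

/-- the elements of `S_{n+1}` are in `S_n` or in `S_n s S_n` -/
def DC (M : C) : ∀ n : ℕ, End (tp M (n + 1)) → Prop
  | 0, x => ∃ g ∈ GG M 0, x = wh M 0 g
  | m + 1, x => (∃ g ∈ GG M (m + 1), x = wh M (m + 1) g) ∨
      ∃ g ∈ GG M (m + 1), ∃ h ∈ GG M (m + 1), x = wh M (m + 1) g * lst M m * wh M (m + 1) h

lemma DC_all (M : C) : ∀ (n : ℕ) (x : End (tp M (n + 1))), x ∈ GG M (n + 1) → DC M n x := by
  intro n
  induction n with
  | zero =>
    intro x hx
    induction hx using Submonoid.closure_induction with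
    | mem x hx =>
      have hx' : IsSwap M 1 x := hx
      cases hx' with
      | lift _ s hs => exact ⟨s, Submonoid.subset_closure hs, rfl⟩
    | one => exact ⟨1, one_mem _, (map_one _).symm⟩
    | mul x y _ _ hx hy =>
      obtain ⟨g, hg, rfl⟩ := hx
      obtain ⟨h, hh, rfl⟩ := hy
      exact ⟨g * h, mul_mem hg hh, (map_mul _ _ _).symm⟩
  | succ m ih =>
    intro x hx
    induction hx using Submonoid.closure_induction_left with
    | one => exact Or.inl ⟨1, one_mem _, (map_one _).symm⟩
    | mul_left s hs y _ hy =>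
      have hs' : IsSwap M (m + 2) s := hs
      cases hs' with
      | last =>
        change DC M (m + 1) (lst M m * y)
        rcases hy with ⟨g, hg, rfl⟩ | ⟨g, hg, h, hh, rfl⟩
        · exact Or.inr ⟨1, one_mem _, g, hg, by rw [map_one, one_mul]⟩
        · have hg' := ih g hg
          rcases m with - | l
          · obtain ⟨a, ha, rfl⟩ := hg'
            refine Or.inl ⟨wh M 0 a * h, mul_mem (wh_mem ha) hh, ?_⟩
            rw [map_mul, ← mul_assoc, ← mul_assoc, lst_wh_wh, mul_assoc (wh M (0 + 1) _), lst_lst,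
              mul_one]
          · rcases hg' with ⟨a, ha, rfl⟩ | ⟨a, ha, b, hb, rfl⟩
            · refine Or.inl ⟨wh M (l + 1) a * h, mul_mem (wh_mem ha) hh, ?_⟩
              rw [map_mul, ← mul_assoc, ← mul_assoc, lst_wh_wh, mul_assoc (wh M (l + 1 + 1) _),
                lst_lst, mul_one]
            · refine Or.inr ⟨wh M (l + 1) a * lst M l, mul_mem (wh_mem ha) (lst_mem M l),
                lst M l * wh M (l + 1) b * h,
                mul_mem (mul_mem (lst_mem M l) (wh_mem hb)) hh, ?_⟩
              have e1 := lst_wh_wh M (l + 1) a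
              have e2 := lst_wh_wh M (l + 1) b
              have e3 := braid' M l
              simp only [map_mul]
              calc _ = (lst M (l + 1) * wh M (l + 2) (wh M (l + 1) a)) * wh M (l + 2) (lst M l) *
                    (wh M (l + 2) (wh M (l + 1) b) * lst M (l + 1)) * wh M (l + 2) h := by
                      simp only [mul_assoc]
                _ = wh M (l + 2) (wh M (l + 1) a) * (lst M (l + 1) * wh M (l + 2) (lst M l) *
                    lst M (l + 1)) * wh M (l + 2) (wh M (l + 1) b) * wh M (l + 2) h := by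
                      rw [e1, ← e2]; simp only [mul_assoc]
                _ = _ := by rw [e3]; simp only [mul_assoc]
      | lift _ s hs2 =>
        have hs0 : (s : End (tp M (m + 1))) ∈ GG M (m + 1) := Submonoid.subset_closure hs2
        change DC M (m + 1) (wh M (m + 1) s * y)
        rcases hy with ⟨g, hg, rfl⟩ | ⟨g, hg, h, hh, rfl⟩
        · exact Or.inl ⟨End.of s * g, mul_mem hs0 hg, (map_mul _ _ _).symm⟩
        · refine Or.inr ⟨End.of s * g, mul_mem hs0 hg, h, hh, ?_⟩
          rw [map_mul]
          simp only [mul_assoc]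

end

section

variable {C : Type u} [Category.{v} C] [Preadditive C] [Linear ℚ C] [MonoidalCategory C]
  [MonoidalPreadditive C] [MonoidalLinear ℚ C] [SymmetricCategory C] [RightRigidCategory C]

/-- the algebra generated by the exchanges -/
def AG (M : C) (n : ℕ) : Subalgebra ℚ (End (tp M n)) :=
  Algebra.adjoin ℚ {t : End (tp M n) | IsSwap M n t}

lemma GG_le (M : C) (n : ℕ) {x : End (tp M n)} (hx : x ∈ GG M n) : x ∈ AG M n := by
  have h : GG M n ≤ (AG M n).toSubmonoid := Submonoid.closure_le.2 Algebra.subset_adjoin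
  exact h hx

lemma ptr_wh (hU : UnitQ C) (M : C) (n : ℕ) (g : End (tp M n)) (hg : g ∈ AG M n) :
    (End.of (ptr (End.asHom (wh M n g))) : End (tp M n)) ∈ AG M n := by
  have h1 : ptr (End.asHom (wh M n g)) = trq hU M (𝟙 M) • End.asHom g := by
    have h2 := ptr_tensor (End.asHom g) (𝟙 M) (trq hU M (𝟙 M)) (trq_spec hU _)
    rw [tensorHom_id] at h2
    exact h2
  rw [h1]
  exact (AG M n).smul_mem hg _

lemma ptr_DC (hU : UnitQ C) (M : C) : ∀ (n : ℕ) (x : End (tp M (n + 1))), DC M n x →
    (End.of (ptr (End.asHom x)) : End (tp M n)) ∈ AG M n := by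
  intro n x hx
  rcases n with - | m
  · obtain ⟨g, hg, rfl⟩ := hx
    exact ptr_wh hU M 0 g (GG_le M 0 hg)
  · rcases hx with ⟨g, hg, rfl⟩ | ⟨g, hg, h, hh, rfl⟩
    · exact ptr_wh hU M (m + 1) g (GG_le M _ hg)
    · have h1 : ptr (End.asHom (wh M (m + 1) g * lst M m * wh M (m + 1) h)) =
          End.asHom h ≫ End.asHom g := by
        have h2 := ptr_comp (End.asHom h) (End.asHom g) (sw (tp M m) M)
        rw [ptr_sw, Category.id_comp] at h2
        rw [← h2]
        rfl
      rw [h1]
      exact (AG M (m + 1)).mul_mem (GG_le M _ hg) (GG_le M _ hh)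

end

end GRP

theorem t_GRP : S_GRP.{u, v} := by
  intro C _ _ _ _ _ _ _ _ hU M n z hz
  have hz1 : (z : End (tp M (n + 1))) ∈ Submodule.span ℚ
      ((GRP.GG M (n + 1) : Submonoid (End (tp M (n + 1)))) : Set (End (tp M (n + 1)))) := by
    have h := Algebra.adjoin_eq_span ℚ {t : End (tp M (n + 1)) | IsSwap M (n + 1) t}
    have h2 : (z : End (tp M (n + 1))) ∈
        Subalgebra.toSubmodule (Algebra.adjoin ℚ {t : End (tp M (n + 1)) | IsSwap M (n + 1) t}) := hz
    rw [h] at h2
    exact h2
  have key : ∀ y : End (tp M (n + 1)), y ∈ Submodule.span ℚ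
      ((GRP.GG M (n + 1) : Submonoid (End (tp M (n + 1)))) : Set (End (tp M (n + 1)))) →
      (End.of (ptr (End.asHom y)) : End (tp M n)) ∈ GRP.AG M n := by
    intro y hy
    induction hy using Submodule.span_induction with
    | mem x hx => exact GRP.ptr_DC hU M n x (GRP.DC_all M n x hx)
    | zero =>
      have h : (End.of (ptr (End.asHom (0 : End (tp M (n + 1))))) : End (tp M n)) = 0 :=
        (ptrL (tp M n) M).map_zero
      rw [h]
      exact (GRP.AG M n).zero_mem
    | add x y _ _ hx hy =>
      have h : (End.of (ptr (End.asHom (x + y))) : End (tp M n)) =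
        End.of (ptr (End.asHom x)) + End.of (ptr (End.asHom y)) := ptr_add _ _
      rw [h]
      exact (GRP.AG M n).add_mem hx hy
    | smul a x _ hx =>
      have h : (End.of (ptr (End.asHom (a • x))) : End (tp M n)) =
        a • End.of (ptr (End.asHom x)) := ptr_smul _ _
      rw [h]
      exact (GRP.AG M n).smul_mem hx a
  exact key z hz1

end Pool.Agent.H64NC
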