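import Pool.Agent.H64NC.Fin3
import Pool.Agent.H64NC.Grp

/-!
# Project NCA (helper64), phase 2: idempotents of the group algebra
-/

set_option autoImplicit false
set_option linter.unusedSectionVars false

open CategoryTheory Limits MonoidalCategory
open Pool.Agent.Y112.SR Pool.Agent.Y112.KD Pool.Agent.Y112.SC Pool.Agent.R484.NC

namespace Pool.Agent.H64NC

universe u v w

section Proj

open Polynomial

/-- The spectral idempotent in a finite dimensional algebra. -/
lemma exists_idem {F : Type*} [Field F] {A : Type*} [Ring A] [Algebra F A] (x : A)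
    (hx : IsIntegral F x) : ∃ (g : F[X]) (n : ℕ),
      (x * aeval x g) * (x * aeval x g) = x * aeval x g ∧ x ^ n = x ^ n * (x * aeval x g) := by
  set χ := minpoly F x with hχ
  have hχ0 : χ ≠ 0 := minpoly.ne_zero hx
  obtain ⟨r, hr, hnd⟩ := exists_eq_pow_rootMultiplicity_mul_and_not_dvd χ hχ0 0
  set n := rootMultiplicity 0 χ with hn
  rw [C_0, sub_zero] at hr hnd
  have hirr : Irreducible (X : F[X]) := irreducible_X
  have hcop : IsCoprime ((X : F[X]) ^ (n + 1)) r := by
    apply IsCoprime.pow_left
    rw [hirr.coprime_iff_not_dvd]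
    exact hnd
  obtain ⟨a, b, hab⟩ := hcop
  have hT0 : aeval x (X ^ n * r) = 0 := by rw [← hr, hχ, minpoly.aeval]
  have hE : x * aeval x (a * X ^ n) = aeval x (a * X ^ (n + 1)) := by
    rw [show a * X ^ (n + 1) = X * (a * X ^ n) by ring, map_mul (aeval x) X, aeval_X]
  refine ⟨a * X ^ n, n, ?_, ?_⟩
  · rw [hE, ← map_mul]
    have h1 : a * X ^ (n + 1) * (a * X ^ (n + 1)) = a * X ^ (n + 1) -
        (X ^ n * r) * (a * b * X) := by
      have h2 : a * X ^ (n + 1) = 1 - b * r := by rw [← hab]; ring
      calc a * X ^ (n + 1) * (a * X ^ (n + 1)) = a * X ^ (n + 1) * (1 - b * r) := by rw [← h2]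
        _ = _ := by ring
    rw [h1, map_sub, map_mul (aeval x) (X ^ n * r), hT0, zero_mul, sub_zero]
  · rw [hE]
    have h1 : aeval x (X ^ n * (a * X ^ (n + 1) + b * r)) = x ^ n * aeval x (a * X ^ (n + 1)) := by
      rw [show X ^ n * (a * X ^ (n + 1) + b * r) = X ^ n * (a * X ^ (n + 1)) + (X ^ n * r) * b by
        ring, map_add, map_mul (aeval x) (X ^ n * r), hT0, zero_mul, map_mul, add_zero, map_pow,
        aeval_X]
    rw [hab, mul_one, map_pow, aeval_X] at h1
    exact h1

/-- Polynomials in an element of a subalgebra. -/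
lemma aeval_mem {F : Type*} [Field F] {A : Type*} [Ring A] [Algebra F A] (S : Subalgebra F A)
    {x : A} (hx : x ∈ S) (p : F[X]) : aeval x p ∈ S := by
  induction p using Polynomial.induction_on' with
  | add p q hp hq => rw [map_add]; exact S.add_mem hp hq
  | monomial k c =>
    rw [aeval_monomial]
    exact S.mul_mem (S.algebraMap_mem c) (S.pow_mem hx k)

end Proj

section

variable {C : Type u} [Category.{v} C] [MonoidalCategory C] [SymmetricCategory C]

open GRP in
lemma GG_finite (M : C) (n : ℕ) : ((GG M n : Submonoid (End (tp M n))) : Set (End (tp M n))).Finite := by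
  induction n with
  | zero =>
    have h : ((GG M 0 : Submonoid (End (tp M 0))) : Set (End (tp M 0))) ⊆ {1} := by
      intro x hx'
      change x ∈ GG M 0 at hx'
      rw [Set.mem_singleton_iff]
      induction hx' using Submonoid.closure_induction with
      | mem x hx =>
        have hx'' : IsSwap M 0 x := hx
        cases hx''
      | one => rfl
      | mul x y _ _ hx hy => rw [hx, hy, one_mul]
    exact (Set.finite_singleton _).subset h
  | succ n ih =>
    rcases n with - | m
    · have h : ((GG M 1 : Submonoid (End (tp M 1))) : Set (End (tp M 1))) ⊆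
          (wh M 0) '' (GG M 0 : Set (End (tp M 0))) := by
        intro x hx
        obtain ⟨g, hg, rfl⟩ := DC_all M 0 x hx
        exact ⟨g, hg, rfl⟩
      exact (ih.image _).subset h
    · have h : ((GG M (m + 2) : Submonoid (End (tp M (m + 2)))) : Set (End (tp M (m + 2)))) ⊆
          (wh M (m + 1)) '' (GG M (m + 1) : Set (End (tp M (m + 1)))) ∪
          (fun p : End (tp M (m + 1)) × End (tp M (m + 1)) =>
            wh M (m + 1) p.1 * lst M m * wh M (m + 1) p.2) ''
            ((GG M (m + 1) : Set (End (tp M (m + 1)))) ×ˢ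
              (GG M (m + 1) : Set (End (tp M (m + 1))))) := by
        intro x hx
        rcases DC_all M (m + 1) x hx with ⟨g, hg, rfl⟩ | ⟨g, hg, h, hh, rfl⟩
        · exact Or.inl ⟨g, hg, rfl⟩
        · exact Or.inr ⟨(g, h), ⟨hg, hh⟩, rfl⟩
      exact ((ih.image _).union ((ih.prod ih).image _)).subset h

end

section

variable {C : Type u} [Category.{v} C] [Preadditive C] [Linear ℚ C] [MonoidalCategory C]
  [MonoidalPreadditive C] [MonoidalLinear ℚ C] [SymmetricCategory C] [RightRigidCategory C]

lemma GA_integral {M : C} {n : ℕ} {x : End (tp M n)} (hx : x ∈ GA M n) : IsIntegral ℚ x := by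
  have h1 : (Subalgebra.toSubmodule (GA M n)).FG := by
    have h := Algebra.adjoin_eq_span ℚ {t : End (tp M n) | IsSwap M n t}
    have h2 : Subalgebra.toSubmodule (GA M n) = Submodule.span ℚ
        ((GRP.GG M n : Submonoid (End (tp M n))) : Set (End (tp M n))) := h
    rw [h2]
    exact Submodule.fg_span (GG_finite M n)
  have h3 : Module.Finite ℚ (GA M n) := Module.Finite.iff_fg.2 h1
  have h4 : IsIntegral ℚ (⟨x, hx⟩ : GA M n) := Algebra.IsIntegral.isIntegral _
  have h5 := h4.map (GA M n).val
  exact h5

variable {K : Type w} [Field K] (R : SuperRealisation C K) {hU : UnitQ C} {M : C}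

/-- If the numerically trivial idempotents of the group algebra vanish, then all its numerically trivial elements do. -/
theorem gnil_of_idem {n : ℕ} (h : ∀ e : tp M n ⟶ tp M n, (e : End (tp M n)) ∈ GA M n → e ≫ e = e →
    NumZero hU e → op R e = 0) : GNil R hU M n := by
  intro z hz hz0
  obtain ⟨z', hz', h1⟩ := ga_transp R z hz
  apply h1
  set x : End (tp M n) := (z ≫ z' : tp M n ⟶ tp M n) with hx
  have hxG : x ∈ GA M n := GA_comp hz hz'
  obtain ⟨g, k, h2, h3⟩ := exists_idem x (GA_integral hxG)
  set e : End (tp M n) := x * Polynomial.aeval x g with he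
  have hgG : Polynomial.aeval x g ∈ GA M n := aeval_mem (GA M n) hxG g
  have heG : e ∈ GA M n := (GA M n).mul_mem hxG hgG
  have hx0 : NumZero hU (M := tp M n) x := NumZero.comp_right R hU hz0 z'
  have he0 : NumZero hU (M := tp M n) e := by
    intro y
    have h4 : ((e : tp M n ⟶ tp M n) ≫ y) =
        ((Polynomial.aeval x g : End (tp M n)) : tp M n ⟶ tp M n) ≫ (x : tp M n ⟶ tp M n) ≫ y := by
      rw [he, End.mul_def, Category.assoc]
    rw [h4, ctr_comm R, Category.assoc]
    exact hx0 _
  have h4 := h e heG h2 he0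
  refine ⟨k, ?_⟩
  have h5 := congrArg (opHom R (tp M n)) h3
  rw [map_mul, map_pow] at h5
  have h6 : opHom R (tp M n) e = 0 := h4
  rw [h6, mul_zero] at h5
  exact h5

end

end Pool.Agent.H64NC
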