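import Pool.Agent.H64NC.Stm4

set_option autoImplicit false

namespace Pool.Agent.H64NC

namespace Num

/-- tail sums -/
def tl {N : ℕ} (f : Fin N → ℤ) (j : ℕ) : ℤ :=
  ∑ a ∈ Finset.univ.filter (fun a : Fin N => j ≤ (a : ℕ)), f a

theorem tl_succ {N : ℕ} (f : Fin N → ℤ) {j : ℕ} (hj : j < N) :
    tl f j = f ⟨j, hj⟩ + tl f (j + 1) := by
  unfold tl
  have h1 : (Finset.univ.filter fun a : Fin N => j ≤ (a : ℕ)) =
      insert ⟨j, hj⟩ (Finset.univ.filter fun a : Fin N => j + 1 ≤ (a : ℕ)) := by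
    ext a
    simp only [Finset.mem_filter, Finset.mem_univ, true_and, Finset.mem_insert, Fin.ext_iff]
    omega
  rw [h1, Finset.sum_insert]
  simp

theorem tl_top {N : ℕ} (f : Fin N → ℤ) : tl f N = 0 := by
  unfold tl
  refine Finset.sum_eq_zero fun a ha => ?_
  have := (Finset.mem_filter.1 ha).2
  omega

theorem tl_zero {N : ℕ} (f : Fin N → ℤ) : tl f 0 = ∑ a, f a := by
  unfold tl
  congr 1
  ext a
  simp

theorem tl_gt {N : ℕ} (f : Fin N → ℤ) (x : Fin N) :
    ∑ a ∈ Finset.univ.filter (fun a => x < a), f a = tl f ((x : ℕ) + 1) := by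
  unfold tl
  congr 1

theorem down {N m : ℕ} (P : ℕ → Prop) (_ : m ≤ N) (h0 : P N)
    (hs : ∀ j, m ≤ j → j < N → P (j + 1) → P j) : ∀ j, m ≤ j → j ≤ N → P j := by
  have key : ∀ d j, j + d = N → m ≤ j → P j := by
    intro d
    induction d with
    | zero => intro j hj _; rw [show j = N by omega]; exact h0
    | succ d ih => intro j hj hmj; exact hs j hmj (by omega) (ih (j + 1) (by omega) (by omega))
  intro j h1 h2
  exact key (N - j) j (by omega) h1

theorem tl_et (p q : ℕ) : ∀ j, p ≤ j → j ≤ p + q →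
    tl (fun a : Fin (p + q) => et p a) j = -((p + q - j : ℕ) : ℤ) := by
  refine down _ (by omega) ?_ ?_
  · rw [tl_top]; simp
  · intro j h1 h2 ih
    rw [tl_succ _ h2, ih]
    simp only [et]
    rw [if_neg (by simpa using h1)]
    omega

theorem tl_et' (p q : ℕ) : ∀ j, 0 ≤ j → j ≤ p →
    tl (fun a : Fin (p + q) => et p a) j = (p : ℤ) - j - q := by
  refine down _ (by omega) ?_ ?_
  · rw [tl_et p q p le_rfl (by omega)]
    simp
  · intro j _ h2 ih
    rw [tl_succ _ (show j < p + q by omega), ih]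
    simp only [et]
    rw [if_pos h2]
    push_cast
    ring

end Num

open Pool.Agent.H64NC.Num in
/-- **Piece NUM.** -/
theorem t_NUM : S_NUM := by
  intro p q k h
  have hK : ∀ x, et p x * (k x : ℤ) ^ 2 + (k x : ℤ) * tl (fun a : Fin (p + q) => et p a) (x + 1) -
      et p x * tl (fun a => (k a : ℤ)) (x + 1) = 0 := by
    intro x
    rw [← tl_gt, ← tl_gt]
    exact h x
  -- the odd part
  have h1 : ∀ j, p ≤ j → j ≤ p + q → tl (fun a : Fin (p + q) => (k a : ℤ)) j = 0 := by
    refine down _ (by omega) (tl_top _) ?_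
    intro j h1 h2 ih
    have h3 := hK ⟨j, h2⟩
    rw [ih, tl_et p q (j + 1) (by omega) (by omega)] at h3
    rw [tl_succ _ h2, ih, add_zero]
    simp only [et] at h3
    rw [if_neg (by simpa using h1)] at h3
    set K : ℤ := (k ⟨j, h2⟩ : ℤ) with hKdef
    have hK0 : 0 ≤ K := by positivity
    have hn : (0 : ℤ) ≤ ((p + q - (j + 1) : ℕ) : ℤ) := by positivity
    by_contra hne
    have hpos : 0 < K := lt_of_le_of_ne hK0 (Ne.symm hne)
    nlinarith [mul_nonneg hK0 hn, mul_pos hpos hpos]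
  -- the even part
  have h2 : ∀ j, 0 ≤ j → j ≤ p → tl (fun a : Fin (p + q) => (k a : ℤ)) j = 0 ∨
      ∃ y : ℕ, j ≤ y ∧ y < p ∧ 0 < (q : ℤ) - ((p : ℤ) - 1 - y) ∧
        tl (fun a : Fin (p + q) => (k a : ℤ)) j = ((q : ℤ) - ((p : ℤ) - 1 - y)) * (y + 1 - j) := by
    refine down _ (by omega) (Or.inl (h1 p le_rfl (by omega))) ?_
    intro j _ hj ih
    have hj' : j < p + q := by omega
    have h3 := hK ⟨j, hj'⟩
    rw [tl_et' p q (j + 1) (by omega) (by omega)] at h3
    simp only [et] at h3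
    rw [if_pos hj] at h3
    rw [tl_succ _ hj']
    set K : ℤ := (k ⟨j, hj'⟩ : ℤ) with hKdef
    have hK0 : 0 ≤ K := by positivity
    push_cast at h3
    rcases ih with ih | ⟨y, hy1, hy2, hy3, ih⟩
    · rw [ih] at h3 ⊢
      have h4 : K * (K - ((q : ℤ) - ((p : ℤ) - 1 - j))) = 0 := by linear_combination h3
      rcases mul_eq_zero.1 h4 with h5 | h5
      · left; rw [h5]; rfl
      · by_cases h6 : K = 0
        · left; rw [h6]; rfl
        · right
          refine ⟨j, le_rfl, hj, ?_, ?_⟩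
          · have : 0 < K := lt_of_le_of_ne hK0 (Ne.symm h6)
            linarith
          · linear_combination h5
    · right
      refine ⟨y, by omega, hy2, hy3, ?_⟩
      rw [ih] at h3 ⊢
      push_cast at h3 ⊢
      set b : ℤ := (q : ℤ) - ((p : ℤ) - 1 - y) with hb
      have h4 : (K - b) * (K + (y - j)) = 0 := by
        rw [hb]; rw [hb] at h3; linear_combination h3
      have h5 : (0 : ℤ) < y - j := by
        have : ((j + 1 : ℕ) : ℤ) ≤ y := by exact_mod_cast hy1
        push_cast at this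
        linarith
      rcases mul_eq_zero.1 h4 with h6 | h6
      · linear_combination h6
      · linarith
  have h3 : ((∑ x, k x : ℕ) : ℤ) = tl (fun a : Fin (p + q) => (k a : ℤ)) 0 := by
    rw [tl_zero]; push_cast; rfl
  have h4 : ((∑ x, k x : ℕ) : ℤ) ≤ ((p * q : ℕ) : ℤ) := by
    rw [h3]
    rcases h2 0 le_rfl (by omega) with h | ⟨y, _, hy, hb, h⟩
    · rw [h]; positivity
    · rw [h]
      push_cast
      have h5 : (y : ℤ) + 1 ≤ p := by exact_mod_cast hy
      have h6 : (0 : ℤ) ≤ y + 1 := by positivity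
      have h7 : (q : ℤ) - ((p : ℤ) - 1 - y) ≤ q := by linarith
      calc ((q : ℤ) - ((p : ℤ) - 1 - y)) * (y + 1 - 0) ≤ q * (y + 1) := by
            rw [sub_zero]; exact mul_le_mul_of_nonneg_right h7 h6
        _ ≤ q * p := mul_le_mul_of_nonneg_left h5 (by positivity)
        _ = p * q := by ring
  exact_mod_cast h4

end Pool.Agent.H64NC
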