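import Pool.Agent.H64NC.Stm3
import Pool.Agent.H64NC.Perm

/-!
# Project NCA: the piece PERM2 (helper85)
-/

set_option autoImplicit false
set_option linter.unusedSectionVars false
set_option linter.unusedSimpArgs false
set_option backward.isDefEq.respectTransparency false
set_option backward.defeqAttrib.useBackward true

open CategoryTheory Limits MonoidalCategory
open Pool.Agent.Y112.SR Pool.Agent.Y112.KD Pool.Agent.R484.NC
open scoped TensorProduct

namespace Pool.Agent.H64NC.Perm2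

open Pool.Agent.H64NC.Perm (bs bs_succ mu mu_right mu_smul_left exists_basis)

universe u v w

section

variable {C : Type u} [Category.{v} C] [MonoidalCategory C] [SymmetricCategory C]

/-- products of exchanges -/
def SW (M : C) (n : ℕ) : Submonoid (End (tp M n)) :=
  Submonoid.closure {t : End (tp M n) | IsSwap M n t}

lemma SW_one (M : C) (n : ℕ) : (𝟙 (tp M n) : End (tp M n)) ∈ SW M n := (SW M n).one_mem

lemma SW_comp {M : C} {n : ℕ} {s t : tp M n ⟶ tp M n} (hs : (s : End (tp M n)) ∈ SW M n)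
    (ht : (t : End (tp M n)) ∈ SW M n) : (s ≫ t : End (tp M n)) ∈ SW M n := by
  have h := (SW M n).mul_mem ht hs
  rwa [End.mul_def] at h

lemma SW_lift {M : C} {n : ℕ} {s : tp M n ⟶ tp M n} (hs : (s : End (tp M n)) ∈ SW M n) :
    (s ▷ M : End (tp M (n + 1))) ∈ SW M (n + 1) := by
  refine Submonoid.closure_induction (motive := fun (x : End (tp M n)) _ =>
    ((x : tp M n ⟶ tp M n) ▷ M : End (tp M (n + 1))) ∈ SW M (n + 1)) ?_ ?_ ?_ hs
  · intro x hx
    exact Submonoid.subset_closure (IsSwap.lift n x hx)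
  · have : ((𝟙 (tp M n)) ▷ M : tp M (n + 1) ⟶ tp M (n + 1)) = 𝟙 _ := id_whiskerRight _ _
    have h := SW_one M (n + 1)
    rw [← this] at h
    exact h
  · intro x y _ _ hx hy
    have h := SW_comp hy hx
    have e : ((y : tp M n ⟶ tp M n) ≫ x) ▷ M = (y ▷ M) ≫ (x ▷ M) := comp_whiskerRight _ _ _
    rw [← e] at h
    exact h

end

section

variable {C : Type u} [Category.{v} C] [Preadditive C] [Linear ℚ C] [MonoidalCategory C]
  [MonoidalPreadditive C] [MonoidalLinear ℚ C] [SymmetricCategory C] [RightRigidCategory C]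
  {K : Type w} [Field K] (R : SuperRealisation C K)

variable {M : C} {D : ℕ}

/-- good permutations -/
def Good {n : ℕ} (b : Module.Basis (Fin n → Fin D) K (R.H.obj (tp M n)))
    (σ : Equiv.Perm (Fin n)) : Prop :=
  ∃ (s s' : tp M n ⟶ tp M n) (ε : (Fin n → Fin D) → ℚ), (∀ I, ε I = 1 ∨ ε I = -1) ∧
    (∀ I, op R s (b I) = ((ε I : ℚ) : K) • b (I ∘ σ)) ∧
    (∀ I, op R s' (b (I ∘ σ)) = ((ε I : ℚ) : K) • b I) ∧
    (s : End (tp M n)) ∈ SW M n ∧ (s' : End (tp M n)) ∈ SW M n

lemma Good.one {n : ℕ} (b : Module.Basis (Fin n → Fin D) K (R.H.obj (tp M n))) :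
    Good R b 1 := by
  refine ⟨𝟙 _, 𝟙 _, fun _ => 1, fun _ => Or.inl rfl, fun I => ?_, fun I => ?_, SW_one _ _,
    SW_one _ _⟩
  · rw [Pool.Agent.R484.NC.op_id, Rat.cast_one, one_smul]; rfl
  · rw [Pool.Agent.R484.NC.op_id, Rat.cast_one, one_smul]; rfl

lemma Good.mul {n : ℕ} {b : Module.Basis (Fin n → Fin D) K (R.H.obj (tp M n))}
    [CharZero K] {σ τ : Equiv.Perm (Fin n)} (h1 : Good R b σ) (h2 : Good R b τ) :
    Good R b (σ * τ) := by
  obtain ⟨s, s', ε, hε, hs, hs', m1, m2⟩ := h1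
  obtain ⟨t, t', δ, hδ, ht, ht', m3, m4⟩ := h2
  refine ⟨s ≫ t, t' ≫ s', fun I => ε I * δ (I ∘ σ), fun I => ?_, fun I => ?_, fun I => ?_,
    SW_comp m1 m3, SW_comp m4 m2⟩
  · show ε I * δ (I ∘ σ) = 1 ∨ ε I * δ (I ∘ σ) = -1
    rcases hε I with h | h <;> rcases hδ (I ∘ σ) with h' | h' <;> rw [h, h'] <;> simp
  · rw [Pool.Agent.R484.NC.op_comp, Module.End.mul_apply, hs, map_smul, ht, smul_smul,
      Rat.cast_mul]
    rfl
  · have h3 : I ∘ ⇑(σ * τ) = (I ∘ σ) ∘ τ := rfl
    rw [Pool.Agent.R484.NC.op_comp, Module.End.mul_apply, h3, ht', map_smul, hs', smul_smul,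
      Rat.cast_mul, mul_comm]

lemma Good.lift (v : Module.Basis (Fin D) K (R.H.obj M)) {n : ℕ} {σ : Equiv.Perm (Fin n)}
    (h : Good R (bs R v n) σ) (σ' : Equiv.Perm (Fin (n + 1)))
    (h1 : ∀ a, σ' (Fin.castSucc a) = Fin.castSucc (σ a)) (h2 : σ' (Fin.last n) = Fin.last n) :
    Good R (bs R v (n + 1)) σ' := by
  obtain ⟨s, s', ε, hε, hs, hs', m1, m2⟩ := h
  have e1 : ∀ I : Fin (n + 1) → Fin D, Fin.init (α := fun _ => Fin D) (I ∘ σ') =
      (Fin.init (α := fun _ => Fin D) I) ∘ σ := by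
    intro I
    funext a
    simp only [Fin.init, Function.comp_apply, h1]
  have e2 : ∀ I : Fin (n + 1) → Fin D, (I ∘ σ') (Fin.last n) = I (Fin.last n) := by
    intro I
    rw [Function.comp_apply, h2]
  refine ⟨s ▷ M, s' ▷ M, fun I => ε (Fin.init I), fun I => hε _, fun I => ?_, fun I => ?_,
    SW_lift m1, SW_lift m2⟩
  · rw [bs_succ, bs_succ, e1, e2]
    refine (mu_right R s _ _).trans ?_
    rw [hs, mu_smul_left]
  · rw [bs_succ, bs_succ, e1, e2]
    refine (mu_right R s' _ _).trans ?_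
    rw [hs', mu_smul_left]

lemma Good.last [CharZero K] (v : Module.Basis (Fin D) K (R.H.obj M)) (η : Fin D → Bool)
    (hv : ∀ i, (R.par M).hom (v i) = (if η i then (-1 : K) else 1) • v i) (n : ℕ)
    (σ : Equiv.Perm (Fin (n + 2)))
    (hσ : σ = Equiv.swap (Fin.castSucc (Fin.last n)) (Fin.last (n + 1))) :
    Good R (bs R v (n + 2)) σ := by
  obtain ⟨ε, hε, h1, h2⟩ := Pool.Agent.H64NC.Perm.last_sw R v η hv n σ hσ
  have hm : (sw (tp M n) M : End (tp M (n + 2))) ∈ SW M (n + 2) :=
    Submonoid.subset_closure (IsSwap.last n)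
  exact ⟨sw (tp M n) M, sw (tp M n) M, ε, hε, h1, h2, hm, hm⟩

lemma good_swap [CharZero K] (v : Module.Basis (Fin D) K (R.H.obj M)) (η : Fin D → Bool)
    (hv : ∀ i, (R.par M).hom (v i) = (if η i then (-1 : K) else 1) • v i) (n : ℕ) (i : Fin n) :
    Good R (bs R v (n + 1)) (Equiv.swap i.castSucc i.succ) := by
  induction n with
  | zero => exact i.elim0
  | succ n ih =>
    refine Fin.lastCases ?_ (fun j => ?_) i
    · exact Good.last R v η hv n _ (by rw [Fin.succ_last])
    · refine Good.lift R v (ih j) _ (fun a => ?_) ?_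
      · rw [← Fin.castSucc_succ]
        by_cases h1 : a = j.castSucc
        · rw [h1, Equiv.swap_apply_left, Equiv.swap_apply_left]
        · by_cases h2 : a = j.succ
          · rw [h2, Equiv.swap_apply_right, Equiv.swap_apply_right]
          · rw [Equiv.swap_apply_of_ne_of_ne h1 h2, Equiv.swap_apply_of_ne_of_ne]
            · exact fun h => h1 (Fin.castSucc_injective _ h)
            · exact fun h => h2 (Fin.castSucc_injective _ h)
      · rw [← Fin.castSucc_succ, Equiv.swap_apply_of_ne_of_ne]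
        · exact (Fin.castSucc_lt_last _).ne'
        · exact (Fin.castSucc_lt_last _).ne'

lemma good_all [CharZero K] (v : Module.Basis (Fin D) K (R.H.obj M)) (η : Fin D → Bool)
    (hv : ∀ i, (R.par M).hom (v i) = (if η i then (-1 : K) else 1) • v i) (n : ℕ)
    (σ : Equiv.Perm (Fin n)) : Good R (bs R v n) σ := by
  cases n with
  | zero =>
    have : σ = 1 := Subsingleton.elim _ _
    rw [this]
    exact Good.one R _
  | succ n =>
    let S : Submonoid (Equiv.Perm (Fin (n + 1))) :=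
      { carrier := {σ | Good R (bs R v (n + 1)) σ}
        mul_mem' := fun h1 h2 => Good.mul R h1 h2
        one_mem' := Good.one R _ }
    have h1 : Submonoid.closure (Set.range fun i : Fin n => Equiv.swap i.castSucc i.succ) ≤ S := by
      rw [Submonoid.closure_le]
      rintro _ ⟨i, rfl⟩
      exact good_swap R v η hv n i
    rw [Equiv.Perm.mclosure_swap_castSucc_succ] at h1
    exact h1 (Submonoid.mem_top σ)

end

end Pool.Agent.H64NC.Perm2

namespace Pool.Agent.H64NC

universe u v w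

/-- **PERM2** -/
theorem t_PERM2 : S_PERM2.{u, v, w} := by
  intro C _ _ _ _ _ _ _ _ K _ R M n
  have hK := Pool.Agent.Y112.SR.R_charZero R
  have hf := R.finite M
  obtain ⟨b, η, hb⟩ := Perm.exists_basis (K := K) (V := R.H.obj M) two_ne_zero (R.par M).hom
    (fun x => by
      have h := congrArg (fun f => f.hom x) (R.par_sq M)
      exact h)
  exact ⟨Perm.bs R b n, fun σ => Perm2.good_all R b η hb n σ⟩

end Pool.Agent.H64NC
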