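import Pool.Agent.H64NC.Stm3

/-!
# Project NCA (helper64), phase 2: operators on single factors of tensor powers

`R` is a super realisation, `V = R.H.obj M`. All operators are morphisms in `ModuleCat K`, composed in diagrammatic
order (`f ≫ g` is first `f`, then `g`).
-/

set_option autoImplicit false

open CategoryTheory Limits MonoidalCategory
open Pool.Agent.Y112.SR Pool.Agent.Y112.KD Pool.Agent.Y112.SC Pool.Agent.R484.NC

namespace Pool.Agent.H64NC

universe u v w

section

variable {C : Type u} [Category.{v} C] [Preadditive C] [Linear ℚ C] [MonoidalCategory C]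
  [MonoidalPreadditive C] [MonoidalLinear ℚ C] [SymmetricCategory C] [RightRigidCategory C]
  {K : Type w} [Field K] (R : SuperRealisation C K)

/-- The parity operator to the power `t` (`t = true` is odd). -/
noncomputable def pw1 (t : Bool) (X : C) : R.H.obj X ⟶ R.H.obj X := if t then R.par X else 𝟙 _

/-- `g` has the parity `t`: it commutes (`t = false`) or anticommutes (`t = true`) with the parity operator. -/
def Od (t : Bool) {X : C} (g : R.H.obj X ⟶ R.H.obj X) : Prop :=
  g ≫ R.par X = (if t then (-1 : K) else 1) • (R.par X ≫ g)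

/-- The operator `g` of parity `t`, acting on the `i`-th factor of the tensor power, with the Koszul signs:
on `(𝟙 ⊗ M) ⊗ ⋯ ⊗ M` it is `par^t ⊗ ⋯ ⊗ par^t ⊗ g ⊗ 1 ⊗ ⋯ ⊗ 1`. -/
noncomputable def Ps {M : C} (t : Bool) (g : R.H.obj M ⟶ R.H.obj M) :
    ∀ n : ℕ, Fin n → (R.H.obj (tp M n) ⟶ R.H.obj (tp M n))
  | 0 => fun i => i.elim0
  | n + 1 => fun i => Fin.lastCases (motive := fun _ => R.H.obj (tp M (n + 1)) ⟶ R.H.obj (tp M (n + 1)))
      (bx R (pw1 R t (tp M n)) g) (fun j => bx R (Ps t g n j) (𝟙 _)) i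

/-- The action of `g` (of parity `t`) on the tensor power: the sum over the factors. -/
noncomputable def Et {M : C} (t : Bool) (g : R.H.obj M ⟶ R.H.obj M) (n : ℕ) :
    R.H.obj (tp M n) ⟶ R.H.obj (tp M n) := ∑ i, Ps R t g n i

lemma Ps_last {M : C} (t : Bool) (g : R.H.obj M ⟶ R.H.obj M) (n : ℕ) :
    Ps R t g (n + 1) (Fin.last n) = bx R (pw1 R t (tp M n)) g := by
  simp only [Ps, Fin.lastCases_last]

lemma Ps_castSucc {M : C} (t : Bool) (g : R.H.obj M ⟶ R.H.obj M) (n : ℕ) (j : Fin n) :
    Ps R t g (n + 1) (Fin.castSucc j) = bx R (Ps R t g n j) (𝟙 _) := by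
  simp only [Ps, Fin.lastCases_castSucc]

lemma Et_zero {M : C} (t : Bool) (g : R.H.obj M ⟶ R.H.obj M) : Et R t g 0 = 0 := by
  rw [Et]
  exact Fin.sum_univ_zero _

lemma Et_succ {M : C} (t : Bool) (g : R.H.obj M ⟶ R.H.obj M) (n : ℕ) :
    Et R t g (n + 1) = bx R (Et R t g n) (𝟙 _) + bx R (pw1 R t (tp M n)) g := by
  rw [Et, Fin.sum_univ_castSucc, Ps_last]
  congr 1
  simp only [Ps_castSucc]
  rw [Et, bx_sum_left]

variable {R}

/-- The matrix unit which maps `v y` to `v x` and the other basis vectors to `0`. -/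
noncomputable def eu {M : C} {N : ℕ} (v : Module.Basis (Fin N) K (R.H.obj M)) (x y : Fin N) :
    R.H.obj M ⟶ R.H.obj M := ModuleCat.ofHom ((v.coord y).smulRight (v x))

/-- The parity of a matrix unit: odd if one of `x, y` is `< p` and the other one is not. -/
def ty (p : ℕ) {N : ℕ} (x y : Fin N) : Bool := xor (decide ((x : ℕ) < p)) (decide ((y : ℕ) < p))

/-- The sign of a basis vector: the first `p` are even, the others are odd. -/
def et (p : ℕ) {N : ℕ} (x : Fin N) : ℤ := if (x : ℕ) < p then 1 else -1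

/-- The number of places where `I` has the value `x`. -/
def cnt {n N : ℕ} (I : Fin n → Fin N) (x : Fin N) : ℕ :=
  (Finset.univ.filter fun i => I i = x).card

/-- The basis `v` of the realisation is homogeneous, the first `p` vectors are even and the others are odd. -/
def Hb {M : C} (p : ℕ) {N : ℕ} (v : Module.Basis (Fin N) K (R.H.obj M)) : Prop :=
  ∀ x, (R.par M).hom (v x) = ((et p x : ℤ) : K) • v x

end

end Pool.Agent.H64NC
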