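import Pool.Agent.H64NC.Stm4

/-!
# Project NCA, piece REACH: permutations move the factors, also for odd operators (helper21)
-/

set_option autoImplicit false
set_option linter.unusedSectionVars false
set_option backward.isDefEq.respectTransparency false
set_option backward.defeqAttrib.useBackward true

open CategoryTheory Limits MonoidalCategory
open Pool.Agent.Y112.SR Pool.Agent.Y112.KD Pool.Agent.Y112.SC Pool.Agent.R484.NC

namespace Pool.Agent.H64NC

universe u v w

open Functor.LaxMonoidal Functor.OplaxMonoidal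

section

variable {C : Type u} [Category.{v} C] [Preadditive C] [Linear ℚ C] [MonoidalCategory C]
  [MonoidalPreadditive C] [MonoidalLinear ℚ C] [SymmetricCategory C] [RightRigidCategory C]
  {K : Type w} [Field K] (R : SuperRealisation C K)

namespace REACH

/-- the symmetry and odd operators -/
lemma bx_braid_odd (h2 : (2 : K) ≠ 0) {X : C} (g : R.H.obj X ⟶ R.H.obj X)
    (hg : g ≫ R.par X = -(R.par X ≫ g)) :
    bx R (R.par X) g ≫ R.H.map (β_ X X).hom = R.H.map (β_ X X).hom ≫ bx R g (𝟙 _) := by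
  have h3 : (R.par X ⊗ₘ g) ≫
      (𝟙 _ + R.par X ▷ R.H.obj X + R.H.obj X ◁ R.par X - (R.par X ⊗ₘ R.par X)) =
      (𝟙 _ + R.par X ▷ R.H.obj X + R.H.obj X ◁ R.par X - (R.par X ⊗ₘ R.par X)) ≫ (𝟙 _ ⊗ₘ g) := by
    have hn : ∀ a b : R.H.obj X ⟶ R.H.obj X, (a ⊗ₘ (-b)) = -(a ⊗ₘ b) := by
      intro a b
      have h := MonoidalPreadditive.tensor_add a (-b) b
      rw [neg_add_cancel] at h
      have h0 : (a ⊗ₘ (0 : R.H.obj X ⟶ R.H.obj X)) = 0 := by
        simp [MonoidalCategory.tensorHom_def]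
      rw [h0] at h
      exact eq_neg_of_add_eq_zero_left h.symm
    simp only [Preadditive.sub_comp, Preadditive.add_comp, Preadditive.comp_sub,
      Preadditive.comp_add, Category.id_comp, Category.comp_id, ← tensorHom_id, ← id_tensorHom,
      tensorHom_comp_tensorHom, hg, R.par_sq, hn]
    abel
  have h4 : (2 : K) • ((R.par X ⊗ₘ g) ≫ μ R.H X X ≫ R.H.map (β_ X X).hom) =
      (2 : K) • (μ R.H X X ≫ R.H.map (β_ X X).hom ≫ δ R.H X X ≫ (g ⊗ₘ 𝟙 _) ≫ μ R.H X X) := by
    rw [← Linear.comp_smul, R.symm, ← Category.assoc (R.par X ⊗ₘ g), h3, Category.assoc,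
      BraidedCategory.braiding_naturality_assoc]
    have h5 : (2 : K) • (μ R.H X X ≫ R.H.map (β_ X X).hom ≫ δ R.H X X ≫ (g ⊗ₘ 𝟙 _) ≫ μ R.H X X) =
        ((2 : K) • (μ R.H X X ≫ R.H.map (β_ X X).hom)) ≫ δ R.H X X ≫ (g ⊗ₘ 𝟙 _) ≫ μ R.H X X := by
      rw [Linear.smul_comp, Category.assoc]
    rw [h5, R.symm]
    simp only [Category.assoc, Functor.Monoidal.μ_δ_assoc]
  have h5 := congrArg (fun z => (2 : K)⁻¹ • z) h4
  simp only [smul_smul, inv_mul_cancel₀ h2, one_smul] at h5
  rw [bx, Category.assoc, Category.assoc, h5, bx, Functor.Monoidal.δ_μ_assoc]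

/-- the symmetry and operators of parity `t` -/
lemma bx_braid_pw (h2 : (2 : K) ≠ 0) {X : C} (t : Bool) (g : R.H.obj X ⟶ R.H.obj X)
    (hg : Od R t g) :
    bx R (pw1 R t X) g ≫ R.H.map (β_ X X).hom = R.H.map (β_ X X).hom ≫ bx R g (𝟙 _) := by
  cases t
  · have hg' : g ≫ R.par X = R.par X ≫ g := by simpa [Od] using hg
    exact bx_braid R h2 (𝟙 _) g (by simp) hg'
  · have hg' : g ≫ R.par X = -(R.par X ≫ g) := by simpa [Od] using hg
    exact bx_braid_odd R h2 g hg'

/-- The exchange of the last two factors moves operators of parity `t`. -/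
lemma bx_sw_pw (h2 : (2 : K) ≠ 0) {Q X : C} (a : R.H.obj Q ⟶ R.H.obj Q) (t : Bool)
    (g : R.H.obj X ⟶ R.H.obj X) (hg : Od R t g) :
    bx R (bx R a (pw1 R t X)) g ≫ R.H.map (sw Q X) = R.H.map (sw Q X) ≫ bx R (bx R a g) (𝟙 _) := by
  have e1 : R.H.map (Q ◁ (β_ X X).hom) = bx R (𝟙 _) (R.H.map (β_ X X).hom) := by
    rw [← CategoryTheory.Functor.map_id, bx_map, id_tensorHom]
  have e2 : R.H.map (sw Q X) = R.H.map (α_ Q X X).hom ≫ bx R (𝟙 _) (R.H.map (β_ X X).hom) ≫
      R.H.map (α_ Q X X).inv := by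
    rw [sw, Functor.map_comp, Functor.map_comp, e1]
  rw [e2, ← Category.assoc, bx_assoc]
  simp only [Category.assoc]
  rw [← bx_assoc_inv, ← Category.assoc (bx R a (bx R _ g)), bx_comp, bx_braid_pw R h2 t g hg,
    ← Category.assoc (bx R (𝟙 _) _), bx_comp, Category.comp_id, Category.id_comp]

lemma map_sw_sq (Q X : C) : R.H.map (sw Q X) ≫ R.H.map (sw Q X) = 𝟙 _ := by
  rw [← Functor.map_comp, sw_sw, CategoryTheory.Functor.map_id]

lemma bx_sw_pw' (h2 : (2 : K) ≠ 0) {Q X : C} (a : R.H.obj Q ⟶ R.H.obj Q) (t : Bool)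
    (g : R.H.obj X ⟶ R.H.obj X) (hg : Od R t g) :
    bx R (bx R a g) (𝟙 _) ≫ R.H.map (sw Q X) = R.H.map (sw Q X) ≫ bx R (bx R a (pw1 R t X)) g := by
  have h := bx_sw_pw R h2 a t g hg
  have h3 := congrArg (fun z => R.H.map (sw Q X) ≫ z ≫ R.H.map (sw Q X)) h
  simp only [Category.assoc, map_sw_sq, Category.comp_id] at h3
  rw [← Category.assoc (R.H.map (sw Q X)) (R.H.map (sw Q X)), map_sw_sq, Category.id_comp] at h3
  exact h3.symm

lemma bx_conj (h2 : (2 : K) ≠ 0) {Q X : C} (a : R.H.obj Q ⟶ R.H.obj Q) (t : Bool)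
    (g : R.H.obj X ⟶ R.H.obj X) (hg : Od R t g) :
    bx R (bx R a g) (𝟙 _) = R.H.map (sw Q X) ≫ bx R (bx R a (pw1 R t X)) g ≫ R.H.map (sw Q X) := by
  rw [bx_sw_pw R h2 a t g hg, ← Category.assoc, map_sw_sq, Category.id_comp]

lemma pw1_tensor (t : Bool) (Q X : C) : bx R (pw1 R t Q) (pw1 R t X) = pw1 R t (Q ⊗ X) := by
  cases t
  · simp only [pw1, Bool.false_eq_true, if_false]; exact bx_one R Q X
  · simp only [pw1, if_true]; exact bx_par R Q X

/-- `s ↦ s ▷ M` as a homomorphism of monoids -/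
def wh (M : C) (n : ℕ) : End (tp M n) →* End (tp M (n + 1)) where
  toFun s := End.of (End.asHom s ▷ M)
  map_one' := id_whiskerRight _ _
  map_mul' _ _ := comp_whiskerRight _ _ _

lemma whisker_mem {M : C} {n : ℕ} {s : tp M n ⟶ tp M n}
    (hs : (s : End (tp M n)) ∈ Submonoid.closure {t : End (tp M n) | IsSwap M n t}) :
    ((s ▷ M : tp M (n + 1) ⟶ tp M (n + 1)) : End (tp M (n + 1))) ∈
      Submonoid.closure {t : End (tp M (n + 1)) | IsSwap M (n + 1) t} := by
  change wh M n s ∈ _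
  induction hs using Submonoid.closure_induction with
  | mem x hx => exact Submonoid.subset_closure (IsSwap.lift _ _ hx)
  | one =>
    rw [map_one]
    exact one_mem _
  | mul x y _ _ hx hy =>
    rw [map_mul]
    exact mul_mem hx hy

lemma comp_mem {M : C} {n : ℕ} {s s' : tp M n ⟶ tp M n}
    (hs : (s : End (tp M n)) ∈ Submonoid.closure {t : End (tp M n) | IsSwap M n t})
    (hs' : (s' : End (tp M n)) ∈ Submonoid.closure {t : End (tp M n) | IsSwap M n t}) :
    ((s ≫ s' : tp M n ⟶ tp M n) : End (tp M n)) ∈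
      Submonoid.closure {t : End (tp M n) | IsSwap M n t} :=
  mul_mem hs' hs

lemma move (h2 : (2 : K) ≠ 0) (M : C) : ∀ (m : ℕ) (i : Fin (m + 1)),
    ∃ u u' : tp M (m + 1) ⟶ tp M (m + 1),
    (u : End (tp M (m + 1))) ∈ Submonoid.closure {t : End (tp M (m + 1)) | IsSwap M (m + 1) t} ∧
    (u' : End (tp M (m + 1))) ∈ Submonoid.closure {t : End (tp M (m + 1)) | IsSwap M (m + 1) t} ∧
    u ≫ u' = 𝟙 _ ∧ u' ≫ u = 𝟙 _ ∧
    ∀ (t : Bool) (g : R.H.obj M ⟶ R.H.obj M), Od R t g →
      Ps R t g (m + 1) i = R.H.map u ≫ Ps R t g (m + 1) (Fin.last m) ≫ R.H.map u' := by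
  intro m
  induction m with
  | zero =>
    intro i
    refine ⟨𝟙 _, 𝟙 _, one_mem _, one_mem _, Category.comp_id _, Category.comp_id _, ?_⟩
    intro t g _
    have hi : i = Fin.last 0 := Fin.ext (by have := i.2; simp only [Fin.val_last]; omega)
    rw [hi, CategoryTheory.Functor.map_id, Category.id_comp, Category.comp_id]
  | succ l ih =>
    intro i
    induction i using Fin.lastCases with
    | last =>
      refine ⟨𝟙 _, 𝟙 _, one_mem _, one_mem _, Category.comp_id _, Category.comp_id _, ?_⟩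
      intro t g _
      rw [CategoryTheory.Functor.map_id, Category.id_comp, Category.comp_id]
    | cast j =>
      obtain ⟨u, u', hu, hu', huu, huu', h⟩ := ih j
      have hsw : ((sw (tp M l) M : tp M (l + 2) ⟶ tp M (l + 2)) : End (tp M (l + 2))) ∈
          Submonoid.closure {t : End (tp M (l + 2)) | IsSwap M (l + 2) t} :=
        Submonoid.subset_closure (IsSwap.last l)
      refine ⟨(u ▷ M) ≫ sw (tp M l) M, sw (tp M l) M ≫ (u' ▷ M), comp_mem (whisker_mem hu) hsw,
        comp_mem hsw (whisker_mem hu'), ?_, ?_, ?_⟩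
      · rw [Category.assoc, ← Category.assoc (sw (tp M l) M) (sw (tp M l) M), sw_sw,
          Category.id_comp, ← comp_whiskerRight, huu, id_whiskerRight]
      · rw [Category.assoc, ← Category.assoc (u' ▷ M) (u ▷ M), ← comp_whiskerRight, huu',
          id_whiskerRight, Category.id_comp, sw_sw]
      · intro t g hg
        have e1 : bx R (bx R (pw1 R t (tp M l)) g) (𝟙 _) = R.H.map (sw (tp M l) M) ≫
            bx R (pw1 R t (tp M (l + 1))) g ≫ R.H.map (sw (tp M l) M) := by
          have := bx_conj R h2 (pw1 R t (tp M l)) t g hg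
          rw [pw1_tensor] at this
          exact this
        have e2 : bx R (R.H.map u ≫ bx R (pw1 R t (tp M l)) g ≫ R.H.map u') (𝟙 (R.H.obj M)) =
            bx R (R.H.map u) (𝟙 _) ≫ bx R (bx R (pw1 R t (tp M l)) g) (𝟙 _) ≫
              bx R (R.H.map u') (𝟙 _) := by
          rw [bx_comp, bx_comp, Category.comp_id, Category.comp_id]
        rw [Ps_castSucc, h t g hg, Ps_last, Ps_last, e2, e1, Functor.map_comp, Functor.map_comp,
          map_whiskerRight_eq, map_whiskerRight_eq]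
        simp only [Category.assoc]

lemma comm_swap (h2 : (2 : K) ≠ 0) (M : C) (t : Bool) (g : R.H.obj M ⟶ R.H.obj M)
    (hg : Od R t g) : ∀ (n : ℕ) (s : tp M n ⟶ tp M n), IsSwap M n s →
      R.H.map s ≫ Et R t g n = Et R t g n ≫ R.H.map s := by
  intro n s hs
  induction hs with
  | last n =>
    have e1 : Et R t g (n + 2) = bx R (bx R (Et R t g n) (𝟙 _)) (𝟙 _) +
        bx R (bx R (pw1 R t (tp M n)) g) (𝟙 _) +
        bx R (bx R (pw1 R t (tp M n)) (pw1 R t M)) g := by
      rw [Et_succ, Et_succ, bx_add_left, pw1_tensor]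
    have e2 := bx_sw R h2 (Q := tp M n) (X := M) (Et R t g n) (𝟙 _) (𝟙 _) (by simp) (by simp)
    have e3 := bx_sw_pw R h2 (pw1 R t (tp M n)) t g hg
    have e4 := bx_sw_pw' R h2 (pw1 R t (tp M n)) t g hg
    rw [e1]
    simp only [Preadditive.comp_add, Preadditive.add_comp]
    rw [e2, e3, e4]
    abel
  | lift n s hs ih =>
    have e1 : R.H.map s ≫ pw1 R t (tp M n) = pw1 R t (tp M n) ≫ R.H.map s := by
      cases t
      · simp [pw1]
      · simp only [pw1, if_true]; exact R.par_natural s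
    rw [Et_succ, map_whiskerRight_eq, Preadditive.comp_add, Preadditive.add_comp, bx_comp, bx_comp,
      bx_comp, bx_comp, ih, e1]
    simp only [Category.id_comp, Category.comp_id]

end REACH

theorem t_REACH : S_REACH R := by
  have hc := R_charZero R
  have h2 : (2 : K) ≠ 0 := two_ne_zero
  refine ⟨fun M m i => REACH.move R h2 M m i, ?_⟩
  intro M n s hs t g hg
  have key : ∀ z : End (tp M n), z ∈ Submonoid.closure {t : End (tp M n) | IsSwap M n t} →
      R.H.map (End.asHom z) ≫ Et R t g n = Et R t g n ≫ R.H.map (End.asHom z) := by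
    intro z hz
    induction hz using Submonoid.closure_induction with
    | mem x hx => exact REACH.comm_swap R h2 M t g hg n x hx
    | one =>
      have h : R.H.map (End.asHom (1 : End (tp M n))) = 𝟙 _ := CategoryTheory.Functor.map_id _ _
      rw [h, Category.id_comp, Category.comp_id]
    | mul x y _ _ hx hy =>
      have h : R.H.map (End.asHom (x * y)) = R.H.map (End.asHom y) ≫ R.H.map (End.asHom x) :=
        Functor.map_comp _ _ _
      rw [h, Category.assoc, hx, ← Category.assoc, hy, Category.assoc]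
  exact key s hs

end

end Pool.Agent.H64NC
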