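import Pool.Agent.H64NC.Stm4

/-!
# Project NCA (helper64), phase 2: traceless operators
-/

set_option autoImplicit false
set_option linter.unusedSectionVars false

open CategoryTheory Limits MonoidalCategory
open Pool.Agent.Y112.SR Pool.Agent.Y112.KD Pool.Agent.Y112.SC Pool.Agent.R484.NC

namespace Pool.Agent.H64NC

universe u v w

lemma ty_comm (p : ℕ) {N : ℕ} (x y : Fin N) : ty p x y = ty p y x := by
  rw [ty, ty, Bool.xor_comm]

lemma et_sq (p : ℕ) {N : ℕ} (x : Fin N) : et p x * et p x = 1 := by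
  rw [et]; split_ifs <;> norm_num

lemma et_ty (p : ℕ) {N : ℕ} (x y : Fin N) :
    (if ty p x y then (-1 : ℤ) else 1) = et p x * et p y := by
  rw [ty, et, et]
  by_cases h1 : (x : ℕ) < p <;> by_cases h2 : (y : ℕ) < p <;> simp [h1, h2]

section

variable {C : Type u} [Category.{v} C] [Preadditive C] [Linear ℚ C] [MonoidalCategory C]
  [MonoidalPreadditive C] [MonoidalLinear ℚ C] [SymmetricCategory C] [RightRigidCategory C]
  {K : Type w} [Field K] {R : SuperRealisation C K}

lemma eu_apply {M : C} {N : ℕ} (v : Module.Basis (Fin N) K (R.H.obj M)) (x y j : Fin N) :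
    (eu v x y).hom (v j) = if j = y then v x else 0 := by
  change ((v.coord y).smulRight (v x)) (v j) = _
  rw [LinearMap.smulRight_apply, Module.Basis.coord_apply, Module.Basis.repr_self,
    Finsupp.single_apply]
  split_ifs <;> simp

lemma eu_comp {M : C} {N : ℕ} (v : Module.Basis (Fin N) K (R.H.obj M)) (a b c d : Fin N) :
    eu v a b ≫ eu v c d = if a = d then eu v c b else 0 := by
  apply ModuleCat.hom_ext
  apply v.ext
  intro j
  change (eu v c d).hom ((eu v a b).hom (v j)) = _
  rw [eu_apply]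
  by_cases h1 : j = b
  · rw [if_pos h1, eu_apply]
    by_cases h2 : a = d
    · rw [if_pos h2, if_pos h2, eu_apply, if_pos h1]
    · rw [if_neg h2, if_neg h2]; rfl
  · rw [if_neg h1, map_zero]
    by_cases h2 : a = d
    · rw [if_pos h2, eu_apply, if_neg h1]
    · rw [if_neg h2]; rfl

lemma eu_od {M : C} {p N : ℕ} {v : Module.Basis (Fin N) K (R.H.obj M)} (hv : Hb p v)
    (x y : Fin N) : Od R (ty p x y) (eu v x y) := by
  rw [Od]
  apply ModuleCat.hom_ext
  apply v.ext
  intro j
  change (R.par M).hom ((eu v x y).hom (v j)) = (if ty p x y then (-1 : K) else 1) •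
    (eu v x y).hom ((R.par M).hom (v j))
  rw [hv j, map_smul, eu_apply]
  by_cases h1 : j = y
  · subst h1
    rw [if_pos rfl, hv x, smul_smul]
    congr 1
    have h2 := et_ty p x j
    have h3 : ((if ty p x j then (-1 : ℤ) else 1 : ℤ) : K) = if ty p x j then (-1 : K) else 1 := by
      split_ifs <;> simp
    rw [← h3, h2, ← Int.cast_mul, mul_assoc, et_sq, mul_one]
  · rw [if_neg h1, map_zero, smul_zero, smul_zero]

lemma eu_self_od {M : C} {p N : ℕ} {v : Module.Basis (Fin N) K (R.H.obj M)} (hv : Hb p v)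
    (x : Fin N) : Od R false (eu v x x) := by
  have h := eu_od hv x x
  have h1 : ty p x x = false := by rw [ty, Bool.xor_self]
  rwa [h1] at h

lemma Ps_zero {M : C} (t : Bool) (n : ℕ) (i : Fin n) :
    Ps R t (0 : R.H.obj M ⟶ R.H.obj M) n i = 0 := by
  induction n with
  | zero => exact i.elim0
  | succ n ih =>
    induction i using Fin.lastCases with
    | last =>
      rw [Ps_last]
      have := bx_smul_right R (0 : K) (pw1 R t (tp M n)) (0 : R.H.obj M ⟶ R.H.obj M)
      simpa using this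
    | cast j => rw [Ps_castSucc, ih, bx_zero_left]

/-- **Traceless operators.** -/
theorem star (hR : S_REACH R) (hC : S_CMT R) (hN : S_CNN R) {M : C} {p N : ℕ}
    {v : Module.Basis (Fin N) K (R.H.obj M)} (hv : Hb p v) {m : ℕ}
    (z : R.H.obj (tp M (m + 1)) ⟶ R.H.obj (tp M (m + 1)))
    (hzp : z ≫ R.par (tp M (m + 1)) = R.par (tp M (m + 1)) ≫ z)
    (htr : ∀ u u' : tp M (m + 1) ⟶ tp M (m + 1),
      (u : End (tp M (m + 1))) ∈ Submonoid.closure {t : End (tp M (m + 1)) | IsSwap M (m + 1) t} →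
      (u' : End (tp M (m + 1))) ∈ Submonoid.closure {t : End (tp M (m + 1)) | IsSwap M (m + 1) t} →
      PT R (R.H.map u ≫ z ≫ R.H.map u') = 0) (x : Fin N) :
    ∑ a, ((et p a : ℤ) : K) • (Et R (ty p a x) (eu v a x) (m + 1) ≫ z ≫
      Et R (ty p a x) (eu v x a) (m + 1)) = 0 := by
  have key : ∀ i j : Fin (m + 1), ∑ a, ∑ b, ((et p a : ℤ) : K) •
      (Ps R (ty p a b) (eu v a b) (m + 1) j ≫ z ≫ Ps R (ty p a b) (eu v b a) (m + 1) i) = 0 := by
    intro i j
    obtain ⟨u, u', hu, hu', -, -, h1⟩ := hR.1 M m j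
    obtain ⟨w, w', hw, hw', -, -, h2⟩ := hR.1 M m i
    have h3 := hN (tp M m) M p N v hv (R.H.map u' ≫ z ≫ R.H.map w) (by
      have e1 : R.H.map w ≫ R.par (tp M (m + 1)) = R.par (tp M (m + 1)) ≫ R.H.map w :=
        R.par_natural w
      have e2 : R.H.map u' ≫ R.par (tp M (m + 1)) = R.par (tp M (m + 1)) ≫ R.H.map u' :=
        R.par_natural u'
      change (R.H.map u' ≫ z ≫ R.H.map w) ≫ R.par (tp M (m + 1)) =
        R.par (tp M (m + 1)) ≫ R.H.map u' ≫ z ≫ R.H.map w
      simp only [Category.assoc]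
      rw [e1, ← Category.assoc z, hzp, Category.assoc, ← Category.assoc (R.H.map u'), e2,
        Category.assoc])
    have h4 : PT R (R.H.map u' ≫ z ≫ R.H.map w) = 0 := htr u' w hu' hw
    rw [h4, bx_zero_left] at h3
    have h5 := congrArg (fun y => R.H.map u ≫ y ≫ R.H.map w') h3
    simp only [comp_zero, zero_comp] at h5
    rw [← h5]
    simp only [Preadditive.comp_sum, Preadditive.sum_comp, Linear.comp_smul, Linear.smul_comp]
    refine Finset.sum_congr rfl fun a _ => Finset.sum_congr rfl fun b _ => ?_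
    rw [h1 _ _ (eu_od hv a b), h2 _ (eu v b a) (by rw [ty_comm]; exact eu_od hv b a), Ps_last,
      Ps_last]
    simp only [Category.assoc]
  have key2 : ∀ i j : Fin (m + 1), ∑ a, ((et p a : ℤ) : K) •
      (Ps R (ty p a x) (eu v a x) (m + 1) j ≫ z ≫ Ps R (ty p a x) (eu v x a) (m + 1) i) = 0 := by
    intro i j
    have h1 := congrArg (fun y => y ≫ Ps R false (eu v x x) (m + 1) i) (key i j)
    simp only [zero_comp] at h1
    rw [← h1]
    simp only [Preadditive.sum_comp, Linear.smul_comp, Category.assoc]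
    refine Finset.sum_congr rfl fun a _ => ?_
    have h2 : ∀ b, Ps R (ty p a b) (eu v b a) (m + 1) i ≫ Ps R false (eu v x x) (m + 1) i =
        if b = x then Ps R (ty p a x) (eu v x a) (m + 1) i else 0 := by
      intro b
      rw [hC.1 M (ty p a b) (eu v b a) (eu v x x) (eu_self_od hv x) (m + 1) i, eu_comp]
      by_cases h : b = x
      · rw [if_pos h, if_pos h, h]
      · rw [if_neg h, if_neg h, Ps_zero]
    simp only [h2]
    rw [Finset.sum_eq_single x]
    · rw [if_pos rfl]
    · intro b _ hb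
      rw [if_neg hb, comp_zero, comp_zero, smul_zero]
    · intro h
      exact absurd (Finset.mem_univ x) h
  have h6 : ∀ a, Et R (ty p a x) (eu v a x) (m + 1) ≫ z ≫ Et R (ty p a x) (eu v x a) (m + 1) =
      ∑ j, ∑ i, Ps R (ty p a x) (eu v a x) (m + 1) j ≫ z ≫
        Ps R (ty p a x) (eu v x a) (m + 1) i := by
    intro a
    rw [Et, Et, Preadditive.sum_comp]
    refine Finset.sum_congr rfl fun j _ => ?_
    rw [Preadditive.comp_sum, Preadditive.comp_sum]
  simp only [h6, Finset.smul_sum]
  rw [Finset.sum_comm]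
  apply Finset.sum_eq_zero
  intro j _
  rw [Finset.sum_comm]
  apply Finset.sum_eq_zero
  intro i _
  exact key2 i j

end

end Pool.Agent.H64NC
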