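import Mathlib

/-!
# Project NCA (helper64), part 1: pure algebra pieces

Target (hard problem MP_8f22fa_ag): the asymptotic sign conjecture for a noncommutative motive `M` is equivalent
to the nilpotence of the numerically trivial endomorphisms of all tensor powers of `M`.

Each `S_…` below is one independent piece with a complete proof in its docstring. Please prove it as
`theorem t_… : S_…` in the file named in the docstring. Everything here needs only Mathlib (and the small
lemma files `Pool.Agent.R484.SGa`, `Pool.Agent.H578R3.SgnLin`).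
-/

set_option autoImplicit false

open Module

namespace Pool.Agent.H64NC

universe u v w

/-- The number of numerically independent endomorphisms is at most the square of the parity index (from the pieces STR1, STR2).

`E` is a `ℚ`-algebra, represented on a finite dimensional vector space `V` over a field `K` of characteristic
zero, commuting with the idempotent `p` (the projector to the even part); `str T = tr ((p - (1 - p)) T)` is the
supertrace; `τ x = str (π x)` is rational. If `f 1, …, f r` are linearly independent modulo the radical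
`N = {x | ∀ y, τ (x y) = 0}` of the trace form, then there is `x ∈ E` with `x² - 1 ∈ N`, `τ x ≥ 0` and `r ≤ (τ x)²`. -/
def S_STRUCT : Prop :=
  ∀ (K : Type w) [Field K] [CharZero K] (V : Type w) [AddCommGroup V] [Module K V]
    [Module.Finite K V] (E : Type v) [Ring E] [Algebra ℚ E] (π : E →+* Module.End K V)
    (p : Module.End K V), p * p = p → (∀ x, Commute (π x) p) →
    ∀ (τ : E →ₗ[ℚ] ℚ), (∀ x, ((τ x : ℚ) : K) = LinearMap.trace K V ((p - (1 - p)) * π x)) →
    ∀ (r : ℕ) (f : Fin r → E), (∀ a : Fin r → ℚ, (∀ y, τ ((∑ i, a i • f i) * y) = 0) → a = 0) →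
    ∃ x : E, (∀ y, τ ((x * x - 1) * y) = 0) ∧ 0 ≤ τ x ∧ (r : ℚ) ≤ (τ x) ^ 2

/-- **Piece STR1** (file `Pool/Agent/H64NC/Str1.lean`, `theorem t_STR1 : S_STR1`): rational forms of algebras with an integral
trace form.

`Q` is a finite dimensional algebra over an algebraically closed field `K` of characteristic zero, `s : Q → K` is a linear functional with
`s (x y) = s (y x)`, nondegenerate, integral on idempotents and zero on nilpotent elements. `E` is a `ℚ`-algebra with a ring homomorphism
`κ : E → Q` whose image spans `Q` over `K`, such that `τ x = s (κ x)` is rational. If `f 1, …, f r ∈ E` are linearly independent modulo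
`{x | ∀ y, τ (x y) = 0}`, then there is `x ∈ E` with `κ x * κ x = 1`, `τ x ≥ 0` and `r ≤ (τ x)²`.

Proof.
1. `Q` is semisimple: it is Artinian, and an element `x` of the Jacobson radical has `x y` nilpotent for all `y`, so
   `s (x y) = 0` and `x = 0`. (`IsArtinianRing.isSemisimpleRing_iff_jacobson`, nilpotency of the radical of
   an Artinian ring.) By `IsSemisimpleRing.exists_algEquiv_pi_matrix_of_isAlgClosed` there is an isomorphism
   `Q ≃ₐ[K] Π i : Fin m, Matrix (Fin (n i)) (Fin (n i)) K` with `n i ≠ 0`.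
2. A linear functional `φ` on `Π i, Mat_(n i) K` with `φ (x y) = φ (y x)` is `φ x = ∑ i, φ(e i) · tr (x i)` where
   `e i` is the matrix unit `E_00` in the `i`-th factor. Apply this to `s`, with `c i = s (e i)`: `c i ∈ ℤ` (idempotent), and
   `c i ≠ 0` as `s` is nondegenerate. Apply it also to the trace `t` of left multiplication, `t x = tr (y ↦ x y)` on `Q`: there `t (e i)` is
   the trace of a nonzero idempotent operator, a positive natural number `t i` (the rank).
3. *The Casimir element.* Choose `x 1, …, x d ∈ E` such that the `κ (x j)` form a `K`-basis of `Q` (`κ(E)` spans `Q`).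
   The matrix `G = (τ (x i x j))` over `ℚ` is symmetric and invertible (`s` is nondegenerate and the `κ (x j)` are a basis).
   Put `Ω = ∑ i j, (G⁻¹) i j • (x i * x j) ∈ E`. For `a ∈ Q`: `s (a κ(Ω)) = t a` (the coordinates of `y ∈ Q` in the basis
   are `y_k = ∑ i, s (y κ(x_i)) (G⁻¹) i k`; take the trace of `y ↦ a y`). By 2 and nondegeneracy, `κ(Ω)` is the central
   element with the components `(t i / c i) · 1`.
4. Let `q ∈ ℚ[X]` be a polynomial with `q (t i / c i) = sign (c i)` for all `i` (`Lagrange.interpolate` on the finite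
   set of these rational numbers; it is well defined as the sign of `t i / c i` is the sign of `c i`), and `x = q(Ω) = aeval Ω q`.
   Then `κ(x)` has the components `sign (c i) · 1`, so `κ x * κ x = 1`, and
   `τ x = s (κ x) = ∑ i, sign (c i) c i n i = ∑ i, |c i| n i`.
5. The `κ (f j)` are linearly independent over `K`: if `∑ a_j κ (f j) = 0` with `a_j ∈ K`, then `∑ a_j τ (f_j y) = 0` for
   all `y ∈ E`; the `ℚ`-linear map `y ↦ (τ (f_j y))_j` to `ℚ^r` is surjective (otherwise a nonzero rational vector `a` kills its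
   image, contradiction), so `a = 0`. Hence `r ≤ dim Q = ∑ i, (n i)² ≤ (∑ i, |c i| n i)² = (τ x)²`. -/
def S_STR1 : Prop :=
  ∀ (K : Type w) [Field K] [CharZero K] [IsAlgClosed K] (Q : Type w) [Ring Q] [Algebra K Q]
    [Module.Finite K Q] (s : Q →ₗ[K] K), (∀ x y, s (x * y) = s (y * x)) →
    (∀ x, (∀ y, s (x * y) = 0) → x = 0) → (∀ e, e * e = e → ∃ m : ℤ, s e = m) →
    (∀ x, IsNilpotent x → s x = 0) →
    ∀ (E : Type v) [Ring E] [Algebra ℚ E] (κ : E →+* Q),
    Submodule.span K (Set.range κ) = ⊤ →
    ∀ (τ : E →ₗ[ℚ] ℚ), (∀ x, ((τ x : ℚ) : K) = s (κ x)) →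
    ∀ (r : ℕ) (f : Fin r → E), (∀ a : Fin r → ℚ, (∀ y, τ ((∑ i, a i • f i) * y) = 0) → a = 0) →
    ∃ x : E, κ x * κ x = 1 ∧ 0 ≤ τ x ∧ (r : ℚ) ≤ (τ x) ^ 2

/-- **Piece STR2** (file `Pool/Agent/H64NC/Str2.lean`, `theorem t_STR2 : S_STR2`): reduction of `S_STRUCT` to `S_STR1`.

Proof.
0. *Reduction to `K` algebraically closed.* Replace `K, V` by `K' = AlgebraicClosure K`, `K' ⊗ V` and `π, p` by their base
   changes (`LinearMap.baseChange`, `LinearMap.trace_baseChange`; the ring homomorphism `Module.End.baseChangeHom`; see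
   the end of `Pool/Agent/R484/SGa.lean`, `gap_main`, and the lemmas `bc_mul, bc_sub, bc_pow, bc_one` of
   `Pool.Agent.H447R3.KuA`). All of `K', K' ⊗ V` are in the same universe as `K, V`.
1. Let `A ⊆ End_K V` be the `K`-span of `π(E)`: a finite dimensional subalgebra whose elements commute with `p`, so
   `str (x y) = str (y x)` on `A`. Let `J = {a ∈ A | ∀ y ∈ A, str (a y) = 0}`, a two-sided ideal of `A`, and `Q = A/J`, a
   finite dimensional `K`-algebra with the induced functional `s : Q → K`, `s (x y) = s (y x)`, nondegenerate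
   (`(∀ y, s (x y) = 0) → x = 0`). Let `κ : E →+* Q` be the induced map: `κ(E)` spans `Q` over `K`, and
   `s (κ x) = τ x`.
   (Quotients by two-sided ideals: `Ideal.Quotient.ring` etc. with `[I.IsTwoSided]`, or `RingCon`.)
2. (i) If `e ∈ Q`, `e² = e` then `s e ∈ ℤ`: a lift `T ∈ A` has `str (T^(r+1)) = s (e^(r+1)) = s e` for all `r`; apply
   `Pool.Agent.H578R3.Sgn.main` (file `Pool/Agent/H578R3/SgnLin.lean`). (ii) If `x ∈ Q` is nilpotent, then
   `s x = 0`: a lift `T ∈ A` has `str (T^j) = 0` for all `j ≥ m`. Write `minpoly T = X^n g` with `g` prime to `X`, and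
   `1 = a X^(m+n) + b g`; then `E' = a(T) T^(m+n)` is a polynomial in `T`, `T (1 - E')` is nilpotent (a power of it is divisible by
   `X^n g`) and commutes with `p`, so its supertrace is zero, while `str (T E')` is a
   combination of `str (T^j)`, `j > m`, hence zero. (Or use `exists_data` of `Pool.Agent.R484.SG`.)
3. Apply `S_STR1`: `x ∈ E` with `κ (x² - 1) = 0`, so `τ ((x² - 1) y) = s (κ (x² - 1) κ y) = 0`. -/
def S_STR2 : Prop := S_STR1.{v, w} → S_STRUCT.{v, w}

/-- The signed permutation matrix of a permutation `σ` of the places and signs `ε`: it maps the basis vector of `I` to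
`ε I` times the basis vector of `I ∘ σ`. -/
def sgm {n D : ℕ} (σ : Equiv.Perm (Fin n)) (ε : (Fin n → Fin D) → ℚ) :
    Matrix (Fin n → Fin D) (Fin n → Fin D) ℚ :=
  Matrix.of fun J I => if J = I ∘ σ then ε I else 0

/-- **Piece COUNT** (file `Pool/Agent/H64NC/Count.lean`): signed permutations of the places of tensors span a big space.

Proof. Let `⟨A, B⟩ = ∑ i j, A i j * B i j` on matrices and `N = n!`. Let `U σ = sgm σ (ε σ)`.
1. `⟨U σ, U σ⟩ = D^n`. And `|⟨U σ, U τ⟩| ≤ #{I | I ∘ σ = I ∘ τ} =: F (σ, τ)`, as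
   `⟨U σ, U τ⟩ = ∑ I, [I ∘ σ = I ∘ τ] ε σ I * ε τ I`.
2. `F (σ, τ)² = #{(I, I') | I ∘ σ = I ∘ τ, I' ∘ σ = I' ∘ τ} = #{L : Fin n → Fin D × Fin D | L ∘ σ = L ∘ τ}`, so for fixed `τ`
   `∑ σ, F (σ, τ)² = ∑ ρ, #{L | L ∘ ρ = L} = N · #orbits` (`ρ = σ τ⁻¹`; Burnside:
   `MulAction.sum_card_fixedBy_eq_card_orbits_mul_card_group`, e.g. with `DomMulAct` or a direct count), where
   the number of orbits of the permutations of the places on `Fin n → Fin D × Fin D` is at most `(n + 1)^(D^2)`: `L` and `L'` are in the same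
   orbit when they take each value equally often (`Multiset.map_univ_eq_iff`-type lemma), so orbits inject into functions `Fin D × Fin D → Fin (n + 1)`.
3. Rank inequality: if vectors `u_σ` in a Euclidean space span a subspace of dimension `r`, then
   `(∑ σ, ‖u_σ‖²)² ≤ r · ∑ σ τ, ⟨u_σ, u_τ⟩²`. (With an orthonormal basis `e_1..e_r` of the span and
   `S_ij = ∑ σ, ⟨e_i, u_σ⟩ ⟨e_j, u_σ⟩`: `(∑ i, S_ii)² ≤ r ∑ i, S_ii² ≤ r ∑ i j, S_ij²`, and `∑ i j, S_ij² = ∑ σ τ, ⟨u_σ, u_τ⟩²`,
   `∑ i, S_ii = ∑ σ, ‖u_σ‖²`. Work over `ℝ` with `EuclideanSpace ℝ (I × J)`; the rank of the rational matrices over `ℚ` and over `ℝ`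
   is the same, it is enough that vectors which are linearly independent over `ℝ` are so over `ℚ`: choose `g` such that
   the `u_(g i)` are a basis of the real span of all `u_σ`.)
4. So `(N D^n)² ≤ r · N · N (n + 1)^(D^2)`, which is the claim. -/
def S_COUNT : Prop :=
  ∀ (n D : ℕ) (ε : Equiv.Perm (Fin n) → (Fin n → Fin D) → ℚ),
    (∀ σ I, ε σ I = 1 ∨ ε σ I = -1) →
    ∃ (r : ℕ) (g : Fin r → Equiv.Perm (Fin n)),
      LinearIndependent ℚ (fun i => sgm (g i) (ε (g i))) ∧
      D ^ (2 * n) ≤ r * (n + 1) ^ (D ^ 2)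

/-- **Piece CUT** (file `Pool/Agent/H64NC/Cut.lean`): involutions modulo the radical are bounded by the rank of a
cutting idempotent.

`A` is a set of operators closed under products, commuting with the idempotent `p`; `c ∈ A` is an idempotent with
`str ((c - 1) y) = 0` for all `y ∈ A`, and `z ∈ A` satisfies `str ((z z - z) y) = 0` for all `y ∈ A`. Then
`str (2 z - 1)` is an integer of absolute value at most the rank of `c` (which is `tr c`).

Proof. Put `T = c z c + (1 - c) p`. As `c` commutes with `p`, `T^(r+1) = (c z c)^(r+1) + (1 - c) p`. Each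
`(c z c)^(r+1)` differs from `z^(r+1)`, and that from `z`, by combinations of products `x (c - 1) y`, `x (z z - z) y` with
`x, y ∈ A`, so `str ((c z c)^(r+1)) = str z` (use `str (x y) = str (y x)` on operators which commute with `p`). And
`str ((1 - c) p) = tr ((1 - c) p) =: r₀` a natural number (trace of an idempotent) which is also `tr ((1 - c) (1 - p))`, since
`str (1 - c) = 0`; so `tr (1 - c) = 2 r₀`. Now `Pool.Agent.H578R3.Sgn.main` for `p, T` gives natural numbers `a, b, k` with
`str z + r₀ = a - b`, `tr p = a + k`. So `str (2 z - 1) = 2 (a - b - r₀) - (2 tr p - dim V) = dim V - 2 r₀ - 2 (b + k) =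
tr c - 2 (b + k) ≤ tr c`. The same for `1 - z` instead of `z` gives the lower bound. -/
def S_CUT : Prop :=
  ∀ (K : Type w) [Field K] [CharZero K] (V : Type w) [AddCommGroup V] [Module K V]
    [Module.Finite K V] (p c z : Module.End K V) (A : Set (Module.End K V)), p * p = p → c * c = c →
    (∀ x ∈ A, Commute x p) → (1 : Module.End K V) ∈ A → c ∈ A → z ∈ A →
    (∀ x ∈ A, ∀ y ∈ A, x * y ∈ A) → (∀ x ∈ A, ∀ y ∈ A, x - y ∈ A) →
    (∀ y ∈ A, LinearMap.trace K V ((p - (1 - p)) * ((c - 1) * y)) = 0) →
    (∀ y ∈ A, LinearMap.trace K V ((p - (1 - p)) * ((z * z - z) * y)) = 0) →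
    ∀ N : ℕ, LinearMap.trace K V c = N →
    ∃ m : ℤ, LinearMap.trace K V ((p - (1 - p)) * (z - (1 - z))) = m ∧ |m| ≤ N

end Pool.Agent.H64NC
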