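import Pool.Agent.R484.NCc
import Pool.Agent.H64NC.Stm

/-!
# Project NCA (helper64), part 2: pieces in the tensor category
-/

set_option autoImplicit false

open CategoryTheory Limits MonoidalCategory
open Pool.Agent.Y112.SR Pool.Agent.Y112.KD Pool.Agent.R484.NC

namespace Pool.Agent.H64NC

universe u v w

/-- **Piece PERM** (file `Pool/Agent/H64NC/Perm.lean`): permutations of the places of the tensor power `tp M n` act on
the realisation by signed permutation matrices, in a suitable basis; `s'` realises the transposed matrix of `s`.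

Proof. Let `D = totalDim R M` and `v : Basis (Fin D) K (R.H.obj M)` a basis of homogeneous vectors:
`R.par M (v i) = η i • v i`, `η i = ±1` (`par` is an involution, `2 ≠ 0` in `K` as `K` has characteristic zero by `R_charZero R`; take bases of
the two eigenspaces `range (pe R M)`, `range (po R M)`, which are complementary, and reindex by the number of elements).
Define `b n : Basis (Fin n → Fin D) K (R.H.obj (tp M n))` by recursion: for `n = 0`, `tp M 0 = 𝟙_ C` and `R.H.obj (𝟙_ C)` is
one-dimensional through the unit isomorphism `ε` of the monoidal functor `R.H`; for `n + 1`, `tp M (n + 1) = tp M n ⊗ M` and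
`b (n + 1) I = μ (b n (I ∘ Fin.castSucc) ⊗ v (I (Fin.last n)))` (`Basis.tensorProduct`, the isomorphism
`μ R.H (tp M n) M`, reindexing by `Fin.snocEquiv`/`Fin.initEquiv…`). Call `σ ∈ Perm (Fin n)` good if `s, s', ε` as in the statement exist. Then:
1. `1` is good, and products of good permutations are good (compose `s` with `s`, and `s'` with `s'` in the opposite order).
2. If `σ ∈ Perm (Fin n)` is good, so is its extension to `Fin (n + 1)` which fixes the last place: use `s ▷ M`, `s' ▷ M`,
   `map_whiskerRight_eq`, `bx` (`Pool.Agent.Y112.SC.Box`): `bx R a b (μ (x ⊗ y)) = μ (a x ⊗ b y)`.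
3. The transposition of the last two places of `Fin (n + 2)` is good with `s = s' = sw (tp M n) M`
   (`= (α_ _ _ _).hom ≫ tp M n ◁ (β_ M M).hom ≫ (α_ _ _ _).inv`, see `Pool.Agent.Y112.KD.Swap`), `ε I = -1` if both
   `η (I n)` and `η (I (n+1))` are `-1`, and `ε I = 1` otherwise: this is `R.symm M M` evaluated at `v i ⊗ v j`
   (`(1 + η i + η j - η i η j) / 2 = ε`), and the compatibility of `μ` with the associators.
4. `Perm (Fin (n + 2))` is generated by the extensions of `Perm (Fin (n + 1))` and the last transposition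
   (`Equiv.Perm.mclosure_swap_castSucc_succ`). Induction on `n`. -/
def S_PERM : Prop :=
  ∀ {C : Type u} [Category.{v} C] [Preadditive C] [Linear ℚ C] [MonoidalCategory C]
    [MonoidalPreadditive C] [MonoidalLinear ℚ C] [SymmetricCategory C] [RightRigidCategory C]
    {K : Type w} [Field K] (R : SuperRealisation C K) (M : C) (n : ℕ),
    ∃ b : Module.Basis (Fin n → Fin (totalDim R M)) K (R.H.obj (tp M n)),
      ∀ σ : Equiv.Perm (Fin n), ∃ (s s' : tp M n ⟶ tp M n)
        (ε : (Fin n → Fin (totalDim R M)) → ℚ), (∀ I, ε I = 1 ∨ ε I = -1) ∧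
        (∀ I, op R s (b I) = ((ε I : ℚ) : K) • b (I ∘ σ)) ∧
        (∀ I, op R s' (b (I ∘ σ)) = ((ε I : ℚ) : K) • b I)

/-- **Piece UPPER** (file `Pool/Agent/H64NC/Upper.lean`; helper64 does this one). -/
def S_UPPER : Prop :=
  ∀ {C : Type u} [Category.{v} C] [Preadditive C] [Linear ℚ C] [MonoidalCategory C]
    [MonoidalPreadditive C] [MonoidalLinear ℚ C] [SymmetricCategory C] [RightRigidCategory C]
    (hU : UnitQ C) {K : Type w} [Field K] (R : SuperRealisation C K) (X : C) (f : X ⟶ X),
    NumZero hU f → ¬ IsNilpotent (op R f) → 2 ≤ totalDim R X ∧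
      ∀ (k : ℕ) (x : tp X k ⟶ tp X k), NumInvolution hU x →
        ctr hU x ≤ (((totalDim R X - 2) ^ k : ℕ) : ℚ)

end Pool.Agent.H64NC
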