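import Pool.Agent.H64NC.Stm2

/-!
# Project NCA (helper64), part 3: PERM with the membership in the monoid of the exchanges
-/

set_option autoImplicit false

open CategoryTheory Limits MonoidalCategory
open Pool.Agent.Y112.SR Pool.Agent.Y112.KD Pool.Agent.R484.NC

namespace Pool.Agent.H64NC

universe u v w

/-- **Piece PERM2** (same proof as PERM, `Pool/Agent/H64NC/Perm.lean` or `Perm2.lean`): as `S_PERM`, and moreover `s`, `s'` are products of exchanges
of neighbouring factors (`IsSwap M n`; these are `sw (tp M n) M` and, inductively, `t ▷ M`). The operation `t ↦ t ▷ M`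
maps products of exchanges to products of exchanges (`comp_whiskerRight`, `Submonoid.closure_induction`). -/
def S_PERM2 : Prop :=
  ∀ {C : Type u} [Category.{v} C] [Preadditive C] [Linear ℚ C] [MonoidalCategory C]
    [MonoidalPreadditive C] [MonoidalLinear ℚ C] [SymmetricCategory C] [RightRigidCategory C]
    {K : Type w} [Field K] (R : SuperRealisation C K) (M : C) (n : ℕ),
    ∃ b : Module.Basis (Fin n → Fin (totalDim R M)) K (R.H.obj (tp M n)),
      ∀ σ : Equiv.Perm (Fin n), ∃ (s s' : tp M n ⟶ tp M n)
        (ε : (Fin n → Fin (totalDim R M)) → ℚ), (∀ I, ε I = 1 ∨ ε I = -1) ∧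
        (∀ I, op R s (b I) = ((ε I : ℚ) : K) • b (I ∘ σ)) ∧
        (∀ I, op R s' (b (I ∘ σ)) = ((ε I : ℚ) : K) • b I) ∧
        (s : End (tp M n)) ∈ Submonoid.closure {t : End (tp M n) | IsSwap M n t} ∧
        (s' : End (tp M n)) ∈ Submonoid.closure {t : End (tp M n) | IsSwap M n t}

end Pool.Agent.H64NC
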