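import Pool.Agent.H64NC.PosD

/-!
# Project NCA (helper64), phase 2: statements

Goal of phase 2: if every numerically trivial endomorphism of `M^{⊗ p q}` which comes from the group algebra of the symmetric group
vanishes in the realisation (`(p | q)` = dimensions of the even and odd parts), then this holds in all degrees. So the asymptotic
sign conjecture for `M` is decided in degree `p q`.

Each `S_…` is one independent piece, to be proved as `theorem t_… : S_…`. `set_option backward.isDefEq.respectTransparency false` and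
`set_option backward.defeqAttrib.useBackward true` are used in `Pool/Agent/Y112/SC/Box.lean`, where the rules for `bx`, `PT` are.
-/

set_option autoImplicit false

open CategoryTheory Limits MonoidalCategory
open Pool.Agent.Y112.SR Pool.Agent.Y112.KD Pool.Agent.Y112.SC Pool.Agent.R484.NC

namespace Pool.Agent.H64NC

universe u v w

/-- **Piece NUM** (file `Pool/Agent/H64NC/Num.lean`; pure integers).

Proof. Write `k x` for the numbers, `x = 0, …, p+q-1`. For `x ≥ p` (odd) the relation is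
`-k² - k (number of a > x) + ∑_{a > x} k a = 0`; by downward induction on `x`, `k x = 0` for all `x ≥ p`.
For `x < p` it becomes `k² + k ((p - 1 - x) - q) - ∑_{a > x} k a = 0` (the sum over even `a`). If all `k x = 0`, done.
Otherwise let `y < p` be the largest index with `k y ≠ 0`: then `k y = q - (p - 1 - y) =: b`. By downward induction on `x ≤ y`: `k x = b`, since
`k² + k ((p - 1 - x) - q) - b (y - x) = (k - b) (k + (y - x))`, and `k + (y - x) > 0` for `x < y` (`k ≥ 0`). So the sum is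
`b (y + 1) = (q - (p - (y+1))) (y + 1) ≤ p q`. -/
def S_NUM : Prop :=
  ∀ (p q : ℕ) (k : Fin (p + q) → ℕ),
    (∀ x, et p x * (k x : ℤ) ^ 2 + (k x : ℤ) * ∑ a ∈ Finset.univ.filter (fun a => x < a), et p a -
      et p x * ∑ a ∈ Finset.univ.filter (fun a => x < a), (k a : ℤ) = 0) →
    ∑ x, k x ≤ p * q

/-- **Piece GRP** (file `Pool/Agent/H64NC/Grp.lean`): the partial trace maps the algebra of the permutations of `n + 1` factors to that of
`n` factors.

Proof. Put `G n = Submonoid.closure {t : End (tp M n) | IsSwap M n t}`; the algebra is the `ℚ`-span of `G n`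
(`Algebra.adjoin_eq_span`). Claim: each element of `G (n + 1)` is `g ▷ M` or (if `n = m + 1`) `(g ▷ M) ≫ sw (tp M m) M ≫ (h ▷ M)` with
`g, h ∈ G n` (`S_{n+1} = S_n ∪ S_n s S_n`): the proof is in `Pool/Agent/Y112/SC/Mon.lean` (`Mon.comp`, `Mon.compBox`, `Mon.compSg`) in a slightly
different setting (there for operators, with parity signs; here all `b, c, d` are identities), by induction on `n` from
`sw_sw`, `braid`, `sw_nat_left` (`Pool/Agent/Y112/KD/Swap.lean`). Then `ptr (g ▷ M) = c • g` (`ptr_tensor` with `q = 𝟙`, `trq_spec hU`),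
`ptr ((g ▷ M) ≫ sw _ _ ≫ (h ▷ M)) = g ≫ h` (`ptr_comp`, `ptr_sw`), and `ptr` is `ℚ`-linear (`ptr_add`, `ptr_smul`). -/
def S_GRP : Prop :=
  ∀ {C : Type u} [Category.{v} C] [Preadditive C] [Linear ℚ C] [MonoidalCategory C]
    [MonoidalPreadditive C] [MonoidalLinear ℚ C] [SymmetricCategory C] [RightRigidCategory C]
    (_ : UnitQ C) (M : C) (n : ℕ) (z : tp M (n + 1) ⟶ tp M (n + 1)),
    (z : End (tp M (n + 1))) ∈ Algebra.adjoin ℚ {t : End (tp M (n + 1)) | IsSwap M (n + 1) t} →
    (ptr z : End (tp M n)) ∈ Algebra.adjoin ℚ {t : End (tp M n) | IsSwap M n t}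

section

variable {C : Type u} [Category.{v} C] [Preadditive C] [Linear ℚ C] [MonoidalCategory C]
  [MonoidalPreadditive C] [MonoidalLinear ℚ C] [SymmetricCategory C] [RightRigidCategory C]
  {K : Type w} [Field K] (R : SuperRealisation C K)

/-- **Piece REACH** (file `Pool/Agent/H64NC/Reach.lean`): permutations move the factors, also for odd operators.

Proof. Main lemma (compare `bx_braid`, `bx_sw` in `Y112/SC/Box.lean`): for `g` of parity `t` and any `a`,
`bx R (bx R (a) (pw1 R t M)) g ≫ Sg = Sg ≫ bx R (bx R a g) (𝟙 _)` with `Sg = R.H.map (sw Q M)`, and with both sides exchanged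
(`Sg ≫ Sg = 𝟙`). It reduces to `(par ⊗ₘ g) ≫ Θ = Θ ≫ (𝟙 ⊗ₘ g)` for odd `g` where `Θ = 𝟙 + par ▷ _ + _ ◁ par - (par ⊗ₘ par)` is the factor
in `R.symm`, which is immediate from `par ≫ par = 𝟙` and `g ≫ par = - par ≫ g`.
(a) is by induction on `m`: for `i = last` take `u = u' = 𝟙`; for `i = castSucc j` (so `m = l + 1`) take `u₀, u₀'` for `j : Fin (l + 1)`,
`Ps (l+2) (castSucc j) = bx (Ps (l+1) j) 𝟙 = (u₀ ▷ M) (bx (bx (par^t) g) 𝟙) (u₀' ▷ M)` and
`bx (bx (par^t) g) 𝟙 = Sg ≫ bx (par^t ⊗ par^t) g ≫ Sg = Sg ≫ Ps (l+2) last ≫ Sg` (`bx_par`; `pw1 R t (tp M (l+1)) = bx (pw1 R t (tp M l)) (pw1 R t M)`).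
(`t ↦ t ▷ M` maps products of exchanges to products of exchanges.)
(b) by induction on `IsSwap` (closure induction for products): for `s ▷ M` from `Et_succ` and `R.par_natural`; for `s = sw (tp M n) M`:
`Et (n+2) = bx (bx (Et n) 𝟙) 𝟙 + bx (bx (par^t) g) 𝟙 + bx (par^t ⊗ par^t) g`, the last two terms are exchanged and the first one is fixed. -/
def S_REACH : Prop :=
  (∀ (M : C) (m : ℕ) (i : Fin (m + 1)), ∃ u u' : tp M (m + 1) ⟶ tp M (m + 1),
    (u : End (tp M (m + 1))) ∈ Submonoid.closure {t : End (tp M (m + 1)) | IsSwap M (m + 1) t} ∧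
    (u' : End (tp M (m + 1))) ∈ Submonoid.closure {t : End (tp M (m + 1)) | IsSwap M (m + 1) t} ∧
    u ≫ u' = 𝟙 _ ∧ u' ≫ u = 𝟙 _ ∧
    ∀ (t : Bool) (g : R.H.obj M ⟶ R.H.obj M), Od R t g →
      Ps R t g (m + 1) i = R.H.map u ≫ Ps R t g (m + 1) (Fin.last m) ≫ R.H.map u') ∧
  (∀ (M : C) (n : ℕ) (s : tp M n ⟶ tp M n),
    (s : End (tp M n)) ∈ Submonoid.closure {t : End (tp M n) | IsSwap M n t} →
    ∀ (t : Bool) (g : R.H.obj M ⟶ R.H.obj M), Od R t g →
      R.H.map s ≫ Et R t g n = Et R t g n ≫ R.H.map s)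

/-- **Piece CMT** (file `Pool/Agent/H64NC/Cmt.lean`): products on one factor and super commutators. With `σ = -1` for `t = true` and
`σ = 1` for `t = false`:

(a) `Ps t g i ≫ Ps false h i = Ps t (g ≫ h) i` for `h` even (induction on `n`, `bx_comp`; `pw1 R false = 𝟙`).
(b) `Et t g ≫ par = σ • (par ≫ Et t g)` (induction, `bx_par`).
(c) `Et t h ≫ Et t g = σ • (Et t g ≫ Et t h) + Et false (h ≫ g - σ • (g ≫ h))`: by `Et_succ`, `bx_comp` the four products are
`bx (Et h ≫ Et g) 𝟙`, `bx (Et h ≫ par^t) g`, `bx (par^t ≫ Et g) h`, `bx (par^t ≫ par^t) (h ≫ g)`; use (b) and `par ≫ par = 𝟙`.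
(d) linearity: `Et t (g + h) = Et t g + Et t h`, `Et t (c • g) = c • Et t g`. -/
def S_CMT : Prop :=
  (∀ (M : C) (t : Bool) (g h : R.H.obj M ⟶ R.H.obj M), Od R false h → ∀ (n : ℕ) (i : Fin n),
    Ps R t g n i ≫ Ps R false h n i = Ps R t (g ≫ h) n i) ∧
  (∀ (M : C) (t : Bool) (g h : R.H.obj M ⟶ R.H.obj M), Od R t g → Od R t h → ∀ n : ℕ,
    Et R t h n ≫ Et R t g n = (if t then (-1 : K) else 1) • (Et R t g n ≫ Et R t h n) +
      Et R false (h ≫ g - (if t then (-1 : K) else 1) • (g ≫ h)) n) ∧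
  (∀ (M : C) (t : Bool) (g h : R.H.obj M ⟶ R.H.obj M) (n : ℕ),
    Et R t (g + h) n = Et R t g n + Et R t h n) ∧
  (∀ (M : C) (t : Bool) (c : K) (g : R.H.obj M ⟶ R.H.obj M) (n : ℕ),
    Et R t (c • g) n = c • Et R t g n)

/-- **Piece CNN** (file `Pool/Agent/H64NC/Cnn.lean`): the partial trace as a sum over matrix units.

Proof. Both sides are `K`-linear in `z`, so first reduce to sums of `z = bx R y h`: each operator on `R.H.obj (Q ⊗ M)` is a
linear combination of operators `bx R y (eu v c d)` (conjugate with `μ`, `δ`; `TensorProduct` of finite free modules, e.g.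
`homTensorHomEquiv`, or write `z = ∑ c d, bx (y c d) (eu v c d)` with the matrix entries with respect to the second factor). As `z` commutes with the parity, so
does each `bx (y c d) (eu v c d)`, that is `pw1 (ty c d) ≫ y c d ≫ pw1 (ty c d) = ± …`; only `c = d` matters:
`bx (par^t) (e a b) ≫ bx y (e c d) ≫ bx (par^t) (e b a) = bx (par^t ≫ y ≫ par^t) (e a b ≫ e c d ≫ e b a)`, where (diagrammatic
order) `e a b ≫ e c d ≫ e b a` maps `v b ↦ v a ↦ δ_{a d} v c ↦ δ_{ad} δ_{a c} v b`, so it is `e b b` if `a = c = d` and `0` otherwise. The component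
`y a a` is even, so `par^t ≫ y ≫ par^t = y`. The sum over `b` gives `bx (y a a) 𝟙`, and `PT (bx y h) = tr (h ≫ par) • y` (`PT_bx`) gives
`PT z = ∑ a, (sign of a) • y a a`. -/
def S_CNN : Prop :=
  ∀ (Q M : C) (p N : ℕ) (v : Module.Basis (Fin N) K (R.H.obj M)), Hb p v →
    ∀ z : R.H.obj (Q ⊗ M) ⟶ R.H.obj (Q ⊗ M), z ≫ R.par (Q ⊗ M) = R.par (Q ⊗ M) ≫ z →
    ∑ a, ∑ b, ((et p a : ℤ) : K) • (bx R (pw1 R (ty p a b) Q) (eu v a b) ≫ z ≫
      bx R (pw1 R (ty p a b) Q) (eu v b a)) = bx R (PT R z) (𝟙 _)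

/-- **Piece WT** (file `Pool/Agent/H64NC/Wt.lean`): weights.

Proof. As in `Pool/Agent/H64NC/Perm.lean` take the basis `b (n + 1) I = μ (b n (I ∘ Fin.castSucc) ⊗ v (I (Fin.last n)))`, for which
`par (b n I) = ± b n I`. By `Et_succ` and `bx a b' (μ (x ⊗ y)) = μ (a x ⊗ b' y)`, induction on `n`:
`Et false (eu v x x) (b I) = (cnt I x) • b I`, and `Et t (eu v a x) (b I)` is a combination of the `b J` where `J` is `I` with one value `x`
replaced by `a`. -/
def S_WT : Prop :=
  ∀ (M : C) (p N : ℕ) (v : Module.Basis (Fin N) K (R.H.obj M)), Hb p v → ∀ n : ℕ,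
    ∃ b : Module.Basis (Fin n → Fin N) K (R.H.obj (tp M n)),
      (∀ (x : Fin N) (I : Fin n → Fin N), (Et R false (eu v x x) n).hom (b I) =
        ((cnt I x : ℕ) : K) • b I) ∧
      (∀ (t : Bool) (a x : Fin N) (I : Fin n → Fin N), a ≠ x →
        (Et R t (eu v a x) n).hom (b I) ∈ Submodule.span K {y | ∃ J : Fin n → Fin N, b J = y ∧
          cnt J x + 1 = cnt I x ∧ cnt J a = cnt I a + 1 ∧
          ∀ c, c ≠ a → c ≠ x → cnt J c = cnt I c})

end

end Pool.Agent.H64NC
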