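import Pool.Agent.H64NC.Stm2

/-!
# Project NCA (helper64): the upper bound from a numerically trivial endomorphism which is not nilpotent
-/

set_option autoImplicit false
set_option linter.unusedSectionVars false

open CategoryTheory Limits MonoidalCategory
open Pool.Agent.Y112.SR Pool.Agent.Y112.KD Pool.Agent.Y112.SC Pool.Agent.R484.NC

namespace Pool.Agent.H64NC

universe u v w

section Proj

open Polynomial

/-- The spectral projector to the nonzero eigenvalues. -/
lemma exists_proj {K : Type*} [Field K] {V : Type*} [AddCommGroup V] [Module K V]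
    [Module.Finite K V] (T : Module.End K V) (hT : ¬ IsNilpotent T) :
    ∃ g : K[X], (T * aeval T g) * (T * aeval T g) = T * aeval T g ∧ T * aeval T g ≠ 0 := by
  set χ := minpoly K T with hχ
  have hχ0 : χ ≠ 0 := minpoly.ne_zero (Algebra.IsIntegral.isIntegral T)
  obtain ⟨r, hr, hnd⟩ := exists_eq_pow_rootMultiplicity_mul_and_not_dvd χ hχ0 0
  set n := rootMultiplicity 0 χ with hn
  rw [C_0, sub_zero] at hr hnd
  have hirr : Irreducible (X : K[X]) := irreducible_X
  have hcop : IsCoprime ((X : K[X]) ^ (n + 1)) r := by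
    apply IsCoprime.pow_left
    rw [hirr.coprime_iff_not_dvd]
    exact hnd
  obtain ⟨a, b, hab⟩ := hcop
  have hT0 : aeval T (X ^ n * r) = 0 := by rw [← hr, hχ, minpoly.aeval]
  have hE : T * aeval T (a * X ^ n) = aeval T (a * X ^ (n + 1)) := by
    rw [show a * X ^ (n + 1) = X * (a * X ^ n) by ring, map_mul (aeval T) X, aeval_X]
  refine ⟨a * X ^ n, ?_, ?_⟩
  · rw [hE, ← map_mul]
    have h1 : a * X ^ (n + 1) * (a * X ^ (n + 1)) = a * X ^ (n + 1) -
        (X ^ n * r) * (a * b * X) := by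
      have h2 : a * X ^ (n + 1) = 1 - b * r := by rw [← hab]; ring
      calc a * X ^ (n + 1) * (a * X ^ (n + 1)) = a * X ^ (n + 1) * (1 - b * r) := by rw [← h2]
        _ = _ := by ring
    rw [h1, map_sub, map_mul (aeval T) (X ^ n * r), hT0, zero_mul, sub_zero]
  · intro h0
    apply hT
    refine ⟨n, ?_⟩
    rw [hE] at h0
    have h1 : aeval T (X ^ n * (a * X ^ (n + 1) + b * r)) = 0 := by
      rw [show X ^ n * (a * X ^ (n + 1) + b * r) = X ^ n * (a * X ^ (n + 1)) + (X ^ n * r) * b by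
        ring, map_add, map_mul (aeval T) (X ^ n * r), hT0, zero_mul, map_mul, h0, mul_zero,
        add_zero]
    rw [hab, mul_one, map_pow, aeval_X] at h1
    exact h1

end Proj

section

variable {C : Type u} [Category.{v} C] [Preadditive C] [Linear ℚ C] [MonoidalCategory C]
  [MonoidalPreadditive C] [MonoidalLinear ℚ C] [SymmetricCategory C] [RightRigidCategory C]
  {K : Type w} [Field K] (R : SuperRealisation C K)

/-- The span of the realised endomorphisms. -/
noncomputable def Aa (X : C) : Submodule K (R.H.obj X ⟶ R.H.obj X) :=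
  Submodule.span K (Set.range fun f : X ⟶ X => R.H.map f)

/-- The span of the realised numerically trivial endomorphisms. -/
noncomputable def Jj (hU : UnitQ C) (X : C) : Submodule K (R.H.obj X ⟶ R.H.obj X) :=
  Submodule.span K {a | ∃ f : X ⟶ X, NumZero hU f ∧ R.H.map f = a}

/-- The supertrace. -/
noncomputable def stF (X : C) : (R.H.obj X ⟶ R.H.obj X) →ₗ[K] K where
  toFun a := LinearMap.trace K (R.H.obj X) (a ≫ R.par X).hom
  map_add' a b := by rw [Preadditive.add_comp, ModuleCat.hom_add, map_add]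
  map_smul' k a := by
    rw [Linear.smul_comp, ModuleCat.hom_smul, map_smul]
    rfl

lemma stF_apply {X : C} (a : R.H.obj X ⟶ R.H.obj X) :
    stF R X a = LinearMap.trace K (R.H.obj X) (a ≫ R.par X).hom := rfl

variable {R}

lemma map_mem {X : C} (f : X ⟶ X) : R.H.map f ∈ Aa R X := Submodule.subset_span ⟨f, rfl⟩

lemma one_mem' (X : C) : (𝟙 _ : R.H.obj X ⟶ R.H.obj X) ∈ Aa R X := by
  rw [← CategoryTheory.Functor.map_id]
  exact map_mem _

lemma Aa_comp {X : C} {a b : R.H.obj X ⟶ R.H.obj X} (ha : a ∈ Aa R X) (hb : b ∈ Aa R X) :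
    a ≫ b ∈ Aa R X := by
  induction ha using Submodule.span_induction with
  | mem a ha =>
    obtain ⟨f, rfl⟩ := ha
    induction hb using Submodule.span_induction with
    | mem b hb =>
      obtain ⟨g, rfl⟩ := hb
      exact Submodule.subset_span ⟨f ≫ g, R.H.map_comp f g⟩
    | zero => rw [comp_zero]; exact zero_mem _
    | add x y _ _ hx hy => rw [Preadditive.comp_add]; exact add_mem hx hy
    | smul k x _ hx => rw [Linear.comp_smul]; exact Submodule.smul_mem _ _ hx
  | zero => rw [zero_comp]; exact zero_mem _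
  | add x y _ _ hx hy => rw [Preadditive.add_comp]; exact add_mem hx hy
  | smul k x _ hx => rw [Linear.smul_comp]; exact Submodule.smul_mem _ _ hx

lemma bx_zero_r {Q X : C} (a : R.H.obj Q ⟶ R.H.obj Q) :
    bx R a (0 : R.H.obj X ⟶ R.H.obj X) = 0 := by
  have := bx_smul_right R (0 : K) a (0 : R.H.obj X ⟶ R.H.obj X)
  simpa using this

lemma Aa_bx {Q X : C} {a : R.H.obj Q ⟶ R.H.obj Q} {b : R.H.obj X ⟶ R.H.obj X} (ha : a ∈ Aa R Q)
    (hb : b ∈ Aa R X) : bx R a b ∈ Aa R (Q ⊗ X) := by
  induction ha using Submodule.span_induction with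
  | mem a ha =>
    obtain ⟨f, rfl⟩ := ha
    induction hb using Submodule.span_induction with
    | mem b hb =>
      obtain ⟨g, rfl⟩ := hb
      exact Submodule.subset_span ⟨f ⊗ₘ g, (bx_map R f g).symm⟩
    | zero => rw [bx_zero_r]; exact zero_mem _
    | add x y _ _ hx hy => rw [bx_add_right]; exact add_mem hx hy
    | smul k x _ hx => rw [bx_smul_right]; exact Submodule.smul_mem _ _ hx
  | zero => rw [bx_zero_left]; exact zero_mem _
  | add x y _ _ hx hy => rw [bx_add_left]; exact add_mem hx hy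
  | smul k x _ hx => rw [bx_smul_left]; exact Submodule.smul_mem _ _ hx

lemma Aa_PT {Q X : C} {x : R.H.obj (Q ⊗ X) ⟶ R.H.obj (Q ⊗ X)} (hx : x ∈ Aa R (Q ⊗ X)) :
    PT R x ∈ Aa R Q := by
  induction hx using Submodule.span_induction with
  | mem a ha =>
    obtain ⟨f, rfl⟩ := ha
    rw [PT_map]
    exact map_mem _
  | zero =>
    have : PT R (0 : R.H.obj (Q ⊗ X) ⟶ R.H.obj (Q ⊗ X)) = 0 := by
      have h := PT_smul R (0 : K) (0 : R.H.obj (Q ⊗ X) ⟶ R.H.obj (Q ⊗ X))
      simpa using h
    rw [this]; exact zero_mem _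
  | add x y _ _ hx hy => rw [PT_add]; exact add_mem hx hy
  | smul k x _ hx => rw [PT_smul]; exact Submodule.smul_mem _ _ hx

lemma Aa_comm {X : C} {a : R.H.obj X ⟶ R.H.obj X} (ha : a ∈ Aa R X) :
    a ≫ R.par X = R.par X ≫ a := by
  induction ha using Submodule.span_induction with
  | mem a ha =>
    obtain ⟨f, rfl⟩ := ha
    exact R.par_natural f
  | zero => rw [zero_comp, comp_zero]
  | add x y _ _ hx hy => rw [Preadditive.add_comp, Preadditive.comp_add, hx, hy]
  | smul k x _ hx => rw [Linear.smul_comp, Linear.comp_smul, hx]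

lemma stF_comm {X : C} {a b : R.H.obj X ⟶ R.H.obj X} (ha : a ∈ Aa R X) :
    stF R X (a ≫ b) = stF R X (b ≫ a) := by
  rw [stF_apply, stF_apply, Category.assoc, trace_swap, Category.assoc, Category.assoc,
    Aa_comm ha]

variable {hU : UnitQ C}

lemma Jj_le {X : C} : Jj R hU X ≤ Aa R X := by
  apply Submodule.span_mono
  rintro _ ⟨f, -, rfl⟩
  exact ⟨f, rfl⟩

lemma Jj_st {X : C} {e y : R.H.obj X ⟶ R.H.obj X} (he : e ∈ Jj R hU X) (hy : y ∈ Aa R X) :
    stF R X (e ≫ y) = 0 := by
  induction he using Submodule.span_induction with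
  | mem a ha =>
    obtain ⟨f, hf, rfl⟩ := ha
    induction hy using Submodule.span_induction with
    | mem b hb =>
      obtain ⟨g, rfl⟩ := hb
      have h1 : ((ctr hU (f ≫ g) : ℚ) : K) = stF R X (R.H.map f ≫ R.H.map g) := by
        rw [ctr_eq R, str, stF_apply, Functor.map_comp]
      change stF R X (R.H.map f ≫ R.H.map g) = 0
      rw [← h1, hf g, Rat.cast_zero]
    | zero => rw [comp_zero, map_zero]
    | add x y _ _ hx hy => rw [Preadditive.comp_add, map_add, hx, hy, add_zero]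
    | smul k x _ hx => rw [Linear.comp_smul, map_smul, hx, smul_zero]
  | zero => rw [zero_comp, map_zero]
  | add x z _ _ hx hz => rw [Preadditive.add_comp, map_add, hx, hz, add_zero]
  | smul k x _ hx => rw [Linear.smul_comp, map_smul, hx, smul_zero]

lemma Jj_bx {Q X : C} {e : R.H.obj X ⟶ R.H.obj X} (he : e ∈ Jj R hU X) :
    bx R (𝟙 (R.H.obj Q)) e ∈ Jj R hU (Q ⊗ X) := by
  induction he using Submodule.span_induction with
  | mem a ha =>
    obtain ⟨f, hf, rfl⟩ := ha
    refine Submodule.subset_span ⟨Q ◁ f, numZero_whiskerLeft R hU Q hf, ?_⟩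
    rw [← CategoryTheory.Functor.map_id, bx_map, id_tensorHom]
  | zero => rw [bx_zero_r]; exact zero_mem _
  | add x y _ _ hx hy => rw [bx_add_right]; exact add_mem hx hy
  | smul k x _ hx => rw [bx_smul_right]; exact Submodule.smul_mem _ _ hx

variable (R)

/-- The powers of a cutting operator. -/
noncomputable def cc {X : C} (c : R.H.obj X ⟶ R.H.obj X) :
    ∀ k : ℕ, R.H.obj (tp X k) ⟶ R.H.obj (tp X k)
  | 0 => 𝟙 _
  | k + 1 => bx R (cc c k) c

variable {R}

lemma cc_mem {X : C} {c : R.H.obj X ⟶ R.H.obj X} (hc : c ∈ Aa R X) (k : ℕ) :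
    cc R c k ∈ Aa R (tp X k) := by
  induction k with
  | zero => exact one_mem' _
  | succ k ih => exact Aa_bx ih hc

lemma cc_idem {X : C} {c : R.H.obj X ⟶ R.H.obj X} (hc : c ≫ c = c) (k : ℕ) :
    cc R c k ≫ cc R c k = cc R c k := by
  induction k with
  | zero => exact Category.comp_id _
  | succ k ih =>
    change bx R (cc R c k) c ≫ bx R (cc R c k) c = bx R (cc R c k) c
    rw [bx_comp, ih, hc]

lemma cc_st {X : C} {c : R.H.obj X ⟶ R.H.obj X} (hc : c ∈ Aa R X) (h1 : 𝟙 _ - c ∈ Jj R hU X)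
    (k : ℕ) : ∀ y ∈ Aa R (tp X k), stF R (tp X k) (cc R c k ≫ y) = stF R (tp X k) y := by
  induction k with
  | zero =>
    intro y _
    change stF R (tp X 0) (𝟙 _ ≫ y) = _
    rw [Category.id_comp]
  | succ k ih =>
    intro y hy
    set z := bx R (𝟙 (R.H.obj (tp X k))) c ≫ y with hz
    have hzA : z ∈ Aa R (tp X k ⊗ X) := Aa_comp (Aa_bx (one_mem' _) hc) hy
    have e1 : cc R c (k + 1) ≫ y = bx R (cc R c k) (𝟙 _) ≫ z := by
      rw [hz, ← Category.assoc, bx_comp, Category.comp_id, Category.id_comp]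
      rfl
    have e2 : ∀ a : R.H.obj (tp X k) ⟶ R.H.obj (tp X k),
        stF R (tp X k) (a ≫ PT R z) = stF R (tp X k ⊗ X) (bx R a (𝟙 _) ≫ z) := by
      intro a
      rw [stF_apply, stF_apply, Category.assoc, Category.assoc]
      exact trace_PT R a z
    have e3 : stF R (tp X k ⊗ X) z = stF R (tp X k ⊗ X) y := by
      have h2 := Jj_st (hU := hU) (Jj_bx (Q := tp X k) h1) hy
      have h3 : bx R (𝟙 (R.H.obj (tp X k))) (𝟙 _ - c) = 𝟙 _ - bx R (𝟙 (R.H.obj (tp X k))) c := by
        rw [eq_sub_iff_add_eq, ← bx_add_right, sub_add_cancel, bx_one]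
      rw [h3, Preadditive.sub_comp, Category.id_comp, map_sub, sub_eq_zero] at h2
      exact h2.symm
    change stF R (tp X k ⊗ X) (cc R c (k + 1) ≫ y) = stF R (tp X k ⊗ X) y
    rw [e1, ← e2, ih _ (Aa_PT hzA), ← e3]
    have h4 := e2 (𝟙 _)
    rw [Category.id_comp, bx_one, Category.id_comp] at h4
    exact h4

lemma trace_bx {Q X : C} (a : R.H.obj Q ⟶ R.H.obj Q) (b : R.H.obj X ⟶ R.H.obj X) :
    LinearMap.trace K (R.H.obj (Q ⊗ X)) (bx R a b).hom =
      LinearMap.trace K (R.H.obj Q) a.hom * LinearMap.trace K (R.H.obj X) b.hom := by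
  have hK := R_charZero R
  have h2 : (2 : K) ≠ 0 := two_ne_zero
  have e1 := trace_PT R (𝟙 (R.H.obj Q)) (bx R (a ≫ R.par Q) (b ≫ R.par X))
  rw [bx_one, Category.id_comp, Category.id_comp, PT_bx R h2, ← bx_par, bx_comp, Category.assoc,
    Category.assoc, R.par_sq, R.par_sq, Category.comp_id, Category.comp_id, Linear.smul_comp,
    Category.assoc, R.par_sq, Category.comp_id, ModuleCat.hom_smul, map_smul] at e1
  rw [← e1, smul_eq_mul, mul_comm]

variable (R) in
lemma finrank_unit : Module.finrank K (R.H.obj (𝟙_ C)) = 1 := by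
  have e := (Functor.Monoidal.εIso R.H).toLinearEquiv
  rw [← e.finrank_eq]
  exact Module.finrank_self K

lemma trace_cc {X : C} (c : R.H.obj X ⟶ R.H.obj X) (k : ℕ) :
    LinearMap.trace K (R.H.obj (tp X k)) (cc R c k).hom =
      (LinearMap.trace K (R.H.obj X) c.hom) ^ k := by
  have hK := R_charZero R
  induction k with
  | zero =>
    rw [pow_zero]
    have h0 := R.finite (𝟙_ C)
    change LinearMap.trace K (R.H.obj (𝟙_ C)) (𝟙 (R.H.obj (𝟙_ C)) : _ ⟶ _).hom = 1
    rw [ModuleCat.hom_id, LinearMap.trace_id, finrank_unit R, Nat.cast_one]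
  | succ k ih =>
    rw [pow_succ, ← ih]
    exact trace_bx _ _


section

open Polynomial

lemma ofHom_mem {hU : UnitQ C} {X : C} {f : X ⟶ X} (hf : NumZero hU f) (g : K[X]) :
    (ModuleCat.ofHom (op R f * aeval (op R f) g) : R.H.obj X ⟶ R.H.obj X) ∈ Jj R hU X := by
  induction g using Polynomial.induction_on' with
  | add p q hp hq =>
    rw [map_add, mul_add]
    exact add_mem hp hq
  | monomial n a =>
    have h1 : op R f * aeval (op R f) (monomial n a) = a • op R (pw f (n + 1)) := by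
      rw [aeval_monomial, Algebra.algebraMap_eq_smul_one, smul_mul_assoc, one_mul, mul_smul_comm,
        ← pow_succ', op_pw]
    rw [h1]
    have h2 : NumZero hU (pw f (n + 1)) := NumZero.comp_right R hU hf _
    have h3 : (ModuleCat.ofHom (a • op R (pw f (n + 1))) : R.H.obj X ⟶ R.H.obj X) =
        a • R.H.map (pw f (n + 1)) := rfl
    rw [h3]
    exact Submodule.smul_mem _ _ (Submodule.subset_span ⟨_, h2, rfl⟩)

end

end

/-- **The upper bound.** -/
theorem upper (hcut : S_CUT.{w}) : S_UPPER.{u, v, w} := by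
  intro C _ _ _ _ _ _ _ _ hU K _ R X f hf hnil
  have hK := R_charZero R
  have h0 := R.finite X
  obtain ⟨g, hee, hne⟩ := exists_proj (op R f) hnil
  set e := op R f * Polynomial.aeval (op R f) g with he
  have heJ : (ModuleCat.ofHom e : R.H.obj X ⟶ R.H.obj X) ∈ Jj R hU X := ofHom_mem hf g
  set eM : R.H.obj X ⟶ R.H.obj X := ModuleCat.ofHom e with heM
  have heeM : eM ≫ eM = eM := ModuleCat.hom_ext hee
  set c : R.H.obj X ⟶ R.H.obj X := 𝟙 _ - eM with hc
  have hcA : c ∈ Aa R X := sub_mem (one_mem' X) (Jj_le heJ)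
  have hcc : c ≫ c = c := by
    rw [hc, Preadditive.sub_comp, Preadditive.comp_sub, Preadditive.comp_sub, heeM]
    simp
  have h1c : 𝟙 _ - c ∈ Jj R hU X := by
    rw [hc, sub_sub_cancel]
    exact heJ
  -- ranks
  set p := evp R X with hp
  have hpp : p * p = p := evp_idem R X
  have hfp : Commute (op R f) p := op_comm R f
  have hep : Commute e p := hfp.mul_left (Pool.Agent.H447.comm_aeval hfp.symm g).symm
  have hstr : LinearMap.trace K (R.H.obj X) ((p - (1 - p)) * e) = 0 := by
    have h1 := Jj_st heJ (one_mem' X)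
    rw [Category.comp_id, stF_apply, ModuleCat.hom_comp, par_hom] at h1
    exact h1
  have i1 : (p * e) * (p * e) = p * e := by
    calc (p * e) * (p * e) = p * (e * p) * e := by simp only [mul_assoc]
      _ = (p * p) * (e * e) := by rw [hep.eq]; simp only [mul_assoc]
      _ = p * e := by rw [hpp, hee]
  have t1 := Pool.Agent.H914.trace_idem i1
  set r₀ := Module.finrank K (LinearMap.range (p * e)) with hr₀
  have t2 : LinearMap.trace K (R.H.obj X) e = 2 * r₀ := by
    have h1 : e = (2 : K) • (p * e) - (p - (1 - p)) * e := by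
      rw [two_smul]
      noncomm_ring
    rw [h1, map_sub, hstr, map_smul, t1, sub_zero, smul_eq_mul]
  have hr1 : 1 ≤ r₀ := by
    rcases Nat.eq_zero_or_pos r₀ with h | h
    · exfalso
      apply hne
      apply Pool.Agent.H914.eq_zero_of_idem_of_trace_eq_zero hee
      rw [t2, h]
      simp
    · exact h
  have hcce : (1 - e) * (1 - e) = 1 - e := by rw [mul_sub, sub_mul, sub_mul, hee]; simp
  have t3 := Pool.Agent.H914.trace_idem hcce
  set N₀ := Module.finrank K (LinearMap.range (1 - e)) with hN₀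
  have hch : c.hom = 1 - e := by
    rw [hc, ModuleCat.hom_sub, ModuleCat.hom_id]
    rfl
  have hdim : totalDim R X = N₀ + 2 * r₀ := by
    have h1 : LinearMap.trace K (R.H.obj X) (1 - e) + LinearMap.trace K (R.H.obj X) e =
        (totalDim R X : K) := by
      rw [← map_add, sub_add_cancel, LinearMap.trace_one, totalDim]
    rw [t3, t2] at h1
    exact_mod_cast h1.symm
  refine ⟨by omega, fun k x hx => ?_⟩
  have hfk := R.finite (tp X k)
  set z : tp X k ⟶ tp X k := (2⁻¹ : ℚ) • (𝟙 _ + x) with hz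
  have hzz : z ≫ z - z = (4⁻¹ : ℚ) • (x ≫ x - 𝟙 _) := by
    rw [hz]
    simp only [Linear.smul_comp, Linear.comp_smul, Preadditive.add_comp, Preadditive.comp_add,
      Category.id_comp, Category.comp_id, smul_smul, smul_add, smul_sub]
    have e1 : (2⁻¹ : ℚ) * 2⁻¹ = 4⁻¹ := by norm_num
    have e2 : ∀ x : tp X k ⟶ tp X k, (2⁻¹ : ℚ) • x = (4⁻¹ : ℚ) • x + (4⁻¹ : ℚ) • x := by
      intro x; rw [← add_smul]; norm_num
    rw [e1, e2 (𝟙 _), e2 x]
    abel
  have hzz' : NumZero hU (z ≫ z - z) := by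
    intro y
    rw [hzz, Linear.smul_comp, ctr_smul, hx, mul_zero]
  have hst : ∀ a : R.H.obj (tp X k) ⟶ R.H.obj (tp X k), stF R (tp X k) a =
      LinearMap.trace K (R.H.obj (tp X k)) ((evp R (tp X k) - (1 - evp R (tp X k))) * a.hom) := by
    intro a
    rw [stF_apply, ModuleCat.hom_comp, par_hom]
    rfl
  have key := hcut K (R.H.obj (tp X k)) (evp R (tp X k)) (cc R c k).hom (op R z)
    {a | ∃ b ∈ Aa R (tp X k), b.hom = a} (evp_idem R _)
    (congrArg ModuleCat.Hom.hom (cc_idem hcc k)) ?_ ⟨𝟙 _, one_mem' _, rfl⟩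
    ⟨_, cc_mem hcA k, rfl⟩ ⟨_, map_mem z, rfl⟩ ?_ ?_ ?_ ?_ (N₀ ^ k) ?_
  · obtain ⟨m, hm, hmN⟩ := key
    have h1 : LinearMap.trace K (R.H.obj (tp X k))
        ((evp R (tp X k) - (1 - evp R (tp X k))) * (op R z - (1 - op R z))) = (ctr hU x : K) := by
      rw [ctr_eq R, str_eq]
      congr 2
      rw [hz, op_smul, Pool.Agent.R484.NC.op_add, Pool.Agent.R484.NC.op_id]
      have h2 : ((2⁻¹ : ℚ) : K) = (2 : K)⁻¹ := by push_cast; rfl
      rw [h2]
      module
    rw [h1] at hm
    have h2 : ctr hU x = (m : ℚ) := by exact_mod_cast hm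
    rw [h2]
    have h3 : m ≤ ((N₀ ^ k : ℕ) : ℤ) := (le_abs_self m).trans hmN
    have h4 : N₀ ^ k ≤ (totalDim R X - 2) ^ k := Nat.pow_le_pow_left (by omega) k
    have h5 : m ≤ (((totalDim R X - 2) ^ k : ℕ) : ℤ) := h3.trans (by exact_mod_cast h4)
    exact_mod_cast h5
  · rintro _ ⟨b, hb, rfl⟩
    have h1 := congrArg ModuleCat.Hom.hom (Aa_comm hb)
    rw [ModuleCat.hom_comp, ModuleCat.hom_comp, par_hom] at h1
    have h2 : (evp R (tp X k) - (1 - evp R (tp X k))) * b.hom =
      b.hom * (evp R (tp X k) - (1 - evp R (tp X k))) := h1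
    have h3 : (2 : K) • (evp R (tp X k) * b.hom) = (2 : K) • (b.hom * evp R (tp X k)) := by
      rw [two_smul, two_smul]
      have h4 : evp R (tp X k) * b.hom + evp R (tp X k) * b.hom =
          (evp R (tp X k) - (1 - evp R (tp X k))) * b.hom + b.hom := by noncomm_ring
      rw [h4, h2]
      noncomm_ring
    have h4 := congrArg (fun t => (2 : K)⁻¹ • t) h3
    simp only [smul_smul, inv_mul_cancel₀ (two_ne_zero : (2 : K) ≠ 0), one_smul] at h4
    exact h4.symm
  · rintro _ ⟨a, ha, rfl⟩ _ ⟨b, hb, rfl⟩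
    exact ⟨b ≫ a, Aa_comp hb ha, rfl⟩
  · rintro _ ⟨a, ha, rfl⟩ _ ⟨b, hb, rfl⟩
    exact ⟨a - b, sub_mem ha hb, rfl⟩
  · rintro _ ⟨y, hy, rfl⟩
    have h1 := cc_st hcA h1c k y hy
    have h2 : stF R (tp X k) (y ≫ (cc R c k - 𝟙 _)) = 0 := by
      rw [stF_comm hy, Preadditive.sub_comp, Category.id_comp, map_sub, h1, sub_self]
    rw [hst] at h2
    exact h2
  · rintro _ ⟨y, hy, rfl⟩
    have h2 : stF R (tp X k) (y ≫ R.H.map (z ≫ z - z)) = 0 := by
      rw [stF_comm hy]
      exact Jj_st (hU := hU) (Submodule.subset_span ⟨_, hzz', rfl⟩) hy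
    rw [hst, ModuleCat.hom_comp, Functor.map_sub, Functor.map_comp, ModuleCat.hom_sub,
      ModuleCat.hom_comp] at h2
    exact h2
  · rw [trace_cc, hch, t3, Nat.cast_pow]

end Pool.Agent.H64NC
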