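import Pool.Agent.H64NC.Stm4
import Pool.Agent.H64NC.Perm

/-!
# Project NCA phase 2: the piece WT (helper70), weights
-/

set_option autoImplicit false
set_option linter.unusedSectionVars false
set_option linter.unusedSimpArgs false
set_option backward.isDefEq.respectTransparency false
set_option backward.defeqAttrib.useBackward true

open CategoryTheory Limits MonoidalCategory
open Pool.Agent.Y112.SR Pool.Agent.Y112.KD Pool.Agent.Y112.SC Pool.Agent.R484.NC
open scoped TensorProduct

namespace Pool.Agent.H64NC.Wt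

universe u v w

open Functor.LaxMonoidal Functor.OplaxMonoidal Pool.Agent.H64NC.Perm

lemma cnt_succ {n N : ℕ} (I : Fin (n + 1) → Fin N) (x : Fin N) :
    cnt I x = cnt (Fin.init (α := fun _ => Fin N) I) x + if I (Fin.last n) = x then 1 else 0 := by
  unfold cnt
  rw [Finset.card_filter, Finset.card_filter, Fin.sum_univ_castSucc]
  rfl

lemma cnt_snoc {n N : ℕ} (J : Fin n → Fin N) (y x : Fin N) :
    cnt (Fin.snoc (α := fun _ => Fin N) J y) x = cnt J x + if y = x then 1 else 0 := by
  rw [cnt_succ, Fin.init_snoc, Fin.snoc_last]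

section

variable {C : Type u} [Category.{v} C] [Preadditive C] [Linear ℚ C] [MonoidalCategory C]
  [MonoidalPreadditive C] [MonoidalLinear ℚ C] [SymmetricCategory C] [RightRigidCategory C]
  {K : Type w} [Field K] (R : SuperRealisation C K)

lemma bx_mu {X Y : C} (a : R.H.obj X ⟶ R.H.obj X) (b : R.H.obj Y ⟶ R.H.obj Y)
    (x : R.H.obj X) (y : R.H.obj Y) :
    (bx R a b).hom (mu R x y) = mu R (a.hom x) (b.hom y) := by
  have h : μ R.H X Y ≫ bx R a b = (a ⊗ₘ b) ≫ μ R.H X Y := by
    rw [bx, Functor.Monoidal.μ_δ_assoc]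
  have h1 := congrArg (fun f => f.hom (x ⊗ₜ[K] y)) h
  exact h1

lemma mu_zero_right {X Y : C} (x : R.H.obj X) : mu R x (0 : R.H.obj Y) = 0 := by
  have := mu_smul_right R (0 : K) x (0 : R.H.obj Y)
  rwa [zero_smul, zero_smul] at this

/-- the tensor product with a fixed vector -/
noncomputable def muL {X Y : C} (y : R.H.obj Y) : R.H.obj X →ₗ[K] R.H.obj (X ⊗ Y) where
  toFun x := mu R x y
  map_add' x x' := mu_add_left R x x' y
  map_smul' c x := mu_smul_left R c x y

variable {M : C} {N : ℕ}

lemma eu_apply (v : Module.Basis (Fin N) K (R.H.obj M)) (a x y : Fin N) :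
    (eu v a x).hom (v y) = (if y = x then (1 : K) else 0) • v a := by
  have h : (eu v a x).hom (v y) = (v.coord x (v y)) • v a := rfl
  rw [h, Module.Basis.coord_apply, Module.Basis.repr_self, Finsupp.single_apply]

lemma par_bs (p : ℕ) (v : Module.Basis (Fin N) K (R.H.obj M)) (hv : Hb p v) :
    ∀ (n : ℕ) (I : Fin n → Fin N), ∃ c : K, (R.par (tp M n)).hom (bs R v n I) = c • bs R v n I
  | 0, I => by
    have h := (bs R v 0).sum_repr ((R.par (tp M 0)).hom (bs R v 0 I))
    rw [Fintype.sum_eq_single I (fun J hJ => absurd (Subsingleton.elim J I) hJ)] at h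
    exact ⟨_, h.symm⟩
  | n + 1, I => by
    obtain ⟨c, hc⟩ := par_bs p v hv n (Fin.init (α := fun _ => Fin N) I)
    refine ⟨c * ((et p (I (Fin.last n)) : ℤ) : K), ?_⟩
    have h1 : (R.par (tp M (n + 1))) = bx R (R.par (tp M n)) (R.par M) := (bx_par R _ _).symm
    rw [h1, bs_succ, bx_mu, hc, hv, mu_smul_left, mu_smul_right, smul_smul]

lemma pw1_bs (p : ℕ) (v : Module.Basis (Fin N) K (R.H.obj M)) (hv : Hb p v) (t : Bool)
    (n : ℕ) (I : Fin n → Fin N) : ∃ c : K, (pw1 R t (tp M n)).hom (bs R v n I) = c • bs R v n I := by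
  cases t with
  | false =>
    refine ⟨1, ?_⟩
    rw [one_smul]
    rfl
  | true => exact par_bs R p v hv n I

lemma part_a (v : Module.Basis (Fin N) K (R.H.obj M)) (x : Fin N) :
    ∀ (n : ℕ) (I : Fin n → Fin N), (Et R false (eu v x x) n).hom (bs R v n I) =
        ((cnt I x : ℕ) : K) • bs R v n I
  | 0, I => by
    have h : cnt I x = 0 := by
      unfold cnt
      rw [Finset.card_eq_zero]
      exact Finset.filter_eq_empty_iff.2 fun i => i.elim0
    rw [Et_zero, h, Nat.cast_zero, zero_smul]
    rfl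
  | n + 1, I => by
    rw [Et_succ, ModuleCat.hom_add, LinearMap.add_apply, bs_succ]
    have h1 : (bx R (Et R false (eu v x x) n) (𝟙 (R.H.obj M))).hom
        (mu R (bs R v n (Fin.init I)) (v (I (Fin.last n)))) =
        ((cnt (Fin.init (α := fun _ => Fin N) I) x : ℕ) : K) •
          mu R (bs R v n (Fin.init I)) (v (I (Fin.last n))) := by
      rw [bx_mu, part_a v x n, mu_smul_left]
      rfl
    have h2 : (bx R (pw1 R false (tp M n)) (eu v x x)).hom
        (mu R (bs R v n (Fin.init I)) (v (I (Fin.last n)))) =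
        (if I (Fin.last n) = x then (1 : K) else 0) •
          mu R (bs R v n (Fin.init I)) (v (I (Fin.last n))) := by
      rw [bx_mu, eu_apply, mu_smul_right]
      have h3 : (pw1 R false (tp M n)).hom (bs R v n (Fin.init I)) = bs R v n (Fin.init I) := rfl
      rw [h3]
      split_ifs with h
      · rw [h]
      · rw [zero_smul, zero_smul]
    rw [h1, h2, ← add_smul, cnt_succ]
    congr 1
    split_ifs <;> push_cast <;> ring

lemma part_b (p : ℕ) (v : Module.Basis (Fin N) K (R.H.obj M)) (hv : Hb p v) (t : Bool)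
    (a x : Fin N) (hax : a ≠ x) :
    ∀ (n : ℕ) (I : Fin n → Fin N), (Et R t (eu v a x) n).hom (bs R v n I) ∈
      Submodule.span K {y | ∃ J : Fin n → Fin N, bs R v n J = y ∧
          cnt J x + 1 = cnt I x ∧ cnt J a = cnt I a + 1 ∧
          ∀ c, c ≠ a → c ≠ x → cnt J c = cnt I c}
  | 0, I => by
    rw [Et_zero]
    exact Submodule.zero_mem _
  | n + 1, I => by
    rw [Et_succ, ModuleCat.hom_add, LinearMap.add_apply, bs_succ]
    refine Submodule.add_mem _ ?_ ?_
    · rw [bx_mu]
      have h1 := part_b p v hv t a x hax n (Fin.init (α := fun _ => Fin N) I)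
      have h2 := Submodule.apply_mem_span_image_of_mem_span
        (muL R (X := tp M n) (v (I (Fin.last n)))) h1
      refine Submodule.span_mono ?_ h2
      rintro _ ⟨_, ⟨J, rfl, h3, h4, h5⟩, rfl⟩
      refine ⟨Fin.snoc (α := fun _ => Fin N) J (I (Fin.last n)), ?_, ?_, ?_, fun c hc hc' => ?_⟩
      · rw [bs_succ, Fin.init_snoc, Fin.snoc_last]
        rfl
      · rw [cnt_snoc, cnt_succ I, ← h3]
        ring
      · rw [cnt_snoc, cnt_succ I, h4]
        ring
      · rw [cnt_snoc, cnt_succ I, h5 c hc hc']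
    · rw [bx_mu, eu_apply]
      obtain ⟨c, hc⟩ := pw1_bs R p v hv t n (Fin.init (α := fun _ => Fin N) I)
      rw [hc, mu_smul_right, mu_smul_left]
      split_ifs with h
      · rw [one_smul]
        refine Submodule.smul_mem _ _ (Submodule.subset_span ?_)
        refine ⟨Fin.snoc (α := fun _ => Fin N) (Fin.init (α := fun _ => Fin N) I) a, ?_, ?_, ?_,
          fun c hc hc' => ?_⟩
        · rw [bs_succ, Fin.init_snoc, Fin.snoc_last]
        · rw [cnt_snoc, cnt_succ I, if_pos h, if_neg hax]
        · rw [cnt_snoc, cnt_succ I, h, if_pos rfl, if_neg (Ne.symm hax)]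
        · rw [cnt_snoc, cnt_succ I, h, if_neg (Ne.symm hc), if_neg (Ne.symm hc')]
      · rw [zero_smul]
        exact Submodule.zero_mem _

end

end Pool.Agent.H64NC.Wt

namespace Pool.Agent.H64NC

universe u v w

section

variable {C : Type u} [Category.{v} C] [Preadditive C] [Linear ℚ C] [MonoidalCategory C]
  [MonoidalPreadditive C] [MonoidalLinear ℚ C] [SymmetricCategory C] [RightRigidCategory C]
  {K : Type w} [Field K] (R : SuperRealisation C K)

/-- **WT** -/
theorem t_WT : S_WT R := by
  intro M p N v hv n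
  exact ⟨Perm.bs R v n, fun x I => Wt.part_a R v x n I,
    fun t a x I hax => Wt.part_b R p v hv t a x hax n I⟩

end

end Pool.Agent.H64NC
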